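import Mathlib

/-! Digit expansions from Taylor coefficients over a finite field. -/

set_option autoImplicit false

open Finset

namespace Pool.Agent.Lib.MP_919f0c_an.Det

lemma dig_fib {V W : Type} [AddCommGroup V] [AddCommGroup W] [Fintype V] [Fintype W]
    [DecidableEq W] (f : V →+ W) (hf : Function.Surjective f) (w : W) :
    #{v | f v = w} * Fintype.card W = Fintype.card V := by
  have h := card_eq_sum_card_fiberwise (s := (univ : Finset V)) (t := (univ : Finset W)) (f := f)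
    fun _ _ => mem_univ _
  rw [sum_congr rfl fun w' _ => AddMonoidHom.card_fiber_eq_of_mem_range f (hf w') (hf w),
    sum_const, smul_eq_mul, card_univ, card_univ] at h
  rw [h, mul_comm]

open Polynomial in
/-- Taylor coefficients at the points `a i` -/
noncomputable def digMap {K : Type} [Field K] {d : ℕ} (a : Fin d → K) (c : Fin d → ℕ) (m : ℕ) :
    degreeLT K m →ₗ[K] ((Σ i, Fin (c i)) → K) :=
  LinearMap.pi fun p => lcoeff K p.2 ∘ₗ taylor (a p.1) ∘ₗ (degreeLT K m).subtype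

open Polynomial in
lemma digMap_inj {K : Type} [Field K] {d : ℕ} {a : Fin d → K} (ha : Function.Injective a)
    (c : Fin d → ℕ) : Function.Injective (digMap a c (∑ i, c i)) := by
  rw [injective_iff_map_eq_zero]
  rintro ⟨f, hf⟩ h
  have h1 : ∀ i, (X - C (a i)) ^ c i ∣ f := fun i => by
    have h2 : X ^ c i ∣ taylor (a i) f := X_pow_dvd_iff.2 fun l hl => congrFun h ⟨i, ⟨l, hl⟩⟩
    obtain ⟨g, hg⟩ := h2
    refine ⟨taylor (-a i) g, ?_⟩
    have h3 := congrArg (taylor (-a i)) hg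
    rw [taylor_taylor, neg_add_cancel, taylor_zero, taylor_mul, taylor_pow, taylor_X] at h3
    rw [h3, C_neg, sub_eq_add_neg]
  have h2 : ∏ i, (X - C (a i)) ^ c i ∣ f :=
    prod_dvd_of_coprime (fun i _ j _ hij => (pairwise_coprime_X_sub_C ha hij).pow) fun i _ => h1 i
  refine Subtype.ext (eq_zero_of_dvd_of_degree_lt h2 ?_)
  rw [degree_prod]
  simp only [degree_pow, degree_X_sub_C, nsmul_one]
  have := mem_degreeLT.1 hf
  rwa [Nat.cast_sum] at this

open Polynomial in
lemma digMap_surj {K : Type} [Field K] {d : ℕ} {a : Fin d → K} (ha : Function.Injective a)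
    (c : Fin d → ℕ) {m : ℕ} (hm : ∑ i, c i ≤ m) : Function.Surjective (digMap a c m) := by
  intro w
  have : FiniteDimensional K (degreeLT K (∑ i, c i)) :=
    (degreeLTEquiv K _).symm.finiteDimensional
  have h1 : Module.finrank K (degreeLT K (∑ i, c i)) = Module.finrank K ((Σ i, Fin (c i)) → K) := by
    rw [(degreeLTEquiv K _).finrank_eq]
    simp
  obtain ⟨f, hf⟩ :=
    (LinearMap.injective_iff_surjective_of_finrank_eq_finrank h1).1 (digMap_inj ha c) w
  exact ⟨⟨f.1, degreeLT_mono hm f.2⟩, hf⟩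

theorem digits (d : ℕ) : ∃ e : ℕ, 0 < e ∧ ∀ m : ℕ,
    ∃ δ : Fin ((2 ^ e) ^ m) → Fin d → ℕ → Fin (2 ^ e), ∀ c : Fin d → ℕ, ∑ i, c i ≤ m →
      ∀ τ : Fin d → ℕ → Fin (2 ^ e),
        #{ω | ∀ i, ∀ l < c i, δ ω i l = τ i l} = (2 ^ e) ^ (m - ∑ i, c i) := by
  classical
  refine ⟨d + 1, Nat.succ_pos _, fun m => ?_⟩
  let K := GaloisField 2 (d + 1)
  have : Fintype K := Fintype.ofFinite K
  have hK : Fintype.card K = 2 ^ (d + 1) := by
    rw [← Nat.card_eq_fintype_card]
    exact GaloisField.card 2 (d + 1) (Nat.succ_ne_zero _)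
  let σ : K ≃ Fin (2 ^ (d + 1)) := Fintype.equivFinOfCardEq hK
  have hd : d ≤ 2 ^ (d + 1) := (Nat.le_succ d).trans Nat.lt_two_pow_self.le
  let a : Fin d → K := fun i => σ.symm (Fin.castLE hd i)
  have ha : Function.Injective a := σ.symm.injective.comp (Fin.castLE_injective hd)
  have : Fintype (Polynomial.degreeLT K m) :=
    Fintype.ofEquiv _ (Polynomial.degreeLTEquiv K m).toEquiv.symm
  have hV : Fintype.card (Polynomial.degreeLT K m) = (2 ^ (d + 1)) ^ m := by
    rw [Fintype.card_congr (Polynomial.degreeLTEquiv K m).toEquiv, Fintype.card_fun, hK,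
      Fintype.card_fin]
  let E := (Fintype.equivFinOfCardEq hV).symm
  refine ⟨fun ω i l => σ ((Polynomial.taylor (a i) (E ω).1).coeff l), fun c hc τ => ?_⟩
  have h1 := dig_fib (digMap a c m).toAddMonoidHom (digMap_surj ha c hc)
    fun p => σ.symm (τ p.1 p.2)
  rw [hV, Fintype.card_fun, hK, Fintype.card_sigma] at h1
  simp only [Fintype.card_fin] at h1
  have h2 : (2 ^ (d + 1)) ^ m = (2 ^ (d + 1)) ^ (m - ∑ i, c i) * (2 ^ (d + 1)) ^ ∑ i, c i := by
    rw [← pow_add, Nat.sub_add_cancel hc]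
  rw [h2] at h1
  rw [← Nat.eq_of_mul_eq_mul_right (by positivity) h1]
  refine card_equiv E fun ω => ?_
  simp only [mem_filter, mem_univ, true_and]
  refine ⟨fun h => funext fun p => σ.eq_symm_apply.2 (h p.1 p.2 p.2.2), fun h i l hl => ?_⟩
  exact σ.eq_symm_apply.1 (congrFun h ⟨i, ⟨l, hl⟩⟩)

end Pool.Agent.Lib.MP_919f0c_an.Det
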