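import Pool.Agent.Lib.MP_919f0c_an.Det.Defs
import Pool.Agent.Lib.MP_919f0c_an.Det.Digits

/-! Digital nets on the grid. -/

set_option autoImplicit false

open Finset Matrix

namespace Pool.Agent.Lib.MP_919f0c_an.Det

open Pool.Agent.Lib.MP_919f0c_an.Lp

/-- the value of the first digits -/
def dval {q : ℕ} (a : ℕ → Fin q) : ℕ → ℕ
  | 0 => 0
  | c + 1 => q * dval a c + (a c).1

lemma dval_lt {q : ℕ} (a : ℕ → Fin q) (c : ℕ) : dval a c < q ^ c := by
  induction c with
  | zero => simp [dval]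
  | succ c ih =>
    have h1 := (a c).2
    have h2 : q * (dval a c + 1) ≤ q * q ^ c := Nat.mul_le_mul_left _ ih
    rw [dval, pow_succ']
    rw [mul_add, mul_one] at h2
    omega

lemma dval_succ_div {q : ℕ} (a : ℕ → Fin q) (c : ℕ) : dval a (c + 1) / q = dval a c := by
  have h1 := (a c).2
  rw [dval, Nat.mul_add_div (by omega), Nat.div_eq_of_lt h1, add_zero]

lemma dval_succ_mod {q : ℕ} (a : ℕ → Fin q) (c : ℕ) : dval a (c + 1) % q = (a c).1 := by
  rw [dval, Nat.mul_add_mod, Nat.mod_eq_of_lt (a c).2]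

lemma dval_div {q : ℕ} (a : ℕ → Fin q) (c k : ℕ) : dval a (c + k) / q ^ k = dval a c := by
  induction k with
  | zero => simp
  | succ k ih => rw [pow_succ', ← Nat.div_div_eq_div_mul, ← add_assoc, dval_succ_div, ih]

lemma dval_inj {q : ℕ} (a b : ℕ → Fin q) (c : ℕ) :
    dval a c = dval b c ↔ ∀ l < c, a l = b l := by
  induction c with
  | zero => simp [dval]
  | succ c ih =>
    constructor
    · intro h l hl
      have h1 : dval a c = dval b c := by rw [← dval_succ_div a, h, dval_succ_div]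
      have h2 : (a c).1 = (b c).1 := by rw [← dval_succ_mod a, h, dval_succ_mod]
      rcases Nat.lt_succ_iff_lt_or_eq.1 hl with h3 | h3
      · exact ih.1 h1 l h3
      · rw [h3]; exact Fin.ext h2
    · intro h
      rw [dval, dval, ih.2 fun l hl => h l (Nat.lt_succ_of_lt hl), h c (Nat.lt_succ_self c)]

lemma dval_surj {q : ℕ} (hq : 0 < q) (c : ℕ) : ∀ u < q ^ c, ∃ a : ℕ → Fin q, dval a c = u := by
  induction c with
  | zero => intro u hu; exact ⟨fun _ => ⟨0, hq⟩, by simp at hu; simp [dval, hu]⟩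
  | succ c ih =>
    intro u hu
    obtain ⟨a, ha⟩ := ih (u / q) (by rwa [Nat.div_lt_iff_lt_mul hq, ← pow_succ])
    refine ⟨Function.update a c ⟨u % q, Nat.mod_lt _ hq⟩, ?_⟩
    have h1 : dval (Function.update a c ⟨u % q, Nat.mod_lt _ hq⟩) c = dval a c :=
      (dval_inj _ _ _).2 fun l hl => Function.update_of_ne hl.ne _ _
    rw [dval, h1, ha, Function.update_self]
    exact Nat.div_add_mod u q

lemma card_coarse {d e m : ℕ} (δ : Fin ((2 ^ e) ^ m) → Fin d → ℕ → Fin (2 ^ e)) (c : Fin d → ℕ)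
    (H : ∀ τ : Fin d → ℕ → Fin (2 ^ e),
      #{ω | ∀ i, ∀ l < c i, δ ω i l = τ i l} = (2 ^ e) ^ (m - ∑ i, c i))
    (s r y : Fin d → ℕ) (hr : ∀ i, s i + r i = e * c i) (hy : ∀ i, y i < 2 ^ s i) :
    #{ω | ∀ i, dval (δ ω i) (c i) / 2 ^ r i = y i} = 2 ^ (∑ i, r i) * (2 ^ e) ^ (m - ∑ i, c i) := by
  have hm : ∀ i u, u ∈ Ico (y i * 2 ^ r i) ((y i + 1) * 2 ^ r i) ↔ u / 2 ^ r i = y i := by
    intro i u
    rw [mem_Ico, ← Nat.le_div_iff_mul_le (Nat.two_pow_pos _),
      ← Nat.div_lt_iff_lt_mul (Nat.two_pow_pos _)]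
    omega
  rw [card_eq_sum_card_fiberwise (f := fun ω i => dval (δ ω i) (c i))
    (t := Fintype.piFinset fun i => Ico (y i * 2 ^ r i) ((y i + 1) * 2 ^ r i))
    (fun ω hω => by
      rw [mem_coe, mem_filter] at hω
      exact mem_coe.2 (Fintype.mem_piFinset.2 fun i => (hm i _).2 (hω.2 i)))]
  rw [sum_congr rfl (g := fun _ => (2 ^ e) ^ (m - ∑ i, c i)), sum_const, Fintype.card_piFinset,
    smul_eq_mul, ← prod_pow_eq_pow_sum]
  · congr 1
    refine prod_congr rfl fun i _ => ?_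
    rw [Nat.card_Ico, add_mul, one_mul, Nat.add_sub_cancel_left]
  · intro u hu
    have hu' := Fintype.mem_piFinset.1 hu
    have h1 : ∀ i, u i < (2 ^ e) ^ c i := fun i => by
      rw [← pow_mul, ← hr i, pow_add]
      exact (mem_Ico.1 (hu' i)).2.trans_le (Nat.mul_le_mul_right _ (hy i))
    choose τ hτ using fun i => dval_surj (Nat.two_pow_pos e) (c i) (u i) (h1 i)
    rw [← H τ, filter_filter]
    refine congrArg card (filter_congr fun ω _ => ?_)
    simp only [funext_iff, ← dval_inj, hτ]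
    exact ⟨fun h => h.2, fun h => ⟨fun i => by rw [h i]; exact (hm i _).1 (hu' i), h⟩⟩

theorem net (d : ℕ) : ∃ t : ℕ, ∀ W N : ℕ, ∃ w : GW d W → ℝ, Net N w ∧
    #{z | w z ≠ 0} ≤ 2 ^ (N + t) := by
  obtain ⟨e, he, H⟩ := digits d
  refine ⟨e * d, fun W N => ?_⟩
  obtain ⟨δ, hδ⟩ := H (N / e + d)
  have hW : W ≤ e * (W + 1) := (Nat.le_succ W).trans (Nat.le_mul_of_pos_left _ he)
  let ζ : Fin ((2 ^ e) ^ (N / e + d)) → GW d W := fun ω i =>
    ⟨dval (δ ω i) (W + 1) / 2 ^ (e * (W + 1) - W), by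
      rw [Nat.div_lt_iff_lt_mul (Nat.two_pow_pos _), ← pow_add, Nat.add_sub_cancel' hW, pow_mul]
      exact dval_lt _ _⟩
  refine ⟨fun z => 2 ^ (d * W) / (2 ^ e) ^ (N / e + d) * (#{ω | ζ ω = z} : ℝ),
    ⟨fun z => by positivity, fun s hs hN => ?_⟩, ?_⟩
  · funext x
    have hc : ∀ i, s i ≤ e * (s i / e + 1) := fun i => (Nat.lt_mul_div_succ _ he).le
    have hc2 : ∀ i, s i / e + 1 ≤ W + 1 := fun i =>
      Nat.succ_le_succ ((Nat.div_le_self _ _).trans (hs i))
    have hsum : ∑ i, (s i / e + 1) ≤ N / e + d := by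
      rw [sum_add_distrib]
      refine Nat.add_le_add ?_ (by simp)
      rw [Nat.le_div_iff_mul_le he, sum_mul]
      exact (sum_le_sum fun i _ => Nat.div_mul_le_self _ _).trans hN
    have h1 := card_coarse δ (fun i => s i / e + 1) (hδ _ hsum) s
      (fun i => e * (s i / e + 1) - s i) (bx (fun i => W - s i) x)
      (fun i => Nat.add_sub_cancel' (hc i)) (fun i => by
        rw [bx, Nat.div_lt_iff_lt_mul (Nat.two_pow_pos _), ← pow_add, Nat.add_sub_cancel' (hs i)]
        exact (x i).2)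
    have h2 : ∀ ω i, bx (fun i => W - s i) (ζ ω) i =
        dval (δ ω i) (s i / e + 1) / 2 ^ (e * (s i / e + 1) - s i) := fun ω i => by
      obtain ⟨k, hk⟩ := Nat.exists_eq_add_of_le (hc2 i)
      have h3 := dval_div (δ ω i) (s i / e + 1) k
      rw [← h3, ← hk, ← pow_mul]
      simp only [bx, ζ, Nat.div_div_eq_div_mul, ← pow_add]
      congr 2
      have h4 : e * (W + 1) = e * (s i / e + 1) + e * k := by rw [hk, mul_add]
      have := hc i
      have := hs i
      omega
    have h5 : ∑ z with bx (fun i => W - s i) z = bx (fun i => W - s i) x, #{ω | ζ ω = z} =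
        2 ^ (∑ i, (e * (s i / e + 1) - s i)) * (2 ^ e) ^ (N / e + d - ∑ i, (s i / e + 1)) := by
      rw [← h1, card_eq_sum_card_fiberwise (f := ζ)
        (t := {z | bx (fun i => W - s i) z = bx (fun i => W - s i) x}) (fun ω hω => by
          rw [mem_coe, mem_filter] at hω
          exact mem_coe.2 (mem_filter.2 ⟨mem_univ _, funext fun i => (h2 ω i).trans (hω.2 i)⟩))]
      refine sum_congr rfl fun z hz => ?_
      rw [filter_filter]
      refine congrArg card (filter_congr fun ω _ => ⟨fun h => ⟨fun i => ?_, h⟩, fun h => h.2⟩)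
      rw [← h2, h, (mem_filter.1 hz).2]
    have h6 : (∑ i, s i) + ((∑ i, (e * (s i / e + 1) - s i)) +
        e * (N / e + d - ∑ i, (s i / e + 1))) = e * (N / e + d) := by
      rw [← add_assoc, ← sum_add_distrib, sum_congr rfl fun i _ => Nat.add_sub_cancel' (hc i),
        ← mul_sum, ← mul_add, Nat.add_sub_cancel' hsum]
    rw [Em_apply, ← mul_sum, ← Nat.cast_sum, h5, sum_split hs, ← pow_mul, ← pow_mul, ← pow_add,
      ← h6, pow_add]
    push_cast
    rw [Pi.one_apply]
    field_simp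
  · refine (card_le_card (t := univ.image ζ) fun z hz => ?_).trans (card_image_le.trans ?_)
    · have h := (mem_filter.1 hz).2
      obtain ⟨ω, hω⟩ := card_ne_zero.1 (Nat.cast_ne_zero.1 (right_ne_zero_of_mul h))
      exact mem_image.2 ⟨ω, mem_univ _, (mem_filter.1 hω).2⟩
    · rw [card_univ, Fintype.card_fin, ← pow_mul, mul_add]
      exact Nat.pow_le_pow_right two_pos (Nat.add_le_add_right (Nat.mul_div_le N e) _)

end Pool.Agent.Lib.MP_919f0c_an.Det
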