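import Pool.Agent.Lib.MP_919f0c_an.Det.Defs

/-! Rounding differences. -/

set_option autoImplicit false

open Finset Matrix

namespace Pool.Agent.Lib.MP_919f0c_an.Det

open Pool.Agent.Lib.MP_919f0c_an.Lp

variable {d : ℕ}

/-- the rounded point -/
def rd (W j : ℕ) (x : Fin (2 ^ W)) : Fin (2 ^ W) :=
  ⟨x.1 / 2 ^ (W + 1 - j) * 2 ^ (W + 1 - j), (Nat.div_mul_le_self _ _).trans_lt x.2⟩

lemma round_div (W j : ℕ) (x : Fin (2 ^ W)) :
    (rd W j x).1 / 2 ^ (W + 1 - j) = x.1 / 2 ^ (W + 1 - j) :=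
  Nat.mul_div_cancel _ (Nat.two_pow_pos _)

lemma round_apply (W j : ℕ) (x z : Fin (2 ^ W)) :
    rk W j x z = if j ≠ 0 ∧ z = rd W j x then 1 else 0 := by
  simp only [rk, of_apply, Fin.ext_iff, rd]

lemma round_ne {W j : ℕ} {x z : Fin (2 ^ W)} (h : rk W j x z ≠ 0) : j ≠ 0 ∧ z = rd W j x := by
  rw [round_apply] at h
  by_contra h1
  exact h (if_neg h1)

lemma round_ne2 {W a b : ℕ} {x z : Fin (2 ^ W)} (h : (rk W b - rk W a) x z ≠ 0) :
    z = rd W b x ∨ z = rd W a x := by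
  by_cases h1 : rk W b x z = 0
  · refine Or.inr (round_ne fun h2 => h ?_).2
    rw [Matrix.sub_apply, h1, h2, sub_self]
  · exact Or.inl (round_ne h1).2

lemma round_sum (W j : ℕ) (x : Fin (2 ^ W)) (f : Fin (2 ^ W) → ℝ) :
    ∑ z, rk W j x z * f z = if j = 0 then 0 else f (rd W j x) := by
  by_cases h : j = 0
  · simp [round_apply, h]
  · simp [round_apply, h]

lemma round_nonneg (W j : ℕ) (x z : Fin (2 ^ W)) : 0 ≤ rk W j x z := by
  rw [round_apply]; split_ifs <;> norm_num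

lemma round_row (W j : ℕ) (x : Fin (2 ^ W)) : ∑ z, rk W j x z ≤ 1 := by
  have := round_sum W j x fun _ => 1
  simp only [mul_one] at this
  rw [this]; split_ifs <;> norm_num

lemma round_zero (W : ℕ) : rk W 0 = 0 := by
  ext x z; simp [round_apply]

lemma round_top (W : ℕ) : rk W (W + 1) = 1 := by
  ext x z
  simp [rk, one_apply, Fin.ext_iff, eq_comm]

lemma round_dvd {W j k : ℕ} (h : j ≤ k) (x : Fin (2 ^ W)) : 2 ^ (W + 1 - k) ∣ (rd W j x).1 :=
  Dvd.dvd.mul_left (pow_dvd_pow 2 (by omega)) _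

lemma round_Rm (W : ℕ) (α β : Fin d → ℕ) (x z : GW d W) :
    Rm W α β x z = ∏ i, (rk W (β i) - rk W (α i)) (x i) (z i) := rfl

theorem sum_Rm (W : ℕ) {α β : Fin d → ℕ} (h : α ≤ β) :
    ∑ s ∈ Fintype.piFinset fun i => Ico (α i) (β i), Rm W s (s + 1) = Rm W α β := by
  simp only [Rm, Pi.add_apply, Pi.one_apply]
  rw [← tens_sum _ fun _ j => rk W (j + 1) - rk W j]
  congr 1; funext i
  exact sum_Ico_sub _ (h i)

theorem sum_Sh (W : ℕ) : ∑ s ∈ Sh d W, Rm W s (s + 1) = 1 := by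
  simp only [Rm, Sh, Pi.add_apply, Pi.one_apply]
  rw [← tens_sum _ fun _ j => rk W (j + 1) - rk W j]
  simp only [sum_range_sub (fun j => rk W j), round_top, round_zero, sub_zero]
  exact tens_one

theorem Rm_cell {W : ℕ} (e : Fin d → ℕ) {t : Fin d → ℕ} (ht : t ∈ Sh d W) : ∃ α β : Fin d → ℕ,
    ∑ s ∈ Sh d W with lb e s = lb e t, Rm W s (s + 1) = Rm W α β := by
  have key : ∀ s : Fin d → ℕ, (s ∈ Sh d W ∧ lb e s = lb e t) ↔ ∀ j,
      lb e t j * 2 ^ e j - 1 ≤ s j ∧ s j < min ((lb e t j + 1) * 2 ^ e j - 1) (W + 1) := by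
    intro s
    rw [mem_Sh, funext_iff, ← forall_and]
    refine forall_congr' fun j => ?_
    have h0 := Nat.two_pow_pos (e j)
    have h1 : lb e t j ≤ lb e s j ↔ lb e t j * 2 ^ e j ≤ s j + 1 := Nat.le_div_iff_mul_le h0
    have h2 : lb e s j < lb e t j + 1 ↔ s j + 1 < (lb e t j + 1) * 2 ^ e j :=
      Nat.div_lt_iff_lt_mul h0
    omega
  refine ⟨fun j => lb e t j * 2 ^ e j - 1, fun j => min ((lb e t j + 1) * 2 ^ e j - 1) (W + 1), ?_⟩
  rw [← sum_Rm W fun j => ((key t).1 ⟨ht, rfl⟩ j).1.trans ((key t).1 ⟨ht, rfl⟩ j).2.le]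
  refine sum_congr ?_ fun _ _ => rfl
  ext s
  rw [mem_filter, key, Fintype.mem_piFinset]
  simp only [mem_Ico]

theorem Rm_fac (W : ℕ) (s : Fin d → ℕ) (F : GW d W → ℝ) :
    (Rm W s (s + 1) *ᵥ F).FactorsThrough (bx fun i => W - s i) := by
  intro x y h
  have e : Rm W s (s + 1) x = Rm W s (s + 1) y := by
    funext z
    rw [round_Rm, round_Rm]
    refine prod_congr rfl fun i _ => ?_
    have h1 : (x i).1 / 2 ^ (W - s i) = (y i).1 / 2 ^ (W - s i) := congrFun h i
    have h2 := div_eq_of_le (show W - s i ≤ W + 1 - s i by omega) h1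
    simp only [Matrix.sub_apply, rk, of_apply, Pi.add_apply, Pi.one_apply,
      Nat.add_sub_add_right, h1, h2]
  show Rm W s (s + 1) x ⬝ᵥ F = Rm W s (s + 1) y ⬝ᵥ F
  rw [e]

theorem Rm_row (W : ℕ) (α β : Fin d → ℕ) (x : GW d W) : ∑ z, |Rm W α β x z| ≤ 2 ^ d := by
  refine tens_row (fun i y => ?_) x
  refine (sum_le_sum (g := fun z => rk W (β i) y z + rk W (α i) y z) fun z _ => ?_).trans ?_
  · rw [Matrix.sub_apply, abs_le]
    constructor <;> linarith [round_nonneg W (β i) y z, round_nonneg W (α i) y z]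
  · rw [sum_add_distrib]
    linarith [round_row W (β i) y, round_row W (α i) y]

theorem Rm_card (W : ℕ) (α β : Fin d → ℕ) (x : GW d W) : #{z | Rm W α β x z ≠ 0} ≤ 2 ^ d := by
  refine (card_le_card (t := Fintype.piFinset fun i =>
    ({rd W (β i) (x i), rd W (α i) (x i)} : Finset (Fin (2 ^ W)))) fun z hz => ?_).trans ?_
  · refine Fintype.mem_piFinset.2 fun i => ?_
    have h0 := (mem_filter.1 hz).2
    rw [round_Rm] at h0
    have h1 := prod_ne_zero_iff.1 h0 i (mem_univ i)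
    simpa using round_ne2 h1
  · rw [Fintype.card_piFinset]
    simpa using prod_le_pow_card univ _ 2 fun i _ => card_le_two
      (a := rd W (β i) (x i)) (b := rd W (α i) (x i))

theorem Rm_van {W : ℕ} {s t : Fin d → ℕ} (h : ¬ t ≤ s) {g : GW d W → ℝ} (hg : Van t g) :
    Rm W s (s + 1) *ᵥ g = 0 := by
  obtain ⟨i, hi⟩ : ∃ i, s i < t i := by
    by_contra h1
    exact h fun i => not_lt.1 fun h2 => h1 ⟨i, h2⟩
  funext x
  refine sum_eq_zero fun z _ => ?_
  by_cases h1 : Rm W s (s + 1) x z = 0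
  · exact mul_eq_zero_of_left h1 _
  refine mul_eq_zero_of_right _ (hg z i (by omega) ?_)
  rw [round_Rm] at h1
  rcases round_ne2 (prod_ne_zero_iff.1 h1 i (mem_univ i)) with h2 | h2 <;> rw [h2]
  · exact round_dvd hi _
  · exact round_dvd hi.le _

theorem Rm_decay {p Λ : ℝ} (hp : 1 ≤ p) (hΛ : 1 ≤ Λ) {W : ℕ} {s t : Fin d → ℕ} (hts : t ≤ s)
    (hs : ∀ i, s i ≤ W) {ι : Type} [Fintype ι] {χ : ι → Fin d → ℝ → ℝ}
    (hχ : ∀ a i, Prof Λ (χ a i)) {γ : (Fin d → ℕ) → ι → GW d W → ℝ}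
    (hγ : ∀ a, (γ t a).FactorsThrough (bx fun i => W - t i)) (hv : Van t (gs χ γ t)) :
    nm p (Rm W s (s + 1) *ᵥ gs χ γ t) ≤
      (2 * Λ) ^ d * (1 / 2) ^ (∑ i, (s i - t i)) * ∑ a, nm p (γ t a) := by
  let B : Fin d → Matrix (Fin (2 ^ W)) (Fin (2 ^ W)) ℝ := fun i =>
    if s i = t i then rk W (s i + 1) else rk W (s i + 1) - rk W (s i)
  have h1 : Rm W s (s + 1) *ᵥ gs χ γ t = tens B *ᵥ gs χ γ t := by
    funext x
    refine sum_congr rfl fun z _ => ?_
    by_cases h0 : gs χ γ t z = 0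
    · simp only [h0, mul_zero]
    show Rm W s (s + 1) x z * _ = (∏ i, B i (x i) (z i)) * _
    rw [round_Rm]
    refine congrArg (· * gs χ γ t z) (prod_congr rfl fun i _ => ?_)
    simp only [B, Pi.add_apply, Pi.one_apply]
    split_ifs with h2
    · have h3 : rk W (s i) (x i) (z i) = 0 := by
        by_contra h3
        obtain ⟨h4, h5⟩ := round_ne h3
        exact h0 (hv z i (h2 ▸ h4) (h5 ▸ round_dvd h2.le _))
      rw [Matrix.sub_apply, h3, sub_zero]
    · rfl
  rw [h1, gs, mulVec_sum, mul_sum]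
  refine (nm_sum hp _ _).trans (sum_le_sum fun a _ => ?_)
  refine nm_smul_le (by linarith) (by positivity) fun x => ?_
  have h2 : (tens B *ᵥ fun x => γ t a x * pf (χ a) (fun i => W - t i) x) x =
      (∏ i, ∑ z, B i (x i) z * χ a i (tl (W - t i) z)) * γ t a x := by
    rw [← sum_pi_prod fun i z => B i (x i) z * χ a i (tl (W - t i) z), sum_mul]
    refine sum_congr rfl fun z _ => ?_
    simp only [tens, of_apply, pf, prod_mul_distrib]
    by_cases h3 : ∏ i, B i (x i) (z i) = 0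
    · simp [h3]
    rw [hγ a (show bx _ z = bx _ x from funext fun i => ?_)]
    · ring
    have h4 := prod_ne_zero_iff.1 h3 i (mem_univ i)
    have h6 : t i ≤ s i := hts i
    have h7 : ∀ j, t i < j → z i = rd W j (x i) →
        (z i).1 / 2 ^ (W - t i) = (x i).1 / 2 ^ (W - t i) := fun j hj h8 => by
      rw [h8]
      exact div_eq_of_le (show W + 1 - j ≤ W - t i by omega) (round_div W j _)
    simp only [B] at h4
    split_ifs at h4 with h5
    · exact h7 _ (by omega) (round_ne h4).2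
    · rcases round_ne2 h4 with h8 | h8
      · exact h7 _ (by omega) h8
      · exact h7 _ (by omega) h8
  rw [h2, abs_mul, abs_prod, ← prod_pow_eq_pow_sum, show (2 * Λ) ^ d = ∏ _i : Fin d, 2 * Λ by simp,
    ← prod_mul_distrib]
  refine mul_le_mul_of_nonneg_right (prod_le_prod (fun _ _ => abs_nonneg _) fun i _ => ?_)
    (abs_nonneg _)
  have h6 : t i ≤ s i := hts i
  have h7 := hs i
  simp only [B]; split_ifs with h3
  · rw [round_sum W _ _ fun z => χ a i (tl (W - t i) z), if_neg (by omega), h3, Nat.sub_self,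
      pow_zero, mul_one]
    exact ((hχ a i).bd _ (tl_mem _ _)).trans (by linarith)
  · simp only [Matrix.sub_apply, sub_mul, sum_sub_distrib]
    rw [round_sum W _ _ fun z => χ a i (tl (W - t i) z),
      round_sum W _ _ fun z => χ a i (tl (W - t i) z), if_neg (by omega), if_neg (by omega)]
    refine ((hχ a i).lip _ (tl_mem _ _) _ (tl_mem _ _)).trans ?_
    have h8 := tl_lip (p := W + 1 - s i) (q := W - t i) (by omega)
      ((div_eq_of_le (by omega) (round_div W (s i + 1) (x i))).trans (round_div W (s i) (x i)).symm)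
    rw [show s i - t i = W - t i - (W + 1 - s i) + 1 by omega, pow_succ]
    nlinarith [mul_le_mul_of_nonneg_left h8 (show 0 ≤ Λ by linarith)]

end Pool.Agent.Lib.MP_919f0c_an.Det
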