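import Pool.Agent.Lib.MP_919f0c_an.Det.Defs

/-! The error of a net on a piecewise constant function. -/

set_option autoImplicit false

open Finset Matrix

namespace Pool.Agent.Lib.MP_919f0c_an.Det

open Pool.Agent.Lib.MP_919f0c_an.Lp

variable {d : ℕ}

lemma ne_Em_mul (W : ℕ) {v s : Fin d → ℕ} (hvs : v ≤ s) : Em W v * Em W s = Em W v := by
  unfold Em
  rw [tens_mul]
  refine congrArg tens (funext fun i => ?_)
  rw [ek_mul (Nat.sub_le _ _) (Nat.sub_le _ _), max_eq_left (Nat.sub_le_sub_left (hvs i) W)]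

lemma ne_ek_le {W a b : ℕ} (hab : a ≤ b) (hb : b ≤ W) (x z : Fin (2 ^ W)) :
    ek W (W - b) x z ≤ 2 ^ (b - a) * ek W (W - a) x z := by
  by_cases h : z.1 / 2 ^ (W - b) = x.1 / 2 ^ (W - b)
  · have h2 := div_eq_of_le (Nat.sub_le_sub_left hab W) h
    simp only [ek, of_apply, if_pos h, if_pos h2]
    rw [show W - a = b - a + (W - b) by omega, pow_add]
    exact le_of_eq (by field_simp)
  · have := ek_nonneg W (W - a) x z
    simp only [ek, of_apply, if_neg h] at this ⊢
    positivity

lemma ne_Em_le {W : ℕ} {u s : Fin d → ℕ} (hus : u ≤ s) (hs : ∀ i, s i ≤ W) (x z : GW d W) :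
    Em W s x z ≤ 2 ^ (∑ i, s i - ∑ i, u i) * Em W u x z := by
  rw [← sum_tsub_distrib _ fun i _ => hus i, ← prod_pow_eq_pow_sum]
  change ∏ i, ek W (W - s i) (x i) (z i) ≤ _ * ∏ i, ek W (W - u i) (x i) (z i)
  rw [← prod_mul_distrib]
  exact prod_le_prod (fun i _ => ek_nonneg _ _ _ _) fun i _ => ne_ek_le (hus i) (hs i) _ _

lemma ne_exists (s : Fin d → ℕ) (k : ℕ) (hk : k ≤ ∑ i, s i) : ∃ u ≤ s, ∑ i, u i + k = ∑ i, s i := by
  induction k with
  | zero => exact ⟨s, le_rfl, rfl⟩
  | succ k ih =>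
    obtain ⟨u, hu, h⟩ := ih (by omega)
    obtain ⟨i, -, hi⟩ := exists_ne_zero_of_sum_ne_zero (s := univ) (f := u) (by omega)
    refine ⟨Function.update u i (u i - 1), fun j => ?_, ?_⟩
    · by_cases hj : j = i
      · subst hj
        rw [Function.update_self]
        exact (Nat.sub_le _ _).trans (hu j)
      · rw [Function.update_of_ne hj]
        exact hu j
    · rw [sum_update_of_mem (mem_univ i), ← h, ← add_sum_erase univ u (mem_univ i),
        sdiff_singleton_eq_erase]
      omega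

theorem net_err {p : ℝ} (hp : 1 ≤ p) {W N : ℕ} {w : GW d W → ℝ} (hw : Net N w) {v s : Fin d → ℕ}
    (hvs : v ≤ s) (hs : ∀ i, s i ≤ W) (hv : ∑ i, v i ≤ N) {h : GW d W → ℝ}
    (hh : h.FactorsThrough (bx fun i => W - s i)) :
    nm p (Em W v *ᵥ fun z => (w z - 1) * h z) ≤
      if N < ∑ i, s i then 2 * (2 ^ (1 / p)) ^ (∑ i, s i - N) * nm p h else 0 := by
  have hp0 : 0 < p := zero_lt_one.trans_le hp
  have e1 : (fun z => (w z - 1) * h z) = (fun z => w z * h z) + -h := by
    funext z
    simp only [Pi.add_apply, Pi.neg_apply]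
    ring
  rw [e1, mulVec_add, mulVec_neg]
  split_ifs with hN
  · obtain ⟨u, hu, hu2⟩ := ne_exists s (∑ i, s i - N) (Nat.sub_le _ _)
    have hu3 : ∑ i, u i = N := by omega
    have hcol : ∀ z, (Em W s *ᵥ w) z ≤ 2 ^ (∑ i, s i - N) := fun z => by
      have h1 := congrFun (hw.2 u (fun i => (hu i).trans (hs i)) hu3.le) z
      rw [← mul_one (2 ^ _ : ℝ), ← show (Em W u *ᵥ w) z = 1 from h1]
      simp only [mulVec, dotProduct, mul_sum, ← mul_assoc]
      exact sum_le_sum fun y _ =>
        mul_le_mul_of_nonneg_right (hu3 ▸ ne_Em_le hu hs z y) (hw.1 y)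
    set K : Matrix (GW d W) (GW d W) ℝ := Em W v * diagonal w * Em W s with hK
    have hK1 : ∀ x z, K x z = ∑ y, Em W v x y * w y * Em W s y z := fun x z => by
      simp only [hK, mul_apply (M := Em W v * diagonal w), mul_diagonal]
    have hK0 : ∀ x z, |K x z| = K x z := fun x z => abs_of_nonneg (by
      rw [hK1]
      exact sum_nonneg fun y _ =>
        mul_nonneg (mul_nonneg (Em_nonneg _ _ _ _) (hw.1 y)) (Em_nonneg _ _ _ _))
    have hob := schur hp K (B' := 2 ^ (∑ i, s i - N)) zero_le_one (fun x => by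
      simp only [hK0]
      simp only [hK1]
      rw [sum_comm]
      simp only [← mul_sum, Em_row, mul_one]
      exact (congrFun (hw.2 v (fun i => (hvs i).trans (hs i)) hv) x).le) (fun z => by
      simp only [hK0]
      simp only [hK1]
      rw [sum_comm]
      simp only [← sum_mul, Em_comm W v _ _, Em_row, one_mul]
      refine le_trans (le_of_eq ?_) (hcol z)
      exact sum_congr rfl fun y _ => by rw [mul_comm, Em_comm]) h
    have e2 : K *ᵥ h = Em W v *ᵥ fun z => w z * h z := by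
      rw [hK, ← mulVec_mulVec, Em_self hh, ← mulVec_mulVec]
      exact congrArg _ (funext fun z => mulVec_diagonal w h z)
    have h1 : (1 : ℝ) ≤ (2 ^ (1 / p)) ^ (∑ i, s i - N) :=
      one_le_pow₀ (Real.one_le_rpow one_le_two (by positivity))
    have h2 : nm p (Em W v *ᵥ fun z => w z * h z) ≤ (2 ^ (1 / p)) ^ (∑ i, s i - N) * nm p h := by
      refine nm_le_mul hp0 (by positivity) ?_
      rw [← e2, ← Real.rpow_pow_comm (by positivity), ← Real.rpow_mul zero_le_two,
        one_div_mul_cancel hp0.ne', Real.rpow_one]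
      simpa using hob
    have h3 : nm p (Em W v *ᵥ h) ≤ 1 * nm p h :=
      nm_le_mul hp0 zero_le_one (by simpa using OB_Em hp W v h)
    have h4 := nm_add hp (Em W v *ᵥ fun z => w z * h z) (-(Em W v *ᵥ h))
    rw [nm_neg] at h4
    nlinarith [nm_nonneg p h]
  · have e2 : (Em W s *ᵥ fun z => w z * h z) = h := by
      funext x
      have h1 := congrFun (hw.2 s hs (not_lt.1 hN)) x
      rw [Em_apply] at h1 ⊢
      rw [sum_congr (g := fun z => w z * h x) rfl fun z hz => by rw [hh (mem_filter.1 hz).2],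
        ← sum_mul, ← mul_assoc, h1]
      simp
    rw [← ne_Em_mul W hvs, ← mulVec_mulVec, e2, ne_Em_mul W hvs, add_neg_cancel, nm_zero hp0]

end Pool.Agent.Lib.MP_919f0c_an.Det
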