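import Pool.Agent.Lib.MP_919f0c_an.LpHaar

/-! Two-smoothness of finite `ℓ_p`, `p ≥ 2`. -/

set_option autoImplicit false

open Finset Matrix

namespace Pool.Agent.Lib.MP_919f0c_an.Det

open Pool.Agent.Lib.MP_919f0c_an.Lp

lemma sm_tang {q z : ℝ} (hq : 1 ≤ q) (hz : 0 < z) : z ^ q ≤ 1 + q * z ^ (q - 1) * (z - 1) := by
  have h := one_add_mul_self_le_rpow_one_add (s := z⁻¹ - 1)
    (by have := inv_pos.2 hz; linarith) hq
  have h0 : 0 < z ^ q := Real.rpow_pos_of_pos hz q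
  rw [show 1 + (z⁻¹ - 1) = z⁻¹ by ring, Real.inv_rpow hz.le] at h
  have h1 := mul_le_mul_of_nonneg_left h h0.le
  rw [mul_inv_cancel₀ h0.ne'] at h1
  have h2 : z ^ (q - 1) = z ^ q * z⁻¹ := by rw [Real.rpow_sub_one hz.ne', div_eq_mul_inv]
  have h3 : z ^ q * z⁻¹ * z = z ^ q := by rw [mul_assoc, inv_mul_cancel₀ hz.ne', mul_one]
  rw [h2]
  have h4 : q * (z ^ q * z⁻¹) * (z - 1) = q * (z ^ q * z⁻¹ * z) - q * (z ^ q * z⁻¹) := by ring
  rw [h4, h3]
  nlinarith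

lemma sm_one {p : ℝ} (hp : 2 ≤ p) : ∃ K : ℝ, 1 ≤ K ∧ ∀ t : ℝ,
    |1 + t| ^ p ≤ 1 + p * t + K * (t ^ 2 + |t| ^ p) := by
  have h3 : (1 : ℝ) ≤ 3 ^ p := Real.one_le_rpow (by norm_num) (by linarith)
  have h2 : (1 : ℝ) ≤ 2 ^ (p - 2) := Real.one_le_rpow (by norm_num) (by linarith)
  have hb : 0 ≤ p * (p - 1) * 2 ^ (p - 2) := by
    have : 0 ≤ p - 1 := by linarith
    positivity
  refine ⟨3 ^ p + 2 * p + p * (p - 1) * 2 ^ (p - 2), by linarith, fun t => ?_⟩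
  have ht : 0 ≤ |t| ^ p := by positivity
  have ht2 : 0 ≤ t ^ 2 := by positivity
  have h3t : 0 ≤ 3 ^ p * t ^ 2 := by positivity
  have hpt : 0 ≤ p * t ^ 2 := by positivity
  have hpp : 0 ≤ p * |t| ^ p := by positivity
  have h3p : 0 ≤ 3 ^ p * |t| ^ p := by positivity
  have hbt := mul_nonneg hb ht
  have hbt2 := mul_nonneg hb ht2
  rcases le_total (1 / 2) |t| with h | h
  · have a1 : |1 + t| ≤ 3 * |t| := (abs_add_le _ _).trans (by rw [abs_one]; linarith)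
    have a2 : |1 + t| ^ p ≤ 3 ^ p * |t| ^ p := by
      rw [← Real.mul_rpow (by norm_num) (abs_nonneg _)]
      exact Real.rpow_le_rpow (abs_nonneg _) a1 (by linarith)
    have a3 : -t ≤ 2 * t ^ 2 := by
      have := neg_le_abs t
      rw [← sq_abs]
      nlinarith
    have a4 := mul_le_mul_of_nonneg_left a3 (by linarith : 0 ≤ p)
    nlinarith
  · obtain ⟨b1, b2⟩ := abs_le.1 h
    have hz : 0 < 1 + t := by linarith
    rw [abs_of_pos hz]
    have c1 := sm_tang (q := p) (by linarith) hz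
    have c2 : (1 + t) ^ (p - 1) * t ≤ t + (p - 1) * 2 ^ (p - 2) * t ^ 2 := by
      rcases le_total 0 t with h0 | h0
      · have d1 := sm_tang (q := p - 1) (by linarith) hz
        have d2 : (1 + t) ^ (p - 1 - 1) ≤ 2 ^ (p - 2) := by
          rw [show p - 1 - 1 = p - 2 by ring]
          exact Real.rpow_le_rpow hz.le (by linarith) (by linarith)
        have d3 := mul_le_mul_of_nonneg_left d2
          (mul_nonneg (by linarith : 0 ≤ p - 1) ht2)
        have d4 := mul_le_mul_of_nonneg_right d1 h0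
        nlinarith
      · have d1 := one_add_mul_self_le_rpow_one_add (s := t) (by linarith)
          (by linarith : 1 ≤ p - 1)
        have d3 := mul_le_mul_of_nonneg_left h2 (mul_nonneg (by linarith : 0 ≤ p - 1) ht2)
        have d4 := mul_le_mul_of_nonneg_right d1 (neg_nonneg.2 h0)
        nlinarith
    have c3 := mul_le_mul_of_nonneg_left c2 (by linarith : 0 ≤ p)
    nlinarith

lemma sm_pt {p : ℝ} (hp : 2 ≤ p) : ∃ K : ℝ, 1 ≤ K ∧ ∀ a b : ℝ,
    |a + b| ^ p ≤ |a| ^ p + p * (|a| ^ (p - 2) * a * b) + K * (|a| ^ (p - 2) * b ^ 2 + |b| ^ p) := by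
  obtain ⟨K, hK, h⟩ := sm_one hp
  refine ⟨K, hK, fun a b => ?_⟩
  rcases eq_or_ne a 0 with rfl | ha
  · have h1 : 0 ≤ |b| ^ p := by positivity
    have h2 : 0 ≤ |(0 : ℝ)| ^ (p - 2) * b ^ 2 := by positivity
    have h3 : 0 ≤ |(0 : ℝ)| ^ p := by positivity
    rw [zero_add]
    nlinarith
  · have h0 : 0 < |a| := abs_pos.2 ha
    have h1 := mul_le_mul_of_nonneg_left (h (b / a)) (Real.rpow_pos_of_pos h0 p).le
    have e1 : |a| ^ p * |1 + b / a| ^ p = |a + b| ^ p := by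
      rw [← Real.mul_rpow h0.le (abs_nonneg _), ← abs_mul, mul_add, mul_one, mul_div_cancel₀ _ ha]
    have e2 : |a| ^ p * |b / a| ^ p = |b| ^ p := by
      rw [← Real.mul_rpow h0.le (abs_nonneg _), ← abs_mul, mul_div_cancel₀ _ ha]
    have e3 : |a| ^ p = |a| ^ (p - 2) * a ^ 2 := by
      rw [← sq_abs a, ← Real.rpow_two, ← Real.rpow_add h0, sub_add_cancel]
    have e4 : |a| ^ p * (b / a) = |a| ^ (p - 2) * a * b := by
      rw [e3]; field_simp
    have e5 : |a| ^ p * (b / a) ^ 2 = |a| ^ (p - 2) * b ^ 2 := by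
      rw [e3]; field_simp
    rw [e1] at h1
    rw [← e2, ← e4, ← e5]
    linarith

lemma sm_max {p x y : ℝ} (hp : 2 ≤ p) (hx : 0 ≤ x) (hy : 0 ≤ y) :
    x ^ (p - 2) * y ^ 2 ≤ x ^ p + y ^ p := by
  have e (z : ℝ) (hz : 0 ≤ z) : z ^ (p - 2) * z ^ 2 = z ^ p := by
    rw [← Real.rpow_two, ← Real.rpow_add' hz (by linarith), sub_add_cancel]
  have h1 : 0 ≤ x ^ p := by positivity
  have h2 : 0 ≤ y ^ p := by positivity
  rcases le_total x y with h | h
  · have := mul_le_mul_of_nonneg_right (Real.rpow_le_rpow hx h (by linarith : 0 ≤ p - 2))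
      (sq_nonneg y)
    linarith [e y hy]
  · have := mul_le_mul_of_nonneg_left (pow_le_pow_left₀ hy h 2) (Real.rpow_nonneg hx (p - 2))
    linarith [e x hx]

lemma sm_hold {p : ℝ} (hp : 2 ≤ p) {ι : Type} [Fintype ι] (S δ : ι → ℝ) (hA : 0 < nm p S)
    (hD : 0 < nm p δ) :
    ∑ x, |S x| ^ (p - 2) * δ x ^ 2 ≤ 2 * (nm p S ^ (p - 2) * nm p δ ^ 2) := by
  have hp0 : 0 < p := by linarith
  have a1 := Real.rpow_pos_of_pos hA p
  have a2 := Real.rpow_pos_of_pos hD p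
  have a3 := Real.rpow_pos_of_pos hA (p - 2)
  have h (x : ι) : |S x| ^ (p - 2) * δ x ^ 2 ≤ nm p S ^ (p - 2) * nm p δ ^ 2 *
      (|S x| ^ p / nm p S ^ p + |δ x| ^ p / nm p δ ^ p) := by
    have := sm_max hp (div_nonneg (abs_nonneg (S x)) hA.le) (div_nonneg (abs_nonneg (δ x)) hD.le)
    rw [Real.div_rpow (abs_nonneg _) hA.le, Real.div_rpow (abs_nonneg _) hA.le,
      Real.div_rpow (abs_nonneg _) hD.le, div_pow, sq_abs, div_mul_div_comm,
      div_le_iff₀' (by positivity)] at this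
    exact this
  refine (sum_le_sum fun x _ => h x).trans (le_of_eq ?_)
  rw [← mul_sum, sum_add_distrib, ← sum_div, ← sum_div]
  change _ * (sp p S / _ + sp p δ / _) = _
  rw [← nm_pow hp0 S, ← nm_pow hp0 δ, div_self a1.ne', div_self a2.ne']
  ring

theorem smooth2 {p : ℝ} (hp : 2 ≤ p) : ∃ C : ℝ, 1 ≤ C ∧ ∀ {ι : Type} [Fintype ι] (S δ : ι → ℝ),
    ∑ x, |S x| ^ (p - 2) * S x * δ x = 0 →
      nm p (S + δ) ^ 2 ≤ nm p S ^ 2 + C * nm p δ ^ 2 := by
  obtain ⟨K, hK, h⟩ := sm_pt hp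
  have hp0 : 0 < p := by linarith
  refine ⟨(4 * K) ^ 2, by nlinarith, fun {ι} _ S δ h0 => ?_⟩
  have hB := nm_nonneg p (S + δ)
  have htri := nm_add (by linarith : 1 ≤ p) S δ
  have hK2 : 1 ≤ (4 * K) ^ 2 := by nlinarith
  rcases (nm_nonneg p S).eq_or_lt with hA | hA
  · rw [← hA] at htri ⊢
    have := pow_le_pow_left₀ hB htri 2
    nlinarith [sq_nonneg (nm p δ)]
  rcases (nm_nonneg p δ).eq_or_lt with hD | hD
  · rw [← hD] at htri ⊢
    have := pow_le_pow_left₀ hB htri 2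
    nlinarith
  have h1 : sp p (S + δ) ≤ sp p S + K * (∑ x, |S x| ^ (p - 2) * δ x ^ 2 + sp p δ) := by
    refine (sum_le_sum fun x _ => h (S x) (δ x)).trans (le_of_eq ?_)
    rw [sum_add_distrib, sum_add_distrib, ← mul_sum, ← mul_sum, h0, sum_add_distrib]
    simp [sp]
  have h2 := sm_hold hp S δ hA hD
  rw [← nm_pow hp0, ← nm_pow hp0 S, ← nm_pow hp0 δ] at h1
  generalize nm p S = A at *
  generalize nm p δ = D at *
  generalize nm p (S + δ) = B at *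
  obtain ⟨T, hT, hT2⟩ : ∃ T : ℝ, 0 < T ∧ T ^ 2 = A ^ 2 + (4 * K) ^ 2 * D ^ 2 :=
    ⟨√(A ^ 2 + (4 * K) ^ 2 * D ^ 2), Real.sqrt_pos.2 (by positivity), Real.sq_sqrt (by positivity)⟩
  have e (z : ℝ) (hz : 0 < z) : z ^ p = z ^ (p - 2) * z ^ 2 := by
    rw [← Real.rpow_two, ← Real.rpow_add hz, sub_add_cancel]
  have hAT : A ≤ T := by
    refine (pow_le_pow_iff_left₀ hA.le hT.le two_ne_zero).1 ?_
    nlinarith [sq_nonneg D]
  have hDT : D ≤ T := by
    refine (pow_le_pow_iff_left₀ hD.le hT.le two_ne_zero).1 ?_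
    nlinarith [sq_nonneg D, sq_nonneg A]
  have a1 := Real.rpow_le_rpow hA.le hAT (by linarith : 0 ≤ p - 2)
  have a2 := Real.rpow_le_rpow hD.le hDT (by linarith : 0 ≤ p - 2)
  have a3 := Real.rpow_pos_of_pos hT (p - 2)
  have hBT : B ^ p ≤ T ^ p := by
    rw [e T hT, hT2]
    rw [e A hA, e D hD] at h1
    have b1 := mul_le_mul_of_nonneg_right a1 (sq_nonneg A)
    have b2 := mul_le_mul_of_nonneg_right a1 (sq_nonneg D)
    have b3 := mul_le_mul_of_nonneg_right a2 (sq_nonneg D)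
    have b4 : ∑ x, |S x| ^ (p - 2) * δ x ^ 2 + D ^ (p - 2) * D ^ 2 ≤ 3 * (T ^ (p - 2) * D ^ 2) := by
      linarith
    have b5 := mul_le_mul_of_nonneg_left b4 (by linarith : 0 ≤ K)
    have b6 : 0 ≤ T ^ (p - 2) * D ^ 2 := by positivity
    have b7 := mul_le_mul_of_nonneg_right (show K * 3 ≤ (4 * K) ^ 2 by nlinarith) b6
    nlinarith
  rw [← hT2]
  exact pow_le_pow_left₀ hB ((Real.rpow_le_rpow_iff hB hT.le hp0).1 hBT) 2

end Pool.Agent.Lib.MP_919f0c_an.Det
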