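import Pool.Agent.Lib.MP_919f0c_an.Det.Defs
import Pool.Agent.Lib.MP_919f0c_an.Det.Smooth

/-! Martingale type for tensor Haar blocks. -/

set_option autoImplicit false

open Finset Matrix

namespace Pool.Agent.Lib.MP_919f0c_an.Det

open Pool.Agent.Lib.MP_919f0c_an.Lp

lemma mart {p C : ℝ} (hp : 2 ≤ p) (hC : 1 ≤ C) {ι : Type} [Fintype ι]
    (hs : ∀ S δ : ι → ℝ, ∑ x, |S x| ^ (p - 2) * S x * δ x = 0 →
      nm p (S + δ) ^ 2 ≤ nm p S ^ 2 + C * nm p δ ^ 2)
    (P : ℕ → Matrix ι ι ℝ) (hmul : ∀ a b, P a * P b = P (min a b)) (hsym : ∀ a, (P a)ᵀ = P a)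
    (hnm : ∀ a y, nm p (P a *ᵥ y) ≤ nm p y)
    (hfix : ∀ a S, P a *ᵥ S = S →
      (P a *ᵥ fun x => |S x| ^ (p - 2) * S x) = fun x => |S x| ^ (p - 2) * S x)
    {l h : ℕ → ℕ} (hl : ∀ a, l a ≤ h a ∧ h a ≤ l (a + 1)) (y : ℕ → ι → ℝ) (n : ℕ) :
    nm p (∑ k ∈ range n, (P (h k) - P (l k)) *ᵥ y k) ^ 2 ≤
      4 * C * ∑ k ∈ range n, nm p (y k) ^ 2 := by
  have hm : Monotone l := monotone_nat_of_le_succ fun a => (hl a).1.trans (hl a).2
  induction n with
  | zero => simp [nm_zero (show 0 < p by linarith)]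
  | succ n ih =>
    rw [sum_range_succ, sum_range_succ, mul_add]
    set S := ∑ k ∈ range n, (P (h k) - P (l k)) *ᵥ y k with hS
    have h1 : P (l n) *ᵥ S = S := by
      rw [hS, mulVec_sum]
      refine sum_congr rfl fun k hk => ?_
      have h2 : h k ≤ l n := (hl k).2.trans (hm (mem_range.1 hk))
      rw [mulVec_mulVec, Matrix.mul_sub, hmul, hmul, min_eq_right h2,
        min_eq_right ((hl k).1.trans h2)]
    have h2 := hfix _ _ h1
    set φ : ι → ℝ := fun x => |S x| ^ (p - 2) * S x with hφ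
    have h3 : P (h n) *ᵥ φ = φ := by
      conv_lhs => rw [← h2]
      rw [mulVec_mulVec, hmul, min_eq_right (hl n).1, h2]
    have h4 : φ ⬝ᵥ ((P (h n) - P (l n)) *ᵥ y n) = 0 := by
      rw [dotProduct_mulVec, ← mulVec_transpose, transpose_sub, hsym, hsym, sub_mulVec, h2, h3,
        sub_self, zero_dotProduct]
    refine (hs S _ h4).trans (add_le_add ih ?_)
    have h5 : nm p ((P (h n) - P (l n)) *ᵥ y n) ≤ 2 * nm p (y n) := by
      rw [sub_mulVec, sub_eq_add_neg]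
      refine (nm_add (by linarith) _ _).trans ?_
      rw [nm_neg]
      linarith [hnm (h n) (y n), hnm (l n) (y n)]
    have h6 := pow_le_pow_left₀ (nm_nonneg _ _) h5 2
    nlinarith [mul_le_mul_of_nonneg_left h6 (show 0 ≤ C by linarith)]

variable {d : ℕ}

/-- a matrix acting in the coordinate `j` only -/
noncomputable def Pj (W : ℕ) (j : Fin d) (A : Matrix (Fin (2 ^ W)) (Fin (2 ^ W)) ℝ) :
    Matrix (GW d W) (GW d W) ℝ :=
  tens (X := fun _ => Fin (2 ^ W)) fun i => if i = j then A else 1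

lemma Pj_apply (W : ℕ) (j : Fin d) (A : Matrix (Fin (2 ^ W)) (Fin (2 ^ W)) ℝ) (x z : GW d W) :
    Pj W j A x z = A (x j) (z j) *
      ∏ i ∈ univ.erase j, (1 : Matrix (Fin (2 ^ W)) (Fin (2 ^ W)) ℝ) (x i) (z i) := by
  simp only [Pj, tens, of_apply]
  rw [← mul_prod_erase univ _ (mem_univ j), if_pos rfl]
  congr 1
  exact prod_congr rfl fun i hi => by rw [if_neg (ne_of_mem_erase hi)]

lemma Pj_sub (W : ℕ) (j : Fin d) (A B : Matrix (Fin (2 ^ W)) (Fin (2 ^ W)) ℝ) :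
    Pj W j A - Pj W j B = Pj W j (A - B) := by
  ext x z
  simp only [Matrix.sub_apply, Pj_apply, sub_mul]

lemma Pj_fix (W : ℕ) (j : Fin d) (u : ℕ) {S : GW d W → ℝ} (h : Pj W j (fk W u) *ᵥ S = S)
    {F : ℝ → ℝ} (hF : F 0 = 0) :
    (Pj W j (fk W u) *ᵥ fun x => F (S x)) = fun x => F (S x) := by
  by_cases hu : u = 0
  · have h0 : Pj W j (fk W u) = 0 := by
      ext x z
      simp [Pj_apply, fk, hu]
    rw [h0, zero_mulVec] at h ⊢
    funext x
    simp [← h, hF]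
  rw [fk, if_neg hu] at h ⊢
  funext x
  have h1 : ∑ z, Pj W j (ek W (W + 1 - u)) x z = 1 := by
    simp only [Pj, tens, of_apply]
    rw [sum_pi_prod (X := fun _ => Fin (2 ^ W))
      fun i z => (if i = j then ek W (W + 1 - u) else 1) (x i) z]
    refine prod_eq_one fun i _ => ?_
    split_ifs
    · exact ek_row (by omega) _
    · simp [one_apply]
  rw [← one_mul (F (S x)), ← h1, sum_mul]
  refine sum_congr rfl fun z _ => ?_
  by_cases h2 : Pj W j (ek W (W + 1 - u)) x z = 0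
  · simp [h2]
  have h3 : Pj W j (ek W (W + 1 - u)) z = Pj W j (ek W (W + 1 - u)) x := by
    rw [Pj_apply] at h2
    have h4 : (z j).1 / 2 ^ (W + 1 - u) = (x j).1 / 2 ^ (W + 1 - u) := by
      by_contra h4
      exact left_ne_zero_of_mul h2 (if_neg h4)
    funext w
    rw [Pj_apply, Pj_apply]
    congr 1
    · simp only [ek, of_apply, h4]
    · refine prod_congr rfl fun i hi => ?_
      rw [show x i = z i from by_contra fun h5 =>
        prod_ne_zero_iff.1 (right_ne_zero_of_mul h2) i hi (one_apply_ne h5)]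
  have h4 : S z = S x := by
    rw [← h]
    simp only [mulVec, h3]
  simp only [h4]

lemma type_two {p : ℝ} (hp : 2 ≤ p) : ∃ K : ℝ, 1 ≤ K ∧
    ∀ (W : ℕ) (l h : Fin d → ℕ → ℕ), (∀ j a, l j a ≤ h j a ∧ h j a ≤ l j (a + 1)) →
      ∀ (x : (Fin d → ℕ) → GW d W → ℝ) (J : Finset (Fin d)) (𝒜 : Finset (Fin d → ℕ)),
      (∀ a ∈ 𝒜, ∀ b ∈ 𝒜, (∀ j ∈ J, a j = b j) → a = b) →
        nm p (∑ a ∈ 𝒜, tens (X := fun _ => Fin (2 ^ W))
          (fun j => if j ∈ J then fk W (h j (a j)) - fk W (l j (a j)) else 1) *ᵥ x a) ^ 2 ≤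
          K ^ #J * ∑ a ∈ 𝒜, nm p (x a) ^ 2 := by
  obtain ⟨C, hC, hs⟩ := smooth2 hp
  refine ⟨4 * C, by linarith, fun W l h hl x J => ?_⟩
  induction J using Finset.induction_on with
  | empty =>
    intro 𝒜 h𝒜
    rcases 𝒜.eq_empty_or_nonempty with rfl | ⟨a, ha⟩
    · simp [nm_zero (show 0 < p by linarith)]
    rw [eq_singleton_iff_unique_mem.2 ⟨ha, fun b hb => h𝒜 b hb a ha (by simp)⟩]
    simp [tens_one]
  | insert j J hj ih =>
    intro 𝒜 h𝒜
    have hN : ∀ a ∈ 𝒜, a j ∈ range (𝒜.sup (fun a => a j) + 1) := fun a ha =>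
      mem_range.2 (Nat.lt_succ_of_le (le_sup (f := fun a => a j) ha))
    have h1 := mart hp hC hs (fun u => Pj W j (fk W u))
      (fun a b => by
        rw [Pj, Pj, Pj, tens_mul]
        congr 1; funext i
        split_ifs
        · exact fk_mul W a b
        · exact Matrix.one_mul _)
      (fun a => by
        ext x z
        simp only [transpose_apply, Pj_apply, fk_symm W a (x j), one_apply, eq_comm])
      (fun a y => by
        have := nm_tens (X := fun _ => Fin (2 ^ W)) (p := p) (by linarith) zero_le_one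
          (A := fun i => if i = j then fk W a else 1) (fun i x z => by
            split_ifs
            · exact fk_symm W a x z
            · simp [one_apply, eq_comm]) (fun i x => by
            split_ifs
            · exact fk_row W a x
            · simp [one_apply, apply_ite abs]) y
        rwa [one_pow, one_mul] at this)
      (fun a S hS => Pj_fix W j a hS (F := fun t => |t| ^ (p - 2) * t) (mul_zero _)) (hl j)
      (fun k => ∑ a ∈ 𝒜 with a j = k, tens (X := fun _ => Fin (2 ^ W))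
        (fun j => if j ∈ J then fk W (h j (a j)) - fk W (l j (a j)) else 1) *ᵥ x a)
      (𝒜.sup (fun a => a j) + 1)
    rw [← sum_fiberwise_of_maps_to hN, ← sum_fiberwise_of_maps_to hN, card_insert_of_notMem hj,
      pow_succ' (4 * C), mul_assoc (4 * C), mul_sum _ _ ((4 * C) ^ #J)]
    refine (le_of_eq ?_).trans (h1.trans (mul_le_mul_of_nonneg_left (sum_le_sum fun k _ =>
      ih _ fun a ha b hb hab => h𝒜 a (mem_filter.1 ha).1 b (mem_filter.1 hb).1 fun i hi => ?_)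
      (by linarith)))
    · congr 2
      refine sum_congr rfl fun k _ => ?_
      rw [mulVec_sum]
      refine sum_congr rfl fun a ha => ?_
      rw [mulVec_mulVec, Pj_sub, Pj, tens_mul, ← (mem_filter.1 ha).2]
      congr 2; funext i
      by_cases hi : i = j
      · simp [hi, hj]
      · simp [hi]
    · rcases mem_insert.1 hi with rfl | hi
      · exact (mem_filter.1 ha).2.trans (mem_filter.1 hb).2.symm
      · exact hab i hi

theorem type_tens (d : ℕ) {p τ : ℝ} (hp : 2 ≤ p) (h1 : 1 ≤ τ) (h2 : τ ≤ 2) : ∃ C : ℝ, 0 < C ∧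
    ∀ (W : ℕ) (J : Finset (Fin d)) (l h : Fin d → ℕ → ℕ),
      (∀ j a, l j a ≤ h j a ∧ h j a ≤ l j (a + 1)) → ∀ 𝒜 : Finset (Fin d → ℕ),
      (∀ a ∈ 𝒜, ∀ b ∈ 𝒜, (∀ j ∈ J, a j = b j) → a = b) → ∀ x : (Fin d → ℕ) → GW d W → ℝ,
        nm p (∑ a ∈ 𝒜, tens (X := fun _ => Fin (2 ^ W))
          (fun j => if j ∈ J then fk W (h j (a j)) - fk W (l j (a j)) else 1) *ᵥ x a) ≤
          C * (∑ a ∈ 𝒜, nm p (x a) ^ τ) ^ (1 / τ) := by
  obtain ⟨K, hK, H⟩ := type_two (d := d) hp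
  refine ⟨K ^ d, by positivity, fun W J l h hl 𝒜 h𝒜 x => ?_⟩
  have hτ : 0 < τ := by linarith
  have hn : ∀ c, 0 ≤ nm p (x c) ^ τ := fun c => Real.rpow_nonneg (nm_nonneg _ _) _
  set σ := (∑ c ∈ 𝒜, nm p (x c) ^ τ) ^ (1 / τ) with hσ
  have hστ : σ ^ τ = ∑ c ∈ 𝒜, nm p (x c) ^ τ := by
    rw [hσ, one_div, Real.rpow_inv_rpow (sum_nonneg fun c _ => hn c) hτ.ne']
  have hσ0 : 0 ≤ σ := Real.rpow_nonneg (sum_nonneg fun c _ => hn c) _
  have h3 : ∀ t : ℝ, 0 ≤ t → t ^ 2 = t ^ τ * t ^ (2 - τ) := fun t ht => by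
    rw [← Real.rpow_add' ht (by norm_num), add_sub_cancel, Real.rpow_two]
  have h4 : ∑ a ∈ 𝒜, nm p (x a) ^ 2 ≤ σ ^ 2 := by
    rw [h3 σ hσ0, hστ, sum_mul]
    refine sum_le_sum fun a ha => ?_
    rw [h3 _ (nm_nonneg _ _)]
    refine mul_le_mul_of_nonneg_left (Real.rpow_le_rpow (nm_nonneg _ _) ?_ (by linarith)) (hn a)
    rw [← Real.rpow_le_rpow_iff (nm_nonneg _ _) hσ0 hτ, hστ]
    exact single_le_sum (f := fun c => nm p (x c) ^ τ) (fun c _ => hn c) ha
  refine (pow_le_pow_iff_left₀ (nm_nonneg _ _) (by positivity) two_ne_zero).1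
    ((H W l h hl x J 𝒜 h𝒜).trans ?_)
  rw [mul_pow, ← pow_mul]
  refine mul_le_mul (pow_le_pow_right₀ hK ?_) h4 (sum_nonneg fun _ _ => sq_nonneg _)
    (by positivity)
  have := card_le_univ J
  rw [Fintype.card_fin] at this
  omega

end Pool.Agent.Lib.MP_919f0c_an.Det
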