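import Pool.Agent.Lib.MP_919f0c_an.Det.Sums
import Pool.Agent.Lib.MP_919f0c_an.Det.Type2
import Pool.Agent.Lib.MP_919f0c_an.Det.NetErr

/-! The error of one type. -/

set_option autoImplicit false

open Finset Matrix

namespace Pool.Agent.Lib.MP_919f0c_an.Det

open Pool.Agent.Lib.MP_919f0c_an.Lp

lemma typeErr_split {d : ℕ} (W : ℕ) (i : Fin d) (e a : Fin d → ℕ) :
    Dm W (lw i e a) (hi e a) = tens (X := fun _ => Fin (2 ^ W))
      (fun j => if j ∈ univ.erase i then fk W (Function.update a i 0 j * 2 ^ e j) -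
        fk W (Function.update a i 0 j / 2 * 2 ^ (e j + 1)) else 1) *
      tens (X := fun _ => Fin (2 ^ W)) fun j => if j = i then fk W (hi e a i) else 1 := by
  rw [tens_mul, Dm]
  congr 1; funext j
  by_cases hj : j = i
  · subst hj; simp [lw, fk]
  · simp [lw, hi, hj]

lemma typeErr_one {d : ℕ} {p : ℝ} (hp : 1 ≤ p) (W u : ℕ) (i : Fin d) (y : GW d W → ℝ) :
    nm p (tens (X := fun _ => Fin (2 ^ W)) (fun j => if j = i then fk W u else 1) *ᵥ y) ≤
      nm p y := by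
  have := nm_tens (X := fun _ : Fin d => Fin (2 ^ W)) hp zero_le_one
    (A := fun j => if j = i then fk W u else 1) (fun j x z => by
      split_ifs
      · exact fk_symm W u x z
      · simp [one_apply, eq_comm]) (fun j x => by
      split_ifs
      · exact fk_row W u x
      · simp [one_apply, apply_ite abs]) y
  rwa [one_pow, one_mul] at this

lemma typeErr_piece {d : ℕ} {p : ℝ} (hp : 1 ≤ p) {W n N : ℕ} (i : Fin d) (e : Fin d → ℕ)
    {w : GW d W → ℝ} (hw : Net N w) {s : Fin d → ℕ} (hs : s ∈ Sh d W) {h : GW d W → ℝ}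
    (hh : h.FactorsThrough (bx fun j => W - s j)) (h0 : ∑ j, s j ≤ n → h = 0) :
    ∃ x : GW d W → ℝ, Dm W (lw i e (lb e s)) (hi e (lb e s)) *ᵥ
        (fun z => ((if lb e s ∈ Act W n N e then w z else 0) - 1) * h z) =
      tens (X := fun _ => Fin (2 ^ W))
        (fun j => if j ∈ univ.erase i then fk W (Function.update (lb e s) i 0 j * 2 ^ e j) -
          fk W (Function.update (lb e s) i 0 j / 2 * 2 ^ (e j + 1)) else 1) *ᵥ x ∧
      nm p x ≤ if N < ∑ j, s j then 2 * (2 ^ (1 / p)) ^ (∑ j, s j - N) * nm p h else 0 := by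
  have hp0 : 0 < p := by linarith
  have hb : (0 : ℝ) ≤
      if N < ∑ j, s j then 2 * (2 ^ (1 / p)) ^ (∑ j, s j - N) * nm p h else 0 := by
    have := nm_nonneg p h
    split_ifs <;> positivity
  by_cases hz : ∃ j, lb e s j = 0
  · obtain ⟨j, hj⟩ := hz
    exact ⟨0, by rw [Dm_lab_zero W i e hj, zero_mulVec, mulVec_zero], by rwa [nm_zero hp0]⟩
  have hz' : ∀ j, lb e s j ≠ 0 := fun j hj => hz ⟨j, hj⟩
  obtain ⟨v, hv, hD⟩ := Dm_lab W i e hz'
  refine ⟨tens (X := fun _ => Fin (2 ^ W)) (fun j => if j = i then fk W (hi e (lb e s) i) else 1) *ᵥ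
    (Em W v *ᵥ fun z => ((if lb e s ∈ Act W n N e then w z else 0) - 1) * h z), ?_,
    (typeErr_one hp W _ i _).trans ?_⟩
  · rw [mulVec_mulVec, ← typeErr_split, mulVec_mulVec, hD]
  by_cases ha : lb e s ∈ Act W n N e
  · simp only [ha, if_true]
    obtain ⟨t, ht, hts⟩ := mem_image.1 ha
    exact net_err hp hw (hv s rfl) (mem_Sh.1 hs)
      ((sum_le_sum fun j _ => hv t hts j).trans (mem_filter.1 ht).2.2.1) hh
  simp only [ha, if_false]
  by_cases hn : ∑ j, s j ≤ n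
  · rw [show (fun z => ((0 : ℝ) - 1) * h z) = 0 by funext z; simp [h0 hn], mulVec_zero,
      nm_zero hp0]
    exact hb
  have hN : N < ∑ j, s j := by
    by_contra hc
    exact ha (mem_image.2 ⟨s, mem_filter.2 ⟨hs, not_le.1 hn, not_lt.1 hc, hz'⟩, rfl⟩)
  rw [if_pos hN]
  have h1 : nm p (Em W v *ᵥ fun z => ((0 : ℝ) - 1) * h z) ≤ 1 * nm p fun z => ((0 : ℝ) - 1) * h z :=
    nm_le_mul hp0 zero_le_one (by rw [Real.one_rpow]; exact OB_Em hp W v _)
  have h2 : (nm p fun z => ((0 : ℝ) - 1) * h z) ≤ nm p h := nm_mono hp0.le fun z => by simp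
  have h3 : (1 : ℝ) ≤ (2 ^ (1 / p)) ^ (∑ j, s j - N) :=
    one_le_pow₀ (Real.one_le_rpow one_le_two (by positivity))
  have h4 := nm_nonneg p h
  rw [one_mul] at h1
  refine h1.trans (h2.trans ?_)
  rw [mul_assoc]
  linarith [le_mul_of_one_le_left h4 h3]

theorem type_err (d : ℕ) {p τ ν : ℝ} (hp : 2 ≤ p) (h1 : 1 ≤ τ) (h2 : τ ≤ 2) (hν0 : 0 < ν)
    (hν1 : ν < 1) : ∃ C : ℝ, 0 < C ∧ ∀ (W n N : ℕ), n ≤ N → ∀ (i : Fin d) (κ : Fin d → ℕ),
      κ i = 0 → ∀ w : GW d W → ℝ, Net N w → ∀ h : (Fin d → ℕ) → GW d W → ℝ,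
      (∀ s, (h s).FactorsThrough (bx fun j => W - s j)) → (∀ s, ∑ j, s j ≤ n → h s = 0) →
      nm p (∑ s ∈ Sh d W, Dm W (lw i (sc i κ) (lb (sc i κ) s)) (hi (sc i κ) (lb (sc i κ) s)) *ᵥ
        fun z => ((if lb (sc i κ) s ∈ Act W n N (sc i κ) then w z else 0) - 1) * h s z) ≤
        C * ((2 : ℝ) ^ ∑ j, κ j) ^ (1 - 1 / τ) * (∑ s ∈ Sh d W with N < ∑ j, s j,
          ((2 ^ (1 / p) / ν) ^ (∑ j, s j - N) * nm p (h s)) ^ τ) ^ (1 / τ) := by
  classical
  obtain ⟨C, hC, H⟩ := type_tens d hp h1 h2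
  have hν2 : 0 < (1 - ν)⁻¹ := inv_pos.2 (sub_pos.2 hν1)
  have hp1 : 1 ≤ p := by linarith
  have hτ0 : 0 < τ := by linarith
  refine ⟨C * (2 * ((1 - ν)⁻¹) ^ (1 - 1 / τ)), by positivity,
    fun W n N _ i κ hκ w hw h hh h0 => ?_⟩
  set e := sc i κ with he
  choose! x hx1 hx2 using fun s (hs : s ∈ Sh d W) =>
    typeErr_piece hp1 (n := n) i e hw hs (hh s) (h0 s)
  let π : (Fin d → ℕ) → Fin d → ℕ := fun s => Function.update (lb e s) i 0
  let T : (Fin d → ℕ) → Matrix (GW d W) (GW d W) ℝ := fun c => tens (X := fun _ => Fin (2 ^ W))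
    fun j => if j ∈ univ.erase i then fk W (c j * 2 ^ e j) - fk W (c j / 2 * 2 ^ (e j + 1)) else 1
  have e1 : ∑ s ∈ Sh d W, T (π s) *ᵥ x s =
      ∑ c ∈ (Sh d W).image π, T c *ᵥ ∑ s ∈ Sh d W with π s = c, x s := by
    rw [← sum_fiberwise_of_maps_to fun s hs => mem_image_of_mem π hs]
    refine sum_congr rfl fun c _ => ?_
    rw [mulVec_sum]
    exact sum_congr rfl fun s hs => by rw [(mem_filter.1 hs).2]
  rw [sum_congr rfl hx1]
  refine (le_of_eq (congrArg (nm p) e1)).trans ((H W (univ.erase i)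
    (fun j a => a / 2 * 2 ^ (e j + 1)) (fun j a => a * 2 ^ e j) (fun j a => ?_) _
    (fun a ha b hb hab => ?_) _).trans ?_)
  · simp only [pow_succ', ← mul_assoc]
    exact ⟨Nat.mul_le_mul_right _ (by omega), Nat.mul_le_mul_right _ (by omega)⟩
  · obtain ⟨s, -, rfl⟩ := mem_image.1 ha
    obtain ⟨t, -, rfl⟩ := mem_image.1 hb
    funext j
    by_cases hj : j = i
    · simp [π, hj]
    · exact hab j (mem_erase.2 ⟨hj, mem_univ j⟩)
  have e2 : ∑ j ∈ univ.erase i, e j = ∑ j, κ j := by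
    rw [← add_sum_erase univ κ (mem_univ i), hκ, zero_add]
    exact sum_congr rfl fun j hj => Function.update_of_ne (mem_erase.1 hj).1 _ _
  set R : ℝ := 2 ^ (∑ j, κ j) * (1 - ν)⁻¹ with hR
  have hR0 : 0 < R := by positivity
  have key := schur_w ((Sh d W).image π) ((Sh d W).filter fun s => N < ∑ j, s j) h1
    (A := 2) (B := R ^ (τ - 1)) zero_le_two (by positivity)
    (w := fun c s => if π s = c ∧ N < ∑ j, s j then ν ^ (∑ j, s j - N) else 0) (R := fun _ => R)
    (x := fun c => nm p (∑ s ∈ Sh d W with π s = c, x s))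
    (y := fun s => (2 ^ (1 / p) / ν) ^ (∑ j, s j - N) * nm p (h s))
    (fun _ _ => by split_ifs <;> positivity)
    (fun s => mul_nonneg (by positivity) (nm_nonneg _ _)) (fun _ => nm_nonneg _ _)
    (fun c _ => by
      refine (nm_sum hp1 _ _).trans ((sum_le_sum fun s hs => hx2 s (mem_filter.1 hs).1).trans
        (le_of_eq ?_))
      rw [mul_sum, sum_filter, sum_filter]
      refine sum_congr rfl fun s _ => ?_
      by_cases a1 : π s = c <;> by_cases a2 : N < ∑ j, s j <;> simp only [a1, a2, if_true,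
        if_false, and_self, false_and, zero_mul, mul_zero, div_pow]
      field_simp)
    (fun c _ => by rw [hR, ← e2]; exact fiber_sum hν0.le hν1 i e c N _)
    (fun s _ => by
      rw [← mul_sum]
      refine mul_le_of_le_one_right (by positivity) ?_
      refine (sum_le_sum (g := fun c => if π s = c then (1 : ℝ) else 0) fun c _ => ?_).trans ?_
      · by_cases a1 : π s = c <;> by_cases a2 : N < ∑ j, s j <;>
          simp [a1, a2, pow_le_one₀ hν0.le hν1.le]
      · rw [sum_ite_eq]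
        split_ifs <;> norm_num)
  refine (mul_le_mul_of_nonneg_left key hC.le).trans (le_of_eq ?_)
  rw [← Real.rpow_mul hR0.le, show (τ - 1) * (1 / τ) = 1 - 1 / τ by field_simp, hR,
    Real.mul_rpow (by positivity) hν2.le]
  ring

end Pool.Agent.Lib.MP_919f0c_an.Det
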