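import Pool.Agent.Lib.MP_919f0c_an.Det.Defs

/-! The Whitney splitting of the pairs of shapes. -/

set_option autoImplicit false

open Finset Matrix

namespace Pool.Agent.Lib.MP_919f0c_an.Det

open Pool.Agent.Lib.MP_919f0c_an.Lp

/-- the cut points of the levels -/
def wfl (s k : ℕ) : ℕ := (s + 1) / 2 ^ k * 2 ^ k

/-- the pieces between two cut points -/
noncomputable def wB (W s k : ℕ) : Matrix (Fin (2 ^ W)) (Fin (2 ^ W)) ℝ :=
  fk W (wfl s k) - fk W (wfl s (k + 1))

lemma sum_wB {W K s a : ℕ} (hK : W + 1 < 2 ^ K) (hs : s ≤ W) (ha : a ≤ K) :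
    ∑ k ∈ Ico a K, wB W s k = fk W (wfl s a) := by
  have h0 : wfl s K = 0 := by
    unfold wfl
    rw [Nat.div_eq_of_lt (by omega), zero_mul]
  have h1 := sum_Ico_sub (fun k => -fk W (wfl s k)) ha
  have h2 : fk W (wfl s K) = 0 := by rw [h0]; simp [fk]
  rw [h2, neg_zero, zero_sub, neg_neg] at h1
  rw [← h1]
  exact sum_congr rfl fun k _ => by rw [wB]; abel

lemma thr_le_iff {d : ℕ} {i : Fin d} {t : Fin d → ℕ} {c : ℕ} :
    thr i (Function.update t i 0) ≤ c ↔ ∀ j, j ≠ i → t j + (if j < i then 1 else 0) ≤ c := by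
  unfold thr
  rw [Finset.sup_le_iff]
  refine ⟨fun h j hj => ?_, fun h j _ => ?_⟩
  · have := h j (mem_univ j)
    rwa [Function.update_of_ne hj] at this
  · by_cases hj : j = i
    · subst hj
      simp
    · rw [Function.update_of_ne hj]
      exact h j hj

lemma exists_first_max {d : ℕ} (t : Fin (d + 1) → ℕ) :
    ∃ i, ∀ i', thr i' (Function.update t i' 0) ≤ t i' ↔ i' = i := by
  obtain ⟨m, -, hm⟩ := exists_max_image univ t univ_nonempty
  obtain ⟨i, hi, hmin⟩ := exists_min_image (univ.filter fun j => t j = t m) id ⟨m, by simp⟩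
  have hi' : t i = t m := (mem_filter.mp hi).2
  have key : ∀ j, j ≠ i → t j + (if j < i then 1 else 0) ≤ t i := fun j _ => by
    have h1 := hm j (mem_univ j)
    split_ifs with hj
    · have h2 : t j ≠ t m := fun h => absurd (hmin j (by simp [h])) (not_le.mpr hj)
      omega
    · omega
  refine ⟨i, fun i' => ⟨fun h => ?_, fun h => ?_⟩⟩
  · by_contra hne
    have h1 := thr_le_iff.mp h i (Ne.symm hne)
    have h2 := key i' hne
    rcases lt_or_gt_of_ne hne with h3 | h3
    · rw [if_pos h3] at h2
      omega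
    · rw [if_pos h3] at h1
      omega
  · subst h
    exact thr_le_iff.mpr key

theorem whitney {d W K : ℕ} (hK : W + 1 < 2 ^ K) {s : Fin (d + 1) → ℕ} (hs : ∀ i, s i ≤ W) :
    ∑ i, ∑ κ ∈ Ty (d + 1) K i,
      Dm W (lw i (sc i κ) (lb (sc i κ) s)) (hi (sc i κ) (lb (sc i κ) s)) = Em W s := by
  have hE : Em W s = ∑ t ∈ Fintype.piFinset fun _ : Fin (d + 1) => range K,
      tens fun j => wB W (s j) (t j) := by
    rw [← tens_sum _ fun j k => wB W (s j) k, Em]
    congr 1
    funext j
    have := hs j
    rw [range_eq_Ico, sum_wB hK (hs j) (Nat.zero_le _), fk, if_neg (by simp [wfl])]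
    congr 1
    simp [wfl]
  have hD : ∀ i, ∀ κ ∈ Ty (d + 1) K i,
      Dm W (lw i (sc i κ) (lb (sc i κ) s)) (hi (sc i κ) (lb (sc i κ) s)) =
      ∑ t ∈ Fintype.piFinset fun j => if j = i then Ico (thr i κ) K else {κ j},
        tens fun j => wB W (s j) (t j) := fun i κ hκ => by
    obtain ⟨h0, h1⟩ := mem_Ty.mp hκ
    have h2 : thr i κ ≤ K := by
      rw [← Function.update_eq_self i κ, h0]
      refine thr_le_iff.mpr fun j hj => ?_
      have := h1 j hj
      split_ifs <;> omega
    rw [← tens_sum _ fun j k => wB W (s j) k, Dm]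
    congr 1
    funext j
    by_cases hj : j = i
    · subst hj
      rw [if_pos rfl, sum_wB hK (hs j) h2]
      simp [lw, hi, lb, sc, wfl, fk]
    · rw [if_neg hj, sum_singleton]
      simp only [lw, hi, lb, sc, wfl, wB, if_neg hj, Function.update_of_ne hj,
        Nat.div_div_eq_div_mul, pow_succ]
  rw [hE, sum_congr rfl fun i _ => sum_congr rfl (hD i)]
  have hF : ∀ i, ∑ κ ∈ Ty (d + 1) K i,
      ∑ t ∈ Fintype.piFinset fun j => if j = i then Ico (thr i κ) K else {κ j},
        (tens fun j => wB W (s j) (t j)) =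
      ∑ t ∈ (Fintype.piFinset fun _ : Fin (d + 1) => range K).filter
        fun t => thr i (Function.update t i 0) ≤ t i, tens fun j => wB W (s j) (t j) := fun i => by
    refine Eq.trans ?_ (sum_fiberwise_of_maps_to (t := Ty (d + 1) K i)
      (g := fun t => Function.update t i 0) ?_ _)
    · refine sum_congr rfl fun κ hκ => sum_congr ?_ fun _ _ => rfl
      obtain ⟨h0, h1⟩ := mem_Ty.mp hκ
      ext t
      simp only [mem_filter, Fintype.mem_piFinset, mem_range]
      constructor
      · intro h
        have e : Function.update t i 0 = κ := funext fun j => by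
          by_cases hj : j = i
          · subst hj
            rw [Function.update_self, h0]
          · have := h j
            rw [if_neg hj, mem_singleton] at this
            rw [Function.update_of_ne hj, this]
        have hi := h i
        rw [if_pos rfl, mem_Ico] at hi
        refine ⟨⟨fun j => ?_, e ▸ hi.1⟩, e⟩
        by_cases hj : j = i
        · exact hj ▸ hi.2
        · have := h j
          rw [if_neg hj, mem_singleton] at this
          exact this ▸ h1 j hj
      · rintro ⟨⟨h2, h3⟩, e⟩ j
        split_ifs with hj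
        · subst hj
          exact mem_Ico.mpr ⟨e ▸ h3, h2 j⟩
        · rw [mem_singleton, ← e, Function.update_of_ne hj]
    · intro t ht
      refine mem_Ty.mpr ⟨Function.update_self _ _ _, fun j hj => ?_⟩
      rw [Function.update_of_ne hj]
      exact mem_range.mp (Fintype.mem_piFinset.mp (mem_filter.mp ht).1 j)
  rw [sum_congr rfl fun i _ => hF i]
  simp only [sum_filter]
  rw [sum_comm]
  refine sum_congr rfl fun t _ => ?_
  obtain ⟨i, hi⟩ := exists_first_max t
  simp only [hi, sum_ite_eq', mem_univ, if_true]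

end Pool.Agent.Lib.MP_919f0c_an.Det
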