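import Pool.Agent.Lib.MP_919f0c_an.Det.Count
import Pool.Agent.Lib.MP_919f0c_an.Det.Net
import Pool.Agent.Lib.MP_919f0c_an.Det.Round
import Pool.Agent.Lib.MP_919f0c_an.Det.Whitney
import Pool.Agent.Lib.MP_919f0c_an.Det.TypeErr

/-! The discrete recovery theorem. -/

set_option autoImplicit false

open Finset Matrix

namespace Pool.Agent.Lib.MP_919f0c_an.Det

open Pool.Agent.Lib.MP_919f0c_an.Lp

lemma sum_Ty {d K : ℕ} (i : Fin (d + 1)) {φ : ℕ → ℝ} {B : ℝ} (h0 : ∀ k, 0 ≤ φ k) (h1 : φ 0 = 1)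
    (h : ∑ k ∈ range K, φ k ≤ B) : ∑ κ ∈ Ty (d + 1) K i, ∏ j, φ (κ j) ≤ B ^ d := by
  rw [Ty, ← prod_univ_sum, Fin.prod_univ_succAbove _ i, if_pos rfl, sum_singleton, h1, one_mul]
  simp only [Fin.succAbove_ne, if_false, prod_const, card_univ, Fintype.card_fin]
  exact pow_le_pow_left₀ (sum_nonneg fun k _ => h0 k) h _

lemma Act_spec {d W n N : ℕ} {e a : Fin d → ℕ} (h : a ∈ Act W n N e) :
    ∃ s ∈ Sh d W, lb e s = a ∧ ∑ j, s j ≤ N ∧ ∀ j, a j ≠ 0 := by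
  obtain ⟨s, hs, rfl⟩ := mem_image.1 h
  obtain ⟨h1, -, h2, h3⟩ := mem_filter.1 hs
  exact ⟨s, h1, rfl, h2, h3⟩

lemma nm_cell {d W n N : ℕ} {p ε : ℝ} (hp : 1 ≤ p) (hε : 0 ≤ ε) (i : Fin d) {e a : Fin d → ℕ}
    (h : a ∈ Act W n N e) {w : GW d W → ℝ} (hw : Net N w) {u : GW d W → ℝ} (hu : ∀ x, |u x| ≤ ε) :
    nm p ((Dm W (lw i e a) (hi e a) * diagonal w *
      ∑ s ∈ Sh d W with lb e s = a, Rm W s (s + 1)) *ᵥ u) ≤
      2 ^ d * (2 ^ d * ε * nm p (1 : GW d W → ℝ)) := by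
  obtain ⟨s, hs, rfl, h2, h3⟩ := Act_spec h
  obtain ⟨v, hv, hD⟩ := Dm_lab W i e h3
  obtain ⟨α, β, hR⟩ := Rm_cell e hs
  have hvs := hv s rfl
  have hE := hw.2 v (fun j => (hvs j).trans (mem_Sh.1 hs j))
    ((sum_le_sum fun j _ => hvs j).trans h2)
  rw [hR, ← hD, ← mulVec_mulVec, ← mulVec_mulVec, ← mulVec_mulVec]
  refine (nm_Dm hp _ _ _ _).trans (mul_le_mul_of_nonneg_left
    (nm_smul_le (by linarith) (by positivity) fun x => ?_) (by positivity))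
  have h4 : ∀ z, |(Rm W α β *ᵥ u) z| ≤ 2 ^ d * ε := fun z =>
    (abs_sum_le_sum_abs _ _).trans ((sum_le_sum fun y _ => (abs_mul _ _).trans_le
      (mul_le_mul_of_nonneg_left (hu y) (abs_nonneg _))).trans ((sum_mul _ _ _).ge.trans
        (mul_le_mul_of_nonneg_right (Rm_row W α β z) hε)))
  refine (abs_sum_le_sum_abs _ _).trans ((sum_le_sum
    (g := fun z => Em W v x z * w z * (2 ^ d * ε)) fun z _ => ?_).trans ?_)
  · rw [mulVec_diagonal, ← mul_assoc, abs_mul,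
      abs_of_nonneg (mul_nonneg (Em_nonneg _ _ _ _) (hw.1 z))]
    exact mul_le_mul_of_nonneg_left (h4 z) (mul_nonneg (Em_nonneg _ _ _ _) (hw.1 z))
  · rw [← sum_mul, show ∑ z, Em W v x z * w z = 1 from congrFun hE x]
    simp

lemma est_id {d W K n : ℕ} (hK : W + 1 < 2 ^ K) (N : (Fin (d + 1) → ℕ) → ℕ)
    (w : ℕ → GW (d + 1) W → ℝ) (G : GW (d + 1) W → ℝ) :
    G - (∑ i, ∑ κ ∈ Ty (d + 1) K i, ∑ a ∈ Act W n (N κ) (sc i κ),
      Dm W (lw i (sc i κ) a) (hi (sc i κ) a) * diagonal (w (N κ)) *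
        ∑ s ∈ Sh (d + 1) W with lb (sc i κ) s = a, Rm W s (s + 1)) *ᵥ G =
    -∑ i, ∑ κ ∈ Ty (d + 1) K i, ∑ s ∈ Sh (d + 1) W,
      Dm W (lw i (sc i κ) (lb (sc i κ) s)) (hi (sc i κ) (lb (sc i κ) s)) *ᵥ fun z =>
        ((if lb (sc i κ) s ∈ Act W n (N κ) (sc i κ) then w (N κ) z else 0) - 1) *
          (Rm W s (s + 1) *ᵥ G) z := by
  have e1 : G = ∑ i, ∑ κ ∈ Ty (d + 1) K i, ∑ s ∈ Sh (d + 1) W,
      Dm W (lw i (sc i κ) (lb (sc i κ) s)) (hi (sc i κ) (lb (sc i κ) s)) *ᵥ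
        (Rm W s (s + 1) *ᵥ G) := by
    conv_lhs => rw [← one_mulVec G, ← sum_Sh W, sum_mulVec]
    simp only [sum_comm (t := Sh (d + 1) W)]
    refine sum_congr rfl fun s hs => ?_
    simp only [← sum_mulVec]
    rw [whitney hK (mem_Sh.1 hs), Em_self (Rm_fac W s G)]
  conv_lhs => enter [1]; rw [e1]
  simp only [sum_mulVec, ← sum_sub_distrib, ← sum_neg_distrib]
  refine sum_congr rfl fun i _ => sum_congr rfl fun κ _ => ?_
  have e2 : ∑ a ∈ Act W n (N κ) (sc i κ), (Dm W (lw i (sc i κ) a) (hi (sc i κ) a) *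
      diagonal (w (N κ)) * ∑ s ∈ Sh (d + 1) W with lb (sc i κ) s = a, Rm W s (s + 1)) *ᵥ G =
      ∑ s ∈ Sh (d + 1) W, if lb (sc i κ) s ∈ Act W n (N κ) (sc i κ) then
        Dm W (lw i (sc i κ) (lb (sc i κ) s)) (hi (sc i κ) (lb (sc i κ) s)) *ᵥ
          (diagonal (w (N κ)) *ᵥ (Rm W s (s + 1) *ᵥ G)) else 0 := by
    rw [← sum_filter, ← sum_fiberwise_of_maps_to (g := lb (sc i κ))
      (t := Act W n (N κ) (sc i κ)) fun s hs => (mem_filter.1 hs).2]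
    refine sum_congr rfl fun a ha => ?_
    rw [mul_sum, sum_mulVec, filter_filter]
    refine sum_congr (filter_congr fun s _ => ⟨fun h => ⟨h ▸ ha, h⟩, fun h => h.2⟩) fun s hs => ?_
    rw [(mem_filter.1 hs).2.2, mulVec_mulVec, mulVec_mulVec]
  rw [e2, ← sum_sub_distrib]
  refine sum_congr rfl fun s _ => ?_
  split_ifs
  · rw [← mulVec_sub, ← mulVec_neg]
    congr 1; funext z
    simp only [Pi.sub_apply, Pi.neg_apply, mulVec_diagonal]; ring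
  · rw [sub_zero, ← mulVec_neg]
    congr 1; funext z
    simp

theorem cells2 (d c : ℕ) {p τ q ν g Λ : ℝ} (hp : 2 ≤ p) (h1 : 1 ≤ τ) (h2 : τ ≤ 2) (hq : 1 / 2 < q)
    (hν0 : 0 < ν) (hν1 : ν < 1) (hqν : 2 ^ (1 / p) * q ≤ ν ^ 2) (hg : 0 ≤ g) (hΛ : 1 ≤ Λ)
    {ι : Type} [Fintype ι] {χ : ι → Fin (d + 1) → ℝ → ℝ} (hχ : ∀ a i, Prof Λ (χ a i)) :
    ∃ C : ℝ, 0 < C ∧ ∀ n W K : ℕ, W + 1 < 2 ^ K → K ≤ c * (n + 1) → ∀ (J : ℕ → ℕ) (B₁ B₂ : ℝ),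
      (∀ k, J k ≤ k) → ∑ k ∈ range K, (2 : ℝ) ^ J k / 2 ^ k ≤ B₁ →
      ∑ k ∈ range K, ((2 : ℝ) ^ k) ^ (1 - 1 / τ) * q ^ J k ≤ B₂ →
      ∃ (M : Matrix (GW (d + 1) W) (GW (d + 1) W) ℝ) (Z : Finset (GW (d + 1) W)),
        (#Z : ℝ) ≤ C * B₁ ^ d * (2 ^ n * (n + 1) ^ d) ∧ (∀ x, ∀ z ∉ Z, M x z = 0) ∧
        ∀ (S : Finset (Fin (d + 1) → ℕ)) (γ : (Fin (d + 1) → ℕ) → ι → GW (d + 1) W → ℝ)
          (F : GW (d + 1) W → ℝ) (y : (Fin (d + 1) → ℕ) → ℝ) (Y ε : ℝ), 0 ≤ ε → 0 ≤ Y →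
          (∀ s, 0 ≤ y s) → (∀ s ∈ S, n < ∑ i, s i ∧
            (∀ a, (γ s a).FactorsThrough (bx fun i => W - s i)) ∧ Van s (gs χ γ s) ∧
            ∑ a, nm p (γ s a) ≤ q ^ (∑ i, s i - n) * y s) →
          (∀ (N : ℕ), ∀ U ⊆ S, (∀ s ∈ U, N < ∑ i, s i) →
            (∑ s ∈ U, (ν ^ (∑ i, s i - N) * y s) ^ τ) ^ (1 / τ) ≤ Y * (((N : ℝ) + 1) ^ d) ^ g) →
          (∀ x, |F x - (∑ s ∈ S, gs χ γ s) x| ≤ ε) →
          nm p (F - M *ᵥ F) ≤ C * (B₂ ^ d * (Y * (((n : ℝ) + 1) ^ d) ^ g) +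
            B₁ ^ d * (2 ^ n * (n + 1) ^ d) * ε * nm p (1 : GW (d + 1) W → ℝ)) := by
  classical
  have hp1 : 1 ≤ p := by linarith
  have hp0 : 0 < p := by linarith
  have hq0 : 0 < q := by linarith
  have hτ0 : 0 < τ := by linarith
  obtain ⟨t, Ht⟩ := net (d + 1)
  obtain ⟨C₁, hC₁, H₁⟩ := type_err (d + 1) hp h1 h2 hν0 hν1
  obtain ⟨C₂, hC₂, H₂⟩ := conv d (σ := (2 * q)⁻¹) h1 (by positivity)
    (inv_lt_one_of_one_lt₀ (by linarith)) hν0.le hν1.le hg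
  set c' : ℝ := 1 + (d + 1) * c with hc'
  have hc0 : 0 < c' := by positivity
  set A₀ : ℝ := (d + 1) * ((2 * d + 3) * c' ^ d) with hA₀
  have hA0 : 0 ≤ A₀ := by positivity
  set A₁ : ℝ := (d + 1) * (C₁ * ((2 * Λ) ^ (d + 1) * (C₂ * (c' ^ d) ^ g))) with hA₁
  have hΛ0 : 0 < Λ := by linarith
  have hA1 : 0 ≤ A₁ := by positivity
  refine ⟨A₀ * (2 ^ t * 2 ^ (d + 1)) + A₁ + (1 + A₀ * (2 ^ (d + 1) * 2 ^ (d + 1))), by positivity,
    fun n W K hK hKc J B₁ B₂ hJ hB₁ hB₂ => ?_⟩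
  choose w hw hw' using Ht W
  have hJ0 : J 0 = 0 := Nat.le_zero.1 (hJ 0)
  have hK0 : 0 < K := Nat.pos_of_ne_zero (by rintro rfl; simp at hK)
  have hB1 : 1 ≤ B₁ := by
    have := single_le_sum (f := fun k => (2 : ℝ) ^ J k / 2 ^ k) (fun _ _ => by positivity)
      (mem_range.2 hK0)
    simp only [hJ0, pow_zero, div_one] at this
    exact this.trans hB₁
  have hB2 : 0 ≤ B₂ := le_trans (sum_nonneg fun _ _ => by positivity) hB₂
  let N : (Fin (d + 1) → ℕ) → ℕ := fun κ => n + ∑ j, J (κ j)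
  have hN : ∀ i, ∀ κ ∈ Ty (d + 1) K i, ((N κ : ℕ) : ℝ) + 1 ≤ c' * (n + 1) := fun i κ hκ => by
    have h3 : ∑ j, J (κ j) ≤ (d + 1) * (c * (n + 1)) := by
      simpa using sum_le_card_nsmul univ (fun j => J (κ j)) (c * (n + 1)) fun j _ => (hJ _).trans (by
        by_cases hj : j = i
        · rw [hj, (mem_Ty.1 hκ).1]; exact Nat.zero_le _
        · exact ((mem_Ty.1 hκ).2 j hj).le.trans hKc)
    have h4 : ((∑ j, J (κ j) : ℕ) : ℝ) ≤ (d + 1) * (c * (n + 1)) := by exact_mod_cast h3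
    simp only [N, Nat.cast_add]
    rw [hc']; linarith
  have hcnt : ∑ i, ∑ κ ∈ Ty (d + 1) K i, (#(Act W n (N κ) (sc i κ)) : ℝ) * 2 ^ N κ ≤
      A₀ * B₁ ^ d * (2 ^ n * (n + 1) ^ d) := by
    refine (sum_le_card_nsmul _ _ ((2 * d + 3) * c' ^ d * (2 ^ n * (n + 1) ^ d) * B₁ ^ d)
      fun i _ => ?_).trans (le_of_eq (by
        simp only [card_univ, Fintype.card_fin, nsmul_eq_mul, hA₀]; push_cast; ring))
    refine le_trans ?_ (mul_le_mul_of_nonneg_left (sum_Ty i (φ := fun k => (2 : ℝ) ^ J k / 2 ^ k)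
      (fun _ => by positivity) (by simp [hJ0]) hB₁) (by positivity))
    rw [mul_sum]
    refine sum_le_sum fun κ hκ => ?_
    have h3 : (#(Act W n (N κ) (sc i κ)) : ℝ) * 2 ^ (∑ j, κ j) ≤ (2 * d + 3) * ((N κ : ℕ) + 1) ^ d := by
      exact_mod_cast card_Act (W := W) (n := n) (mem_Ty.1 hκ).1 (sum_le_sum fun j _ => hJ (κ j))
    have h4 := pow_le_pow_left₀ (by positivity) (hN i κ hκ) d
    rw [prod_div_distrib, prod_pow_eq_pow_sum, prod_pow_eq_pow_sum, ← mul_div_assoc,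
      le_div_iff₀ (by positivity), mul_right_comm, show (2 : ℝ) ^ N κ = 2 ^ n * 2 ^ ∑ j, J (κ j) from
        pow_add _ _ _]
    rw [mul_pow] at h4
    calc _ ≤ (2 * d + 3) * (c' ^ d * (n + 1) ^ d) * (2 ^ n * 2 ^ ∑ j, J (κ j)) :=
          mul_le_mul_of_nonneg_right (h3.trans (by gcongr)) (by positivity)
      _ = _ := by ring
  let Rs := fun e a : Fin (d + 1) → ℕ => ∑ s ∈ Sh (d + 1) W with lb e s = a, Rm W s (s + 1)
  have hX : 0 ≤ B₁ ^ d * (2 ^ n * (n + 1) ^ d) := by positivity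
  refine ⟨∑ i, ∑ κ ∈ Ty (d + 1) K i, ∑ a ∈ Act W n (N κ) (sc i κ),
      Dm W (lw i (sc i κ) a) (hi (sc i κ) a) * diagonal (w (N κ)) * Rs (sc i κ) a,
    univ.biUnion fun i => (Ty (d + 1) K i).biUnion fun κ => (Act W n (N κ) (sc i κ)).biUnion
      fun a => (univ.filter fun z => w (N κ) z ≠ 0).biUnion fun z =>
        univ.filter fun x => Rs (sc i κ) a z x ≠ 0, ?_, fun x z hz => ?_,
    fun S γ F y Y ε hε hY hy hS hlev hF => ?_⟩
  · have h3 : (#(univ.biUnion fun i => (Ty (d + 1) K i).biUnion fun κ =>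
        (Act W n (N κ) (sc i κ)).biUnion fun a => (univ.filter fun z => w (N κ) z ≠ 0).biUnion
          fun z => univ.filter fun x => Rs (sc i κ) a z x ≠ 0)) ≤
        ∑ i, ∑ κ ∈ Ty (d + 1) K i, #(Act W n (N κ) (sc i κ)) * 2 ^ N κ * (2 ^ t * 2 ^ (d + 1)) := by
      refine card_biUnion_le.trans (sum_le_sum fun i _ => card_biUnion_le.trans
        (sum_le_sum fun κ _ => ?_))
      rw [mul_assoc]
      refine card_biUnion_le_card_mul _ _ _ fun a ha => ?_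
      obtain ⟨s, hs, rfl, -⟩ := Act_spec ha
      obtain ⟨α, β, hR⟩ := Rm_cell (sc i κ) hs
      rw [← mul_assoc, ← pow_add]
      refine (card_biUnion_le_card_mul _ _ (2 ^ (d + 1)) fun z _ => ?_).trans
        (Nat.mul_le_mul_right _ (hw' _))
      simp only [Rs, hR]
      exact Rm_card W α β z
    have h4 := (Nat.cast_le (α := ℝ)).2 h3
    push_cast at h4
    simp only [← sum_mul] at h4
    refine h4.trans ((mul_le_mul_of_nonneg_right hcnt (by positivity)).trans ?_)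
    have : 0 ≤ A₀ * (2 ^ (d + 1) * 2 ^ (d + 1)) := by positivity
    nlinarith [mul_nonneg (add_nonneg hA1 (add_nonneg zero_le_one this)) hX]
  · simp only [Matrix.sum_apply]
    refine sum_eq_zero fun i _ => sum_eq_zero fun κ hκ => sum_eq_zero fun a ha => ?_
    rw [mul_apply]
    refine sum_eq_zero fun u _ => ?_
    rw [mul_diagonal]
    by_contra h3
    exact hz (mem_biUnion.2 ⟨i, mem_univ _, mem_biUnion.2 ⟨κ, hκ, mem_biUnion.2 ⟨a, ha,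
      mem_biUnion.2 ⟨u, mem_filter.2 ⟨mem_univ _, right_ne_zero_of_mul (left_ne_zero_of_mul h3)⟩,
        mem_filter.2 ⟨mem_univ _, right_ne_zero_of_mul h3⟩⟩⟩⟩⟩)
  set G := ∑ s ∈ S, gs χ γ s with hG
  set M := ∑ i, ∑ κ ∈ Ty (d + 1) K i, ∑ a ∈ Act W n (N κ) (sc i κ),
      Dm W (lw i (sc i κ) a) (hi (sc i κ) a) * diagonal (w (N κ)) * Rs (sc i κ) a with hM
  have hV := nm_nonneg p (1 : GW (d + 1) W → ℝ)
  have hh : ∀ s, Rm W s (s + 1) *ᵥ G = ∑ u ∈ S with u ≤ s, Rm W s (s + 1) *ᵥ gs χ γ u := fun s => by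
    rw [hG, mulVec_sum, sum_filter]
    refine sum_congr rfl fun u hu => ?_
    split_ifs with h3
    · rfl
    · exact Rm_van h3 (hS u hu).2.2.1
  have hsub : ∀ s u : Fin (d + 1) → ℕ, u ≤ s → ∑ j, s j = ∑ j, u j + ∑ j, (s j - u j) := fun s u h => by
    rw [← sum_add_distrib]
    exact sum_congr rfl fun j _ => (Nat.add_sub_cancel' (h j)).symm
  have hh0 : ∀ s, ∑ j, s j ≤ n → Rm W s (s + 1) *ᵥ G = 0 := fun s hs => by
    rw [hh, filter_false_of_mem fun u hu h => ?_, sum_empty]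
    have := hsub s u h
    have := (hS u hu).1
    omega
  have hh1 : ∀ s ∈ Sh (d + 1) W, nm p (Rm W s (s + 1) *ᵥ G) ≤ (2 * Λ) ^ (d + 1) *
      (q ^ (∑ j, s j - n) * ∑ u ∈ S with u ≤ s, (2 * q)⁻¹ ^ (∑ j, (s j - u j)) * y u) := by
    intro s hs
    rw [hh, mul_sum, mul_sum]
    refine (nm_sum hp1 _ _).trans (sum_le_sum fun u hu => ?_)
    obtain ⟨hu1, hu2⟩ := mem_filter.1 hu
    obtain ⟨h3, h4, h5, h6⟩ := hS u hu1
    refine (Rm_decay hp1 hΛ hu2 (mem_Sh.1 hs) hχ h4 h5).trans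
      ((mul_le_mul_of_nonneg_left h6 (by positivity)).trans (le_of_eq ?_))
    rw [show ∑ j, s j - n = ∑ j, u j - n + ∑ j, (s j - u j) by have := hsub s u hu2; omega,
      pow_add q, inv_pow, mul_pow 2 q, one_div, inv_pow]
    field_simp
  have b1 : nm p (G - M *ᵥ G) ≤ A₁ * (B₂ ^ d * (Y * (((n : ℝ) + 1) ^ d) ^ g)) := by
    rw [hM, est_id hK N w G, nm_neg]
    refine (nm_sum hp1 _ _).trans ((sum_le_card_nsmul _ _ (C₁ * ((2 * Λ) ^ (d + 1) *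
      (C₂ * (c' ^ d) ^ g)) * (Y * (((n : ℝ) + 1) ^ d) ^ g) * B₂ ^ d) fun i _ => ?_).trans
        (le_of_eq (by simp only [card_univ, Fintype.card_fin, nsmul_eq_mul, hA₁]; push_cast; ring)))
    refine (nm_sum hp1 _ _).trans (le_trans ?_ (mul_le_mul_of_nonneg_left (sum_Ty i
      (φ := fun k => ((2 : ℝ) ^ k) ^ (1 - 1 / τ) * q ^ J k) (fun _ => by positivity)
      (by simp [hJ0]) hB₂) (by positivity)))
    rw [mul_sum]
    refine sum_le_sum fun κ hκ => (H₁ W n (N κ) (Nat.le_add_right _ _) i κ (mem_Ty.1 hκ).1 _ (hw _)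
      (fun s => Rm W s (s + 1) *ᵥ G) (fun s => Rm_fac W s G) hh0).trans ?_
    have h3 := (lp_mono (Sh (d + 1) W |>.filter fun s => N κ < ∑ j, s j) hτ0
      (c := (2 * Λ) ^ (d + 1) * q ^ ∑ j, J (κ j)) (by positivity)
      (a := fun s => (2 ^ (1 / p) / ν) ^ (∑ j, s j - N κ) * nm p (Rm W s (s + 1) *ᵥ G))
      (b := fun s => ν ^ (∑ j, s j - N κ) *
        ∑ u ∈ S with u ≤ s, (2 * q)⁻¹ ^ (∑ j, (s j - u j)) * y u)
      (fun s => mul_nonneg (by positivity) (nm_nonneg _ _))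
      (fun s => mul_nonneg (by positivity) (sum_nonneg fun u _ => mul_nonneg (by positivity) (hy u)))
      fun s hs => by
        obtain ⟨hs1, hs2⟩ := mem_filter.1 hs
        have h4 : 0 ≤ ∑ u ∈ S with u ≤ s, (2 * q)⁻¹ ^ (∑ j, (s j - u j)) * y u :=
          sum_nonneg fun u _ => mul_nonneg (by positivity) (hy u)
        have h5 : 2 ^ (1 / p) / ν * q ≤ ν := by
          rw [div_mul_eq_mul_div, div_le_iff₀ hν0, ← sq]; exact hqν
        refine (mul_le_mul_of_nonneg_left (hh1 s hs1) (by positivity)).trans ?_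
        rw [show ∑ j, s j - n = ∑ j, J (κ j) + (∑ j, s j - N κ) by simp only [N] at hs2 ⊢; omega,
          pow_add q]
        calc _ = (2 * Λ) ^ (d + 1) * q ^ (∑ j, J (κ j)) * ((2 ^ (1 / p) / ν * q) ^ (∑ j, s j - N κ) *
              ∑ u ∈ S with u ≤ s, (2 * q)⁻¹ ^ (∑ j, (s j - u j)) * y u) := by rw [mul_pow]; ring
          _ ≤ _ := by gcongr).trans (mul_le_mul_of_nonneg_left (H₂ S y Y hy hY
        (fun s hs => (Nat.zero_le _).trans_lt (hS s hs).1) hlev (N κ) _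
          fun s hs => (mem_filter.1 hs).2) (by positivity))
    have h4 : ((((N κ : ℕ) : ℝ) + 1) ^ d) ^ g ≤ (c' ^ d) ^ g * (((n : ℝ) + 1) ^ d) ^ g := by
      rw [← Real.mul_rpow (by positivity) (by positivity), ← mul_pow]
      exact Real.rpow_le_rpow (by positivity) (pow_le_pow_left₀ (by positivity) (hN i κ hκ) d) hg
    rw [prod_mul_distrib, Real.finsetProd_rpow _ _ fun _ _ => by positivity, prod_pow_eq_pow_sum,
      prod_pow_eq_pow_sum]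
    calc _ ≤ C₁ * ((2 : ℝ) ^ ∑ j, κ j) ^ (1 - 1 / τ) * ((2 * Λ) ^ (d + 1) * q ^ (∑ j, J (κ j)) *
          (C₂ * (Y * ((c' ^ d) ^ g * (((n : ℝ) + 1) ^ d) ^ g)))) :=
          mul_le_mul_of_nonneg_left (h3.trans (by gcongr)) (by positivity)
      _ = _ := by ring
  have hu : ∀ x, |(F - G) x| ≤ ε := hF
  have b2 : nm p (F - G) ≤ ε * nm p (1 : GW (d + 1) W → ℝ) :=
    nm_smul_le hp0 hε fun x => by simpa using hu x
  have b3 : nm p (M *ᵥ (F - G)) ≤ A₀ * B₁ ^ d * (2 ^ n * (n + 1) ^ d) *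
      (2 ^ (d + 1) * (2 ^ (d + 1) * ε * nm p (1 : GW (d + 1) W → ℝ))) := by
    refine le_trans ?_ (mul_le_mul_of_nonneg_right hcnt (by positivity))
    rw [hM, sum_mulVec, sum_mul]
    refine (nm_sum hp1 _ _).trans (sum_le_sum fun i _ => ?_)
    rw [sum_mulVec, sum_mul]
    refine (nm_sum hp1 _ _).trans (sum_le_sum fun κ _ => ?_)
    rw [sum_mulVec]
    refine (nm_sum hp1 _ _).trans ((sum_le_card_nsmul _ _ _ fun a ha =>
      nm_cell hp1 hε i ha (hw _) hu).trans ?_)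
    rw [nsmul_eq_mul]
    exact mul_le_mul_of_nonneg_right (le_mul_of_one_le_right (by positivity)
      (one_le_pow₀ one_le_two)) (by positivity)
  have hid : F - M *ᵥ F = G - M *ᵥ G + (F - G + -(M *ᵥ (F - G))) := by
    rw [mulVec_sub]; abel
  rw [hid]
  refine (nm_add hp1 _ _).trans ((add_le_add le_rfl (nm_add hp1 _ _)).trans ?_)
  rw [nm_neg]
  have h3 : (1 : ℝ) ≤ B₁ ^ d * (2 ^ n * (n + 1) ^ d) := one_le_mul_of_one_le_of_one_le (one_le_pow₀ hB1)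
    (one_le_mul_of_one_le_of_one_le (one_le_pow₀ one_le_two) (one_le_pow₀ (by simp)))
  have b4 := b2.trans (le_mul_of_one_le_left (by positivity) h3)
  have h4 : 0 ≤ B₂ ^ d * (Y * (((n : ℝ) + 1) ^ d) ^ g) := by positivity
  have h5 : 0 ≤ B₁ ^ d * (2 ^ n * (n + 1) ^ d) * ε * nm p (1 : GW (d + 1) W → ℝ) := by positivity
  have h6 : 0 ≤ A₀ * (2 ^ t * 2 ^ (d + 1)) := by positivity
  have h7 : 0 ≤ 1 + A₀ * (2 ^ (d + 1) * 2 ^ (d + 1)) := by positivity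
  nlinarith [mul_nonneg (add_nonneg h6 h7) h4, mul_nonneg (add_nonneg h6 hA1) h5]

theorem cells3 (d c : ℕ) {p τ q ν g Λ : ℝ} (hp : 2 ≤ p ∨ 1 ≤ p ∧ d = 0)
    (h1 : 1 ≤ τ) (h2 : τ ≤ 2) (hq : 1 / 2 < q)
    (hν0 : 0 < ν) (hν1 : ν < 1) (hqν : 2 ^ (1 / p) * q ≤ ν ^ 2) (hg : 0 ≤ g) (hΛ : 1 ≤ Λ)
    {ι : Type} [Fintype ι] {χ : ι → Fin (d + 1) → ℝ → ℝ} (hχ : ∀ a i, Prof Λ (χ a i)) :
    ∃ C : ℝ, 0 < C ∧ ∀ n W K : ℕ, W + 1 < 2 ^ K → K ≤ c * (n + 1) → ∀ (J : ℕ → ℕ) (B₁ B₂ : ℝ),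
      (∀ k, J k ≤ k) → ∑ k ∈ range K, (2 : ℝ) ^ J k / 2 ^ k ≤ B₁ →
      ∑ k ∈ range K, ((2 : ℝ) ^ k) ^ (1 - 1 / τ) * q ^ J k ≤ B₂ →
      ∃ (M : Matrix (GW (d + 1) W) (GW (d + 1) W) ℝ) (Z : Finset (GW (d + 1) W)),
        (#Z : ℝ) ≤ C * B₁ ^ d * (2 ^ n * (n + 1) ^ d) ∧ (∀ x, ∀ z ∉ Z, M x z = 0) ∧
        ∀ (S : Finset (Fin (d + 1) → ℕ)) (γ : (Fin (d + 1) → ℕ) → ι → GW (d + 1) W → ℝ)
          (F : GW (d + 1) W → ℝ) (y : (Fin (d + 1) → ℕ) → ℝ) (Y ε : ℝ), 0 ≤ ε → 0 ≤ Y →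
          (∀ s, 0 ≤ y s) → (∀ s ∈ S, n < ∑ i, s i ∧
            (∀ a, (γ s a).FactorsThrough (bx fun i => W - s i)) ∧ Van s (gs χ γ s) ∧
            ∑ a, nm p (γ s a) ≤ q ^ (∑ i, s i - n) * y s) →
          (∀ (N : ℕ), ∀ U ⊆ S, (∀ s ∈ U, N < ∑ i, s i) →
            (∑ s ∈ U, (ν ^ (∑ i, s i - N) * y s) ^ τ) ^ (1 / τ) ≤ Y * (((N : ℝ) + 1) ^ d) ^ g) →
          (∀ x, |F x - (∑ s ∈ S, gs χ γ s) x| ≤ ε) →
          nm p (F - M *ᵥ F) ≤ C * (B₂ ^ d * (Y * (((n : ℝ) + 1) ^ d) ^ g) +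
            B₁ ^ d * (2 ^ n * (n + 1) ^ d) * ε * nm p (1 : GW (d + 1) W → ℝ)) := by
  rcases hp with hp | ⟨hp, rfl⟩
  · exact cells2 d c hp h1 h2 hq hν0 hν1 hqν hg hΛ hχ
  have hp0 : 0 < p := by linarith
  have hτ0 : 0 < τ := by linarith
  have hν2 := sub_pos.2 hν1
  have hq2 : q ≤ ν * ν := by
    rw [← sq]
    exact (le_mul_of_one_le_left (by linarith) (Real.one_le_rpow one_le_two (by positivity))).trans hqν
  refine ⟨(1 - ν)⁻¹ + 1, by positivity, fun n W K _ _ J B₁ B₂ _ _ _ => ⟨0, ∅, by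
    simp only [card_empty, Nat.cast_zero]; positivity, fun _ _ _ => rfl,
    fun S γ F y Y ε hε hY hy hS hlev hF => ?_⟩⟩
  have hV := nm_nonneg p (1 : GW (0 + 1) W → ℝ)
  have b2 : nm p (F - ∑ s ∈ S, gs χ γ s) ≤ ε * nm p (1 : GW (0 + 1) W → ℝ) :=
    nm_smul_le hp0 hε fun x => by simpa using hF x
  have b1 : nm p (∑ s ∈ S, gs χ γ s) ≤ (1 - ν)⁻¹ * Y := by
    refine (nm_sum hp _ _).trans ((sum_le_sum (g := fun s => ν ^ (∑ i, s i - n) * Y)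
      fun s hs => ?_).trans ?_)
    · obtain ⟨h3, -, -, h6⟩ := hS s hs
      have h7 := hlev n {s} (singleton_subset_iff.2 hs) (by simpa using h3)
      rw [sum_singleton, one_div, Real.rpow_rpow_inv (mul_nonneg (by positivity) (hy s)) hτ0.ne',
        pow_zero, Real.one_rpow, mul_one] at h7
      refine (nm_sum hp _ _).trans ((sum_le_sum fun a _ => nm_mono hp0.le fun x =>
        (abs_mul _ _).trans_le (mul_le_of_le_one_right (abs_nonneg _)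
          (abs_pf_le (hχ a) _ _))).trans (h6.trans ?_))
      have := hy s
      calc _ ≤ (ν * ν) ^ (∑ i, s i - n) * y s := by gcongr
        _ = ν ^ (∑ i, s i - n) * (ν ^ (∑ i, s i - n) * y s) := by rw [mul_pow, mul_assoc]
        _ ≤ _ := by gcongr
    · rw [← sum_mul]
      refine mul_le_mul_of_nonneg_right (geo_inj hν0.le hν1 S _ fun s hs t ht h => ?_) hY
      have h3 := (hS s hs).1
      have h4 := (hS t ht).1
      simp only [Fin.sum_univ_succ, Fin.sum_univ_zero] at h h3 h4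
      funext i
      rw [Subsingleton.elim (α := Fin 1) i 0]
      omega
  have h3 := nm_add hp (∑ s ∈ S, gs χ γ s) (F - ∑ s ∈ S, gs χ γ s)
  rw [add_sub_cancel] at h3
  have h4 : ε * nm p (1 : GW (0 + 1) W → ℝ) ≤ 2 ^ n * ε * nm p (1 : GW (0 + 1) W → ℝ) := by
    rw [mul_assoc]; exact le_mul_of_one_le_left (by positivity) (one_le_pow₀ one_le_two)
  simp only [zero_mulVec, sub_zero, pow_zero, one_mul, mul_one, Real.one_rpow]
  have h5 : 0 ≤ (1 - ν)⁻¹ := by positivity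
  nlinarith [mul_nonneg h5 (show 0 ≤ 2 ^ n * ε * nm p (1 : GW (0 + 1) W → ℝ) by positivity)]

end Pool.Agent.Lib.MP_919f0c_an.Det
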