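import Pool.Agent.Lib.MP_919f0c_an.Det.Defs

/-! The number of active labels. -/

set_option autoImplicit false

open Finset Matrix

namespace Pool.Agent.Lib.MP_919f0c_an.Det

open Pool.Agent.Lib.MP_919f0c_an.Lp

lemma count_lab {d W n J : ℕ} {i : Fin (d + 1)} {κ : Fin (d + 1) → ℕ} (hκ : κ i = 0)
    (hJ : J ≤ ∑ j, κ j) {a : Fin (d + 1) → ℕ} (ha : a ∈ Act W n (n + J) (sc i κ)) :
    (∀ j, j ≠ i → a j ∈ Icc 1 ((n + J + 1) / 2 ^ κ j)) ∧
      a i ∈ Icc ((n + J + 1 + d - ∑ j : Fin d, a (i.succAbove j) * 2 ^ κ (i.succAbove j)) /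
          2 ^ thr i κ - 2 * d)
        ((n + J + 1 + d - ∑ j : Fin d, a (i.succAbove j) * 2 ^ κ (i.succAbove j)) /
          2 ^ thr i κ) := by
  obtain ⟨s, hs, rfl⟩ := mem_image.1 ha
  obtain ⟨-, h1, h2, h3⟩ := mem_filter.1 hs
  have e1 : ∀ j, j ≠ i → lb (sc i κ) s j = (s j + 1) / 2 ^ κ j := fun j hj => by
    simp [lb, sc, hj]
  have e2 : lb (sc i κ) s i = (s i + 1) / 2 ^ thr i κ := by simp [lb, sc]
  refine ⟨fun j hj => mem_Icc.2 ⟨Nat.pos_of_ne_zero (h3 j), ?_⟩, ?_⟩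
  · rw [e1 j hj]
    have := single_le_sum (f := s) (fun _ _ => Nat.zero_le _) (mem_univ j)
    exact Nat.div_le_div_right (by omega)
  rw [Fin.sum_univ_succAbove _ i] at h1 h2 hJ
  have hP : 0 < 2 ^ thr i κ := Nat.two_pow_pos _
  have b1 : ∑ j : Fin d, lb (sc i κ) s (i.succAbove j) * 2 ^ κ (i.succAbove j) ≤
      ∑ j : Fin d, (s (i.succAbove j) + 1) := sum_le_sum fun j _ => by
    rw [e1 _ (Fin.succAbove_ne i j)]
    exact Nat.div_mul_le_self _ _
  have b2 : ∑ j : Fin d, (s (i.succAbove j) + 1) ≤ ∑ j : Fin d,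
      (lb (sc i κ) s (i.succAbove j) * 2 ^ κ (i.succAbove j) + 2 ^ thr i κ) :=
    sum_le_sum fun j _ => by
      rw [e1 _ (Fin.succAbove_ne i j)]
      have c1 := Nat.lt_div_mul_add (a := s (i.succAbove j) + 1) (Nat.two_pow_pos (κ (i.succAbove j)))
      have c2 := Nat.pow_le_pow_right (n := 2) (by norm_num) (le_thr i κ (i.succAbove j))
      omega
  have b3 : ∑ j : Fin d, κ (i.succAbove j) ≤ ∑ _j : Fin d, 2 ^ thr i κ :=
    sum_le_sum fun j _ => (le_thr i κ _).trans Nat.lt_two_pow_self.le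
  simp only [sum_add_distrib, sum_const, card_univ, Fintype.card_fin, smul_eq_mul, mul_one]
    at b1 b2 b3
  rw [e2]
  generalize ∑ j : Fin d, lb (sc i κ) s (i.succAbove j) * 2 ^ κ (i.succAbove j) = B at b1 b2
  refine mem_Icc.2 ⟨?_, Nat.div_le_div_right (by omega)⟩
  have b4 : (n + J + 1 + d - B) / 2 ^ thr i κ ≤ (s i + 1 + 2 * d * 2 ^ thr i κ) / 2 ^ thr i κ := by
    refine Nat.div_le_div_right ?_
    rw [mul_assoc]
    omega
  rw [Nat.add_mul_div_right _ _ hP] at b4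
  omega

theorem card_Act {d W n J : ℕ} {i : Fin (d + 1)} {κ : Fin (d + 1) → ℕ} (hκ : κ i = 0)
    (hJ : J ≤ ∑ j, κ j) :
    #(Act W n (n + J) (sc i κ)) * 2 ^ (∑ j, κ j) ≤ (2 * d + 3) * (n + J + 1) ^ d := by
  have h1 := card_le_mul_card_image_of_maps_to (s := Act W n (n + J) (sc i κ))
    (f := fun a => fun j : Fin d => a (i.succAbove j))
    (t := Fintype.piFinset fun j : Fin d => Icc 1 ((n + J + 1) / 2 ^ κ (i.succAbove j)))
    (fun a ha => Fintype.mem_piFinset.2 fun j =>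
      (count_lab hκ hJ ha).1 _ (Fin.succAbove_ne i j)) (2 * d + 3) (by
      intro c _
      refine (card_le_card_of_injOn (t := Icc
        ((n + J + 1 + d - ∑ j : Fin d, c j * 2 ^ κ (i.succAbove j)) / 2 ^ thr i κ - 2 * d)
        ((n + J + 1 + d - ∑ j : Fin d, c j * 2 ^ κ (i.succAbove j)) / 2 ^ thr i κ))
        (fun a => a i) ?_ ?_).trans ?_
      · intro a ha
        obtain ⟨h1, rfl⟩ := mem_filter.1 (mem_coe.1 ha)
        exact mem_coe.2 (count_lab hκ hJ h1).2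
      · intro a ha b hb hab
        have h2 := (mem_filter.1 (mem_coe.1 ha)).2.trans (mem_filter.1 (mem_coe.1 hb)).2.symm
        funext j
        refine i.succAboveCases ?_ (fun k => ?_) j
        · exact hab
        · exact congrFun h2 k
      · rw [Nat.card_Icc]
        omega)
  rw [Fintype.card_piFinset] at h1
  rw [Fin.sum_univ_succAbove _ i, hκ, zero_add, ← prod_pow_eq_pow_sum]
  refine (Nat.mul_le_mul_right _ h1).trans ?_
  rw [mul_assoc, ← prod_mul_distrib]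
  refine Nat.mul_le_mul_left _ ((prod_le_pow_card _ _ (n + J + 1) fun j _ => ?_).trans (by simp))
  rw [Nat.card_Icc, Nat.add_sub_cancel]
  exact Nat.div_mul_le_self _ _

end Pool.Agent.Lib.MP_919f0c_an.Det
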