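import Pool.Agent.Lib.MP_919f0c_an.LpUpper

/-! Definitions for the deterministic recovery scheme. -/

set_option autoImplicit false

open Finset Matrix

namespace Pool.Agent.Lib.MP_919f0c_an.Det

open Pool.Agent.Lib.MP_919f0c_an.Lp

variable {d : ℕ}

/-- the uniform dyadic grid -/
abbrev GW (d W : ℕ) : Type := Gd fun _ : Fin d => W

/-- rounding down to the grid of level `j - 1` (zero for `j = 0`) -/
noncomputable def rk (W j : ℕ) : Matrix (Fin (2 ^ W)) (Fin (2 ^ W)) ℝ :=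
  of fun x z => if j ≠ 0 ∧ z.1 = x.1 / 2 ^ (W + 1 - j) * 2 ^ (W + 1 - j) then 1 else 0

/-- rounding differences over a box of shapes -/
noncomputable def Rm (W : ℕ) (α β : Fin d → ℕ) : Matrix (GW d W) (GW d W) ℝ :=
  tens fun i => rk W (β i) - rk W (α i)

/-- all shapes -/
def Sh (d W : ℕ) : Finset (Fin d → ℕ) := Fintype.piFinset fun _ => range (W + 1)

/-- the scale of the merged coordinate -/
def thr (i : Fin d) (κ : Fin d → ℕ) : ℕ := univ.sup fun j => κ j + if j < i then 1 else 0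

/-- the scales of a type -/
def sc (i : Fin d) (κ : Fin d → ℕ) : Fin d → ℕ := Function.update κ i (thr i κ)

/-- the label of a shape -/
def lb (e s : Fin d → ℕ) : Fin d → ℕ := fun j => (s j + 1) / 2 ^ e j

/-- upper corner of the partner box -/
def hi (e a : Fin d → ℕ) : Fin d → ℕ := fun j => a j * 2 ^ e j

/-- lower corner of the partner box -/
def lw (i : Fin d) (e a : Fin d → ℕ) : Fin d → ℕ :=
  fun j => if j = i then 0 else a j / 2 * 2 ^ (e j + 1)

/-- the types with merged coordinate `i` -/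
def Ty (d K : ℕ) (i : Fin d) : Finset (Fin d → ℕ) :=
  Fintype.piFinset fun j => if j = i then {0} else range K

/-- the active labels -/
def Act (W n N : ℕ) (e : Fin d → ℕ) : Finset (Fin d → ℕ) :=
  ((Sh d W).filter fun s => n < ∑ j, s j ∧ ∑ j, s j ≤ N ∧ ∀ j, lb e s j ≠ 0).image (lb e)

/-- vanishing on the coarser grids -/
def Van {W : ℕ} (s : Fin d → ℕ) (g : GW d W → ℝ) : Prop :=
  ∀ (x : GW d W) (i : Fin d), s i ≠ 0 → 2 ^ (W + 1 - s i) ∣ (x i).1 → g x = 0

/-- weights that are exact on all boxes of level at most `N` -/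
def Net {W : ℕ} (N : ℕ) (w : GW d W → ℝ) : Prop :=
  (∀ z, 0 ≤ w z) ∧ ∀ s : Fin d → ℕ, (∀ i, s i ≤ W) → ∑ i, s i ≤ N → Em W s *ᵥ w = 1

lemma mem_Sh {W : ℕ} {s : Fin d → ℕ} : s ∈ Sh d W ↔ ∀ i, s i ≤ W := by
  simp [Sh]

lemma mem_Ty {K : ℕ} {i : Fin d} {κ : Fin d → ℕ} :
    κ ∈ Ty d K i ↔ κ i = 0 ∧ ∀ j, j ≠ i → κ j < K := by
  rw [Ty, Fintype.mem_piFinset]
  refine ⟨fun h => ⟨by simpa using h i, fun j hj => by simpa [hj] using h j⟩, fun h j => ?_⟩
  split_ifs with hj
  · simpa [hj] using h.1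
  · simpa using h.2 j hj

lemma le_thr (i : Fin d) (κ : Fin d → ℕ) (j : Fin d) : κ j ≤ thr i κ :=
  (Nat.le_add_right _ _).trans (le_sup (f := fun j => κ j + if j < i then 1 else 0) (mem_univ j))

lemma lw_le_hi (i : Fin d) (e a : Fin d → ℕ) : lw i e a ≤ hi e a := fun j => by
  unfold lw hi
  split_ifs
  · exact Nat.zero_le _
  · rw [pow_succ', ← mul_assoc]
    exact Nat.mul_le_mul_right _ (Nat.div_mul_le_self _ _)

lemma Dm_lab_zero (W : ℕ) (i : Fin d) (e : Fin d → ℕ) {a : Fin d → ℕ} {j : Fin d} (h : a j = 0) :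
    Dm W (lw i e a) (hi e a) = 0 := by
  ext x z
  refine prod_eq_zero (mem_univ j) ?_
  simp [lw, hi, h]

/-- the lower corner of the box of shapes with a given label -/
lemma Dm_lab (W : ℕ) (i : Fin d) (e : Fin d → ℕ) {a : Fin d → ℕ} (h : ∀ j, a j ≠ 0) :
    ∃ v : Fin d → ℕ, (∀ t, lb e t = a → v ≤ t) ∧
      Dm W (lw i e a) (hi e a) * Em W v = Dm W (lw i e a) (hi e a) := by
  have h1 : hi e a = (fun j => hi e a j - 1) + 1 := funext fun j => by
    have : 0 < hi e a j := Nat.mul_pos (Nat.pos_of_ne_zero (h j)) (Nat.two_pow_pos _)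
    simp only [Pi.add_apply, Pi.one_apply]; omega
  refine ⟨fun j => hi e a j - 1, fun t ht j => ?_, ?_⟩
  · have := Nat.div_mul_le_self (t j + 1) (2 ^ e j)
    simp only [hi, ← ht, lb]; omega
  · have h2 := lw_le_hi i e a
    rw [h1] at h2
    have := Dm_Em W h2
    rwa [← h1] at this

end Pool.Agent.Lib.MP_919f0c_an.Det
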