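import Mathlib

/-! The choice of the budget per scale. -/

set_option autoImplicit false

open Finset

namespace Pool.Agent.Lib.MP_919f0c_an.Det

lemma numer_geo1 {σ : ℝ} (h0 : 0 ≤ σ) (h1 : σ < 1) (K : ℕ) :
    ∑ k ∈ range K, σ ^ k ≤ (1 - σ)⁻¹ := by
  rw [← tsum_geometric_of_lt_one h0 h1]
  exact (summable_geometric_of_lt_one h0 h1).sum_le_tsum _ (fun _ _ => by positivity)

lemma numer_geo2 {σ : ℝ} (h0 : 0 ≤ σ) (h1 : σ < 1) (K : ℕ) :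
    ∑ k ∈ range K, σ ^ (K - k) ≤ (1 - σ)⁻¹ :=
  calc _ ≤ ∑ k ∈ range K, σ ^ (K - 1 - k) :=
        sum_le_sum fun k _ => pow_le_pow_of_le_one h0 h1.le (by omega)
    _ = ∑ k ∈ range K, σ ^ k := sum_range_reflect _ _
    _ ≤ _ := numer_geo1 h0 h1 K

lemma numer_pw (x : ℝ) (n : ℕ) : ((2 : ℝ) ^ x) ^ n = (2 : ℝ) ^ (x * n) := by
  rw [Real.rpow_mul (by norm_num), Real.rpow_natCast]

lemma numer_pw' (x : ℝ) (n : ℕ) : ((2 : ℝ) ^ n) ^ x = (2 : ℝ) ^ (x * n) := by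
  rw [← Real.rpow_natCast, ← Real.rpow_mul (by norm_num), mul_comm]

lemma numer_a {ε : ℝ} (n k : ℕ) :
    (2 : ℝ) ^ (k - ⌊ε * n⌋₊) / 2 ^ k ≤ (1 / 2) ^ k + 2 * ((2 : ℝ) ^ (-ε)) ^ n := by
  have hp : (0 : ℝ) ≤ 2 * ((2 : ℝ) ^ (-ε)) ^ n := by positivity
  have hq : (0 : ℝ) ≤ (1 / 2) ^ k := by positivity
  rcases le_total k ⌊ε * n⌋₊ with h | h
  · rw [Nat.sub_eq_zero_of_le h, pow_zero, one_div_pow]
    linarith
  · have h1 : (2 : ℝ) ^ (k - ⌊ε * n⌋₊) / 2 ^ k = (2 : ℝ) ^ (-(⌊ε * n⌋₊ : ℝ)) := by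
      rw [← Real.rpow_natCast, ← Real.rpow_natCast, ← Real.rpow_sub (by norm_num), Nat.cast_sub h]
      congr 1; ring
    have h2 : 2 * ((2 : ℝ) ^ (-ε)) ^ n = (2 : ℝ) ^ (1 + -ε * n) := by
      rw [numer_pw, Real.rpow_add (by norm_num), Real.rpow_one]
    have h3 : (2 : ℝ) ^ (-(⌊ε * n⌋₊ : ℝ)) ≤ (2 : ℝ) ^ (1 + -ε * n) := by
      refine Real.rpow_le_rpow_of_exponent_le (by norm_num) ?_
      have := Nat.lt_floor_add_one (ε * n)
      linarith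
    rw [h1, h2]
    linarith

lemma numer_b {ε ρ β : ℝ} (hε : 0 ≤ ε) (hρ : 0 ≤ ρ) (n k : ℕ) :
    ((2 : ℝ) ^ k) ^ β * ((2 : ℝ) ^ (-ρ)) ^ (k - ⌊ε * n⌋₊) ≤
      (2 : ℝ) ^ ((β - ρ) * k + ρ * ε * n) := by
  rw [numer_pw, numer_pw', ← Real.rpow_add (by norm_num)]
  refine Real.rpow_le_rpow_of_exponent_le (by norm_num) ?_
  have h1 : (⌊ε * n⌋₊ : ℝ) ≤ ε * n := Nat.floor_le (by positivity)
  have h2 : (k : ℝ) ≤ ((k - ⌊ε * n⌋₊ : ℕ) : ℝ) + (⌊ε * n⌋₊ : ℝ) := by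
    exact_mod_cast (by omega : k ≤ k - ⌊ε * n⌋₊ + ⌊ε * n⌋₊)
  have h3 : (k : ℝ) - ε * n ≤ ((k - ⌊ε * n⌋₊ : ℕ) : ℝ) := by linarith
  have h4 := mul_le_mul_of_nonneg_left h3 hρ
  linarith

theorem choose_J {β ρ : ℝ} (hρ : 0 < ρ) (hne : ρ ≠ β) : ∃ C : ℝ, 0 < C ∧ ∀ K : ℕ,
    ∃ J : ℕ → ℕ, (∀ k, J k ≤ k) ∧ ∑ k ∈ range K, (2 : ℝ) ^ J k / 2 ^ k ≤ C ∧
      ∑ k ∈ range K, ((2 : ℝ) ^ k) ^ β * ((2 : ℝ) ^ (-ρ)) ^ J k ≤
        C * ((2 : ℝ) ^ K) ^ max (β - ρ) 0 := by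
  obtain ⟨δ, hδ, hδ0⟩ : ∃ δ : ℝ, δ = |β - ρ| / 2 ∧ 0 < δ :=
    ⟨_, rfl, half_pos (abs_pos.2 (sub_ne_zero.2 hne.symm))⟩
  obtain ⟨ε, hε0, hε⟩ : ∃ ε : ℝ, 0 < ε ∧ ρ * ε = δ :=
    ⟨δ / ρ, div_pos hδ0 hρ, mul_div_cancel₀ _ hρ.ne'⟩
  have hσ0 : (0 : ℝ) ≤ (2 : ℝ) ^ (-ε) := by positivity
  have hσ1 : (2 : ℝ) ^ (-ε) < 1 := Real.rpow_lt_one_of_one_lt_of_neg (by norm_num) (by linarith)
  have hτ0 : (0 : ℝ) ≤ (2 : ℝ) ^ (-δ) := by positivity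
  have hτ1 : (2 : ℝ) ^ (-δ) < 1 := Real.rpow_lt_one_of_one_lt_of_neg (by norm_num) (by linarith)
  have hA : 0 < (1 - (2 : ℝ) ^ (-ε))⁻¹ := inv_pos.2 (by linarith)
  have hB : 0 < (1 - (2 : ℝ) ^ (-δ))⁻¹ := inv_pos.2 (by linarith)
  refine ⟨2 + 2 * (1 - (2 : ℝ) ^ (-ε))⁻¹ + (1 - (2 : ℝ) ^ (-δ))⁻¹, by positivity, fun K => ?_⟩
  have hh : ∑ k ∈ range K, ((1 : ℝ) / 2) ^ k ≤ 2 := by
    have := numer_geo1 (σ := 1 / 2) (by norm_num) (by norm_num) K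
    norm_num at this ⊢
    exact this
  rcases lt_or_gt_of_ne hne with h | h
  · rw [abs_of_pos (sub_pos.2 h)] at hδ
    refine ⟨fun k => k - ⌊ε * ((K - k : ℕ) : ℝ)⌋₊, fun k => Nat.sub_le _ _, ?_, ?_⟩
    · refine (sum_le_sum fun k _ => numer_a (ε := ε) (K - k) k).trans ?_
      rw [sum_add_distrib, ← mul_sum]
      have := numer_geo2 hσ0 hσ1 K
      linarith
    · rw [max_eq_left (sub_pos.2 h).le]
      have hK : (0 : ℝ) < ((2 : ℝ) ^ K) ^ (β - ρ) := by positivity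
      calc _ ≤ ∑ k ∈ range K, ((2 : ℝ) ^ (-δ)) ^ (K - k) * ((2 : ℝ) ^ K) ^ (β - ρ) := by
            refine sum_le_sum fun k hk => (numer_b hε0.le hρ.le (K - k) k).trans (le_of_eq ?_)
            rw [numer_pw, numer_pw', ← Real.rpow_add (by norm_num), hε,
              Nat.cast_sub (mem_range.1 hk).le]
            congr 1
            have : β - ρ = 2 * δ := by linarith
            rw [this]; ring
        _ = (∑ k ∈ range K, ((2 : ℝ) ^ (-δ)) ^ (K - k)) * ((2 : ℝ) ^ K) ^ (β - ρ) :=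
            (sum_mul _ _ _).symm
        _ ≤ _ := by
            refine mul_le_mul_of_nonneg_right ?_ hK.le
            have := numer_geo2 hτ0 hτ1 K
            linarith
  · rw [abs_of_neg (sub_neg.2 h)] at hδ
    refine ⟨fun k => k - ⌊ε * (k : ℝ)⌋₊, fun k => Nat.sub_le _ _, ?_, ?_⟩
    · refine (sum_le_sum fun k _ => numer_a (ε := ε) k k).trans ?_
      rw [sum_add_distrib, ← mul_sum]
      have := numer_geo1 hσ0 hσ1 K
      linarith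
    · rw [max_eq_right (sub_neg.2 h).le, Real.rpow_zero, mul_one]
      calc _ ≤ ∑ k ∈ range K, ((2 : ℝ) ^ (-δ)) ^ k := by
            refine sum_le_sum fun k _ => (numer_b hε0.le hρ.le k k).trans (le_of_eq ?_)
            rw [numer_pw, hε]
            congr 1
            have : β - ρ = -(2 * δ) := by linarith
            rw [this]; ring
        _ ≤ _ := by
            have := numer_geo1 hτ0 hτ1 K
            linarith

theorem choose_J2 {β ρ : ℝ} (hρ : 0 < ρ) : ∃ C : ℝ, 0 < C ∧ ∀ K : ℕ,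
    ∃ J : ℕ → ℕ, (∀ k, J k ≤ k) ∧ ∑ k ∈ range K, (2 : ℝ) ^ J k / 2 ^ k ≤ C ∧
      ∑ k ∈ range K, ((2 : ℝ) ^ k) ^ β * ((2 : ℝ) ^ (-ρ)) ^ J k ≤
        C * (((2 : ℝ) ^ K) ^ max (β - ρ) 0 * ((K : ℝ) + 1) ^ if ρ = β then 1 + ρ else 0) := by
  split_ifs with h
  swap
  · simpa only [Real.rpow_zero, mul_one] using choose_J hρ h
  subst h
  have h2 : (0 : ℝ) < 2 ^ ρ := by positivity
  refine ⟨3 + 2 ^ ρ, by positivity, fun K => ?_⟩
  set a := Nat.log 2 (K + 1) + 1 with ha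
  have h3 : (K : ℝ) + 1 ≤ 2 ^ a := by
    exact_mod_cast (Nat.lt_pow_succ_log_self one_lt_two (K + 1)).le
  have h4 : (2 : ℝ) ^ a ≤ 2 * (K + 1) := by
    rw [ha, pow_succ']
    exact_mod_cast Nat.mul_le_mul_left 2 (Nat.pow_log_le_self 2 (Nat.succ_ne_zero K))
  refine ⟨fun k => k - a, fun k => Nat.sub_le _ _, ?_, ?_⟩ <;> beta_reduce
  · refine (sum_le_sum (g := fun k => (1 / 2 : ℝ) ^ k + (2 ^ a)⁻¹) fun k _ => ?_).trans ?_
    · rcases le_total k a with h | h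
      · rw [Nat.sub_eq_zero_of_le h, pow_zero, one_div_pow]
        exact le_add_of_nonneg_right (by positivity)
      · rw [pow_sub₀ _ two_ne_zero h, mul_div_right_comm, div_self (by positivity), one_mul]
        exact le_add_of_nonneg_left (by positivity)
    · rw [sum_add_distrib, sum_const, card_range, nsmul_eq_mul]
      have h5 := sum_geometric_two_le K
      have h6 : (K : ℝ) * (2 ^ a)⁻¹ ≤ 1 := by
        rw [mul_inv_le_iff₀ (by positivity)]; linarith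
      linarith
  · rw [sub_self, max_self, Real.rpow_zero, one_mul]
    refine (sum_le_card_nsmul _ _ ((2 * ((K : ℝ) + 1)) ^ ρ) fun k _ => ?_).trans ?_
    · rw [Real.rpow_pow_comm zero_le_two, Real.rpow_neg (by positivity), ← div_eq_mul_inv,
        ← Real.div_rpow (by positivity) (by positivity)]
      refine Real.rpow_le_rpow (by positivity) (le_trans ?_ h4) hρ.le
      rw [div_le_iff₀ (by positivity), ← pow_add]
      exact pow_le_pow_right₀ one_le_two (by omega)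
    · rw [card_range, nsmul_eq_mul, Real.mul_rpow zero_le_two (by positivity),
        Real.rpow_add (by positivity), Real.rpow_one]
      have : (0 : ℝ) ≤ ((K : ℝ) + 1) ^ ρ := by positivity
      nlinarith [mul_nonneg h2.le this, mul_nonneg (Nat.cast_nonneg (α := ℝ) K) this]

end Pool.Agent.Lib.MP_919f0c_an.Det
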