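import Pool.Agent.Lib.MP_919f0c_an.Det.Van
import Pool.Agent.Lib.MP_919f0c_an.Det.Cells
import Pool.Agent.Lib.MP_919f0c_an.Det.Numer

/-! The upper bound at one level, `2 ≤ p < ∞`. -/

set_option autoImplicit false

open Finset MeasureTheory Filter Topology Pool.Agent.MixedBesov Pool.Agent.Lib.MP_919f0c_an.Up
open scoped Real ENNReal Matrix

namespace Pool.Agent.Lib.MP_919f0c_an.Det

open Pool.Agent.Lib.MP_919f0c_an.Lp

lemma choose_c {E a σ q : ℝ} (hE : 0 ≤ E) (ha : 0 < a) (hσ0 : 0 ≤ σ) (hσ1 : σ < 1) (hq : 0 < q)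
    (hq1 : q ≤ 1) : ∃ c : ℕ, 1 ≤ c ∧ ∀ n : ℕ, a ^ (n + 1) * (E * σ ^ (c * (n + 1))) ≤ q ^ n := by
  obtain ⟨c, hc1, hc⟩ := ((eventually_ge_atTop 1).and
    ((tendsto_pow_atTop_nhds_zero_of_lt_one hσ0 hσ1).eventually_le_const
      (show 0 < q / (E + 1) / a by positivity))).exists
  refine ⟨c, hc1, fun n => ?_⟩
  rw [le_div_iff₀ ha] at hc
  have h1 : q / (E + 1) ≤ q := div_le_self hq.le (by linarith)
  have h2 : E * (q / (E + 1)) ≤ 1 := by
    rw [← mul_div_assoc, div_le_one (by positivity)]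
    nlinarith
  calc _ = E * (σ ^ c * a) * (σ ^ c * a) ^ n := by rw [pow_mul, mul_pow]; ring
    _ ≤ 1 * q ^ n := by
        refine mul_le_mul ((mul_le_mul_of_nonneg_left hc hE).trans h2)
          (pow_le_pow_left₀ (by positivity) (hc.trans h1) n) (by positivity) zero_le_one
    _ = _ := one_mul _

lemma card_Jn_le (d m : ℕ) : (#(Jn d m) : ℝ) ≤ (2 ^ m) ^ d := by
  have h : #(Jn d m) ≤ (2 ^ m) ^ d := (card_filter_le _ _).trans (by
    rw [Fintype.card_piFinset, prod_const, card_range, card_univ, Fintype.card_fin]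
    exact Nat.pow_le_pow_left Nat.lt_two_pow_self d)
  exact_mod_cast h

/-- the level bound with abstract parameters -/
theorem level_aux {d k : ℕ} (hk : 0 < k) {P : ℝ≥0∞} [Fact (1 ≤ P)] {τ q q' ν K γ CJ : ℝ}
    {Ψ T₀ : ℕ → ℝ} (hp : 1 < P.toReal) (hp2 : 2 ≤ P.toReal ∨ 1 ≤ P.toReal ∧ d = 0)
    (hτ : 1 ≤ τ) (hτ2 : τ ≤ 2) (hq0 : 0 < q) (hqq : q ≤ q') (hq' : 1 / 2 < q')
    (hν0 : 0 < ν) (hν1 : ν < 1) (hqν : 2 ^ (1 / P.toReal) * q' ≤ ν ^ 2)
    (hK : 0 ≤ K) (hγ0 : 0 ≤ γ) (hγ1 : γ ≤ 1) (hCJ : 0 < CJ) (hT : ∀ n, 1 ≤ T₀ n)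
    (hΨ : ∀ c : ℕ, ∃ D : ℝ, 0 ≤ D ∧ ∀ n L : ℕ, 2 ^ L ≤ c * (n + 1) → Ψ L ^ d ≤ D * T₀ n)
    (HJ : ∀ L : ℕ, ∃ J : ℕ → ℕ, (∀ k, J k ≤ k) ∧ ∑ k ∈ range L, (2 : ℝ) ^ J k / 2 ^ k ≤ CJ ∧
      ∑ k ∈ range L, ((2 : ℝ) ^ k) ^ (1 - 1 / τ) * q' ^ J k ≤ Ψ L) :
    ∃ C : ℝ, 0 < C ∧ ∀ n : ℕ,
      ∃ (Ξ : Finset (Torus (d + 1))) (ψ : Torus (d + 1) → Torus (d + 1) → ℝ),
      (#Ξ : ℝ) ≤ C * (2 ^ n * (n + 1) ^ d) ∧ (∀ ξ, MemLp (ψ ξ) P volume) ∧
      ∀ (f : C(Torus (d + 1), ℝ)) (β : (Fin (d + 1) → ℕ) → ℝ),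
        (∀ l, Mod P k f l (β l)) → (∀ S : Finset (Fin (d + 1) → ℕ),
          ∑ l ∈ S, (q⁻¹ ^ (∑ i, l i) * β l) ^ τ ≤ K * (#S : ℝ) ^ γ) →
        eLpNorm (fun y => f y - ∑ ξ ∈ Ξ, ψ ξ y * f ξ) P volume ≤
          ENNReal.ofReal (C * (q ^ n * ((((n : ℝ) + 1) ^ d) ^ (γ / τ) * T₀ n))) := by
  classical
  set p := P.toReal
  set ρ := 2 ^ (1 / p) * q with hρ
  have hρ0 : 0 < ρ := by positivity
  have h2p : (1 : ℝ) ≤ 2 ^ (1 / p) := Real.one_le_rpow one_le_two (by positivity)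
  have hq : ρ < 1 := ((mul_le_mul_of_nonneg_left hqq (by positivity)).trans hqν).trans_lt
    (pow_lt_one₀ hν0.le hν1 two_ne_zero)
  have hq1 : q ≤ 1 := (le_mul_of_one_le_left hq0.le h2p).trans hq.le
  obtain ⟨Λ, hΛ, hχ⟩ := exists_prof k
  obtain ⟨C₂, hC₂, H₂⟩ := core hk hp (d + 1)
  obtain ⟨C₃, hC₃, H₃⟩ := zbound d hρ0.le hq hν0 hν1 hτ hK hγ0 hγ1
  set σ := √ρ
  have hσ0 : 0 < σ := Real.sqrt_pos.2 hρ0
  have hσ1 : σ < 1 := (Real.sqrt_lt' one_pos).2 (by simpa using hq)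
  have := sub_pos.2 hσ1
  obtain ⟨c₁, hc₁, Hc₁⟩ := choose_c (E := C₂ * C₃ * ((1 - σ)⁻¹) ^ (d + 1)) (a := 2 * 2 ^ d)
    (by positivity) (by positivity) hσ0.le hσ1 hq0 hq1
  obtain ⟨c₂, -, Hc₂⟩ := choose_c
    (E := k ^ (d + 1) * (Λ ^ (d + 1) * (C₂ * C₃) * ((d + 1) * Λ))) (a := (2 ^ c₁) ^ (d + 1))
    (σ := 1 / 2) (by positivity) (by positivity) (by norm_num) (by norm_num) hq0 hq1
  obtain ⟨C₁, hC₁, H₁⟩ := cells3 d (c₁ + c₂ + 1) hp2 hτ hτ2 hq' hν0 hν1 hqν (g := γ / τ)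
    (by positivity) hΛ (ι := Fin (d + 1) → Fin k)
    (χ := fun a i t => Lg k (a i) (k * t) / Λ) fun a i => hχ (a i)
  set A := (k : ℝ) ^ (d + 1) * (Λ ^ (d + 1) * (C₂ * (2 ^ (d + 1)) ^ (1 / p))) with hA
  obtain ⟨D, hD, HD⟩ := hΨ (2 * (c₁ + c₂ + 1))
  have hπ := Real.pi_pos
  refine ⟨(2 * k) ^ (d + 1) * 2 + (k + 1) ^ (d + 1) * (C₁ * CJ ^ d) +
    ((4 * π) ^ (d + 1)) ^ (1 / p) * (C₁ * (D * (A * C₃) + CJ ^ d) + 3), by positivity, fun n => ?_⟩
  have h1n : (1 : ℝ) ≤ (n + 1) ^ d := one_le_pow₀ (by simp)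
  obtain ⟨m, hmd⟩ : ∃ m, m = c₁ * (n + 1) := ⟨_, rfl⟩
  obtain ⟨j, hjd⟩ : ∃ j, j = c₂ * (n + 1) := ⟨_, rfl⟩
  have hnm : n ≤ m := by rw [hmd]; nlinarith
  have hm2 : 2 ^ n * (n + 1) ^ d * (C₂ * C₃ * ((1 - σ)⁻¹) ^ (d + 1) * σ ^ m) ≤ q ^ n := by
    refine le_trans ?_ (hmd ▸ Hc₁ n)
    have h1 : (n : ℝ) + 1 ≤ 2 ^ (n + 1) := by
      exact_mod_cast (Nat.lt_two_pow_self (n := n + 1)).le
    gcongr ?_ * _
    rw [mul_pow, ← pow_mul, mul_comm d, pow_mul]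
    gcongr
    · norm_num
    · omega
  have hj : #(Jn (d + 1) m) * (k ^ (d + 1) * (Λ ^ (d + 1) * (C₂ * C₃) *
      ((d + 1) * (Λ * (1 / 2) ^ j)))) ≤ q ^ n := by
    refine le_trans ?_ (hjd ▸ Hc₂ n)
    refine mul_le_mul ((card_Jn_le _ _).trans_eq ?_) (le_of_eq (by ring)) (by positivity)
      (by positivity)
    rw [hmd, ← pow_mul, ← pow_mul, ← pow_mul]
    congr 1; ring
  set ε := C₂ * C₃ * ((1 - σ)⁻¹) ^ (d + 1) * σ ^ m with hε
  have hε0 : 0 ≤ ε := by positivity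
  have hm : (n + 1) ^ d * ε ≤ q ^ n := by
    refine le_trans ?_ hm2
    gcongr
    exact le_mul_of_one_le_left (by positivity) (one_le_pow₀ one_le_two)
  set W := m + j with hW
  have hWc : W + 1 ≤ (c₁ + c₂ + 1) * (n + 1) := by rw [hW, hmd, hjd]; nlinarith
  obtain ⟨L, hL⟩ : ∃ L, L = Nat.log 2 (W + 1) + 1 := ⟨_, rfl⟩
  have hL1 : W + 1 < 2 ^ L := hL ▸ Nat.lt_pow_succ_log_self one_lt_two _
  have hL2 : 2 ^ L ≤ 2 * (W + 1) := by
    rw [hL, pow_succ']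
    exact Nat.mul_le_mul_left _ (Nat.pow_log_le_self 2 (by omega))
  have hL3 : L ≤ (c₁ + c₂ + 1) * (n + 1) := by
    have := Nat.log_lt_self 2 (x := W + 1) (by omega)
    omega
  obtain ⟨J, hJ1, hJ2, hJ3⟩ := HJ L
  have hB := HD n L (by rw [mul_assoc]; omega)
  obtain ⟨M, Z, hZ, hM, H⟩ := H₁ n W L hL1 hL3 J CJ _ hJ1 hJ2 hJ3
  choose Ξ hΞ1 hΞ2 hΞ3 using fun (z : Gd fun _ : Fin (d + 1) => W) => Res_mem k n 0 (gp z)
  set Ξ₀ := (Lam (d + 1) k n).image xi ∪ Z.biUnion Ξ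
  choose w hw using fun ν : Gd fun _ : Fin (d + 1) => W =>
    (Submodule.mem_span_image_finset_iff_exists_fun' ℝ).1 (show (fun f => Tn k n f (gp ν)) +
      ∑ z, M ν z • Res k n 0 (fun i => rep (gp z i)) ∈ Sp Ξ₀ from
      Submodule.add_mem _ (Sp_mono subset_union_left (hΞ3 ν))
        (Submodule.sum_mem _ fun z _ => by
          by_cases hz : z ∈ Z
          · exact Submodule.smul_mem _ _ (Sp_mono (union_subset_union_right
              (subset_biUnion_of_mem _ hz)) (hΞ2 z))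
          · rw [hM ν z hz, zero_smul]; exact Submodule.zero_mem _))
  refine ⟨Ξ₀, fun ξ y => w (cx W y) ξ, ?_, fun ξ => MemLp.of_bound
    (measurable_cx W fun ν => w ν ξ).aestronglyMeasurable (∑ ν, ‖w ν ξ‖) (Eventually.of_forall
      fun y => single_le_sum (f := fun ν => ‖w ν ξ‖) (fun _ _ => norm_nonneg _) (mem_univ _)),
    fun f β hβ hS => ?_⟩
  · have h1 : #Ξ₀ ≤ (2 * k) ^ (d + 1) * 2 * (2 ^ n * (n + 1) ^ d) + (k + 1) ^ (d + 1) * #Z :=
      (card_union_le _ _).trans (add_le_add (card_image_le.trans (card_Lam d k n))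
        ((card_biUnion_le_card_mul _ _ _ fun z _ => hΞ1 z).trans_eq (mul_comm _ _)))
    have h2 : (#Ξ₀ : ℝ) ≤ (2 * k) ^ (d + 1) * 2 * (2 ^ n * (n + 1) ^ d) +
        (k + 1) ^ (d + 1) * (#Z : ℝ) := by exact_mod_cast h1
    rw [add_mul, add_mul, mul_assoc _ (C₁ * CJ ^ d)]
    exact (h2.trans (by gcongr)).trans (le_add_of_nonneg_right (by positivity))
  obtain ⟨b, hb0, hb1, hb2, hb3⟩ := H₃ _ (fun l => mul_nonneg (by positivity) (mod_nonneg (hβ l))) hS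
  have hb : ∀ s (U : Finset (Fin (d + 1) → ℕ)),
      ∑ u ∈ U, (2 ^ (1 / p)) ^ (∑ i, u i) * β (s + u) ≤ q ^ (∑ i, s i) * b s := fun s U => by
    refine le_trans (le_of_eq ?_) (mul_le_mul_of_nonneg_left (hb2 s U) (by positivity))
    rw [mul_sum]
    refine sum_congr rfl fun u _ => ?_
    simp only [hρ, Pi.add_apply, sum_add_distrib, pow_add, mul_pow, inv_pow]
    field_simp
  have hsup : ∀ (s : Fin (d + 1) → ℕ) (y : Fin (d + 1) → ℝ) (ν : Fin (d + 1) → ℕ),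
      (∀ i, ⌊y i / hh (s i - 1)⌋ = ν i ∧ ν i < 2 ^ (s i - 1)) →
      |qs k f s y| ≤ C₂ * C₃ * ρ ^ ∑ i, s i := fun s y ν hν => by
    refine (abs_le_nm (by linarith) (fun _ : Unit => qs k f s y) ()).trans ((H₂ f β s (fun _ => y)
      (fun _ => ν) 1 _ hβ zero_le_one (fun _ i => (hν i).1) (fun _ i => (hν i).2)
      (fun _ => by simp) (hb s)).trans ?_)
    rw [one_mul, ← Real.rpow_pow_comm zero_le_two, hρ, mul_pow]
    calc _ ≤ C₂ * (2 ^ (1 / p)) ^ (∑ i, s i) * (q ^ (∑ i, s i) * C₃) := by gcongr; exact hb1 s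
      _ = _ := by ring
  have hres : ∀ u (x : Torus (d + 1)), |Res k m u (fun i => rep (x i)) f| ≤ ε := fun u x => by
    refine Res_le hk m u _ f fun L => (sum_le_sum (g := fun s => C₂ * C₃ * σ ^ m * σ ^ ∑ i, s i)
      fun s hs => ?_).trans ?_
    · choose ν h1 h2 using fun i => floor_rep (x i) (s i - 1)
      refine (hsup s _ ν fun i => ⟨h2 i, mem_range.1 (h1 i)⟩).trans ?_
      rw [← Real.mul_self_sqrt hρ0.le, mul_pow, ← mul_assoc]
      gcongr _ * ?_ * _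
      exact pow_le_pow_of_le_one hσ0.le hσ1.le (mem_filter.1 hs).2.le
    · rw [← mul_sum]
      exact (mul_le_mul_of_nonneg_left (sum_geom_pi hσ0.le hσ1 _) (by positivity)).trans_eq
        (by rw [hε]; ring)
  have hJ : ∀ s ∈ Jn (d + 1) m, ∀ i, s i ≤ m := fun s hs i =>
    (single_le_sum (f := s) (fun _ _ => Nat.zero_le _) (mem_univ i)).trans (mem_Jn.1 hs)
  have hblock : ∀ s ∈ Jn (d + 1) m, ∀ (ν : Gd fun _ : Fin (d + 1) => W) (t : Fin (d + 1) → ℝ),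
      (∀ i, 0 ≤ t i) → (∀ i, t i < 1) → qs k f s (fun i => ((ν i : ℕ) + t i) * hh W) =
        ∑ a : Fin (d + 1) → Fin k, Λ ^ (d + 1) * qs k f s (nd s a ν) *
          ∏ i, Lg k (a i) (k * (tl (W - s i) (ν i) + t i / 2 ^ (W - s i))) / Λ := by
    intro s hs ν t h0 h1
    rw [qs_block hk f (fun i => (hJ s hs i).trans (by omega)) ν h0 h1]
    refine sum_congr rfl fun a _ => ?_
    rw [prod_div_distrib, prod_const, card_univ, Fintype.card_fin]
    field_simp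
  let γ₀ := fun (s : Fin (d + 1) → ℕ) (a : Fin (d + 1) → Fin k) (ν : Gd fun _ : Fin (d + 1) => W) =>
    Λ ^ (d + 1) * qs k f s (nd s a ν)
  have hS' : ∀ s ∈ Jn (d + 1) m \ Jn (d + 1) n, n < ∑ i, s i := fun s hs =>
    not_le.1 fun h => (mem_sdiff.1 hs).2 (mem_Jn.2 h)
  have hgs : ∀ s ∈ Jn (d + 1) m, ∀ x, gs (fun a i t => Lg k (a i) (k * t) / Λ) γ₀ s x =
      qs k f s fun i => rep (gp x i) := fun s hs x => by
    simp only [rep_gp]
    rw [hblock s hs x _ (fun _ => le_rfl) fun _ => one_pos]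
    simp [gs, pf, γ₀]
  have hFc : ∀ x, |Res k n 0 (fun i => rep (gp x i)) f - (∑ s ∈ Jn (d + 1) m \ Jn (d + 1) n,
      gs (fun a i t => Lg k (a i) (k * t) / Λ) γ₀ s) x| ≤ ε := fun x => by
    refine le_trans (le_of_eq ?_) (hres 0 (gp x))
    rw [← Res_sub hnm, Finset.sum_apply, filter_true_of_mem fun _ _ => zero_le]
    congr 2
    exact sum_congr rfl fun s hs => hgs s (mem_sdiff.1 hs).1 x
  set V := nm p (1 : (Gd fun _ : Fin (d + 1) => W) → ℝ) with hV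
  have hV' : V = (2 ^ ((d + 1) * W)) ^ (1 / p) := by
    rw [hV, nm_one]; simp [← pow_mul, mul_comm]
  have hV0 : 0 ≤ V := nm_nonneg _ _
  have hnorm : ∀ s ∈ Jn (d + 1) m \ Jn (d + 1) n,
      ∑ a, nm p (γ₀ s a) ≤ q' ^ (∑ i, s i - n) * (A * V * q ^ n * b s) := fun s hs => by
    have h1 : ∀ i, s i ≤ W := fun i => (hJ s (mem_sdiff.1 hs).1 i).trans (by omega)
    have h2 : (2 : ℝ) ^ (∑ i, (W - (s i - 1))) * 2 ^ ∑ i, s i ≤ 2 ^ (d + 1) * 2 ^ ((d + 1) * W) := by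
      rw [← pow_add, ← pow_add, ← sum_add_distrib]
      refine pow_le_pow_right₀ one_le_two ((sum_le_card_nsmul _ _ (W + 1) fun i _ => ?_).trans
        (by simp [mul_add, add_comm]))
      have := h1 i; omega
    have h3 := sum_le_card_nsmul univ (fun a => nm p (γ₀ s a)) _ fun a _ =>
      (nm_smul_le (c := Λ ^ (d + 1)) (by linarith) (by positivity) fun x => by
        simp only [γ₀]; rw [abs_mul, abs_of_nonneg (by positivity)]).trans
      (mul_le_mul_of_nonneg_left (H₂ f β s (nd s a) _ (2 ^ ∑ i, (W - (s i - 1))) _ hβ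
        (by positivity) (fun x i => (floor_nd h1 a x i).1) (fun x i => (floor_nd h1 a x i).2)
        (fun x => by rw [card_bx fun i => Nat.sub_le _ _]; simp) (hb s)) (by positivity))
    simp only [card_univ, Fintype.card_pi, Fintype.card_fin, prod_const, nsmul_eq_mul,
      Nat.cast_pow] at h3
    have := hb0 s
    calc _ ≤ k ^ (d + 1) * (Λ ^ (d + 1) * (C₂ *
          (2 ^ (d + 1) * 2 ^ ((d + 1) * W)) ^ (1 / p) * (q ^ (∑ i, s i) * b s))) :=
          h3.trans (by gcongr)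
      _ = q ^ (∑ i, s i - n) * (A * V * q ^ n * b s) := by
          rw [Real.mul_rpow (by positivity) (by positivity), ← hV', hA,
            show q ^ ∑ i, s i = q ^ n * q ^ (∑ i, s i - n) by
              rw [← pow_add, Nat.add_sub_cancel' (hS' s hs).le]]
          ring
      _ ≤ _ := by gcongr
  have main := H (Jn (d + 1) m \ Jn (d + 1) n) γ₀ (fun x => Res k n 0 (fun i => rep (gp x i)) f)
    (fun s => A * V * q ^ n * b s) (A * V * q ^ n * C₃) ε hε0 (by positivity)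
    (fun s => mul_nonneg (by positivity) (hb0 s)) (fun s hs => ⟨hS' s hs, fun a x y hxy => by
        simp only [γ₀]; unfold nd; rw [hxy], fun x i h0 h => by
        rw [hgs s (mem_sdiff.1 hs).1]
        exact qs_van hk f x ((hJ s (mem_sdiff.1 hs).1 i).trans (by omega)) h0 h, hnorm s hs⟩)
    (fun N U _ hU => by
      refine (lp_mono U (by linarith) (c := A * V * q ^ n) (by positivity)
        (b := fun s => ν ^ (∑ i, s i - N) * b s)
        (fun s => mul_nonneg (by positivity) (mul_nonneg (by positivity) (hb0 s)))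
        (fun s => mul_nonneg (by positivity) (hb0 s)) fun s _ => le_of_eq (by ring)).trans ?_
      rw [mul_assoc _ C₃]
      exact mul_le_mul_of_nonneg_left (hb3 N U hU) (by positivity)) hFc
  set g := (fun x => Res k n 0 (fun i => rep (gp x i)) f) -
    M *ᵥ fun x => Res k n 0 (fun i => rep (gp x i)) f with hg
  have hdisc : ∀ y, |f y - f (gp (cx W y))| ≤ 3 * q ^ n := fun y => by
    have h1 := hres 0 y
    have h2 := hres 0 (gp (cx W y))
    simp only [Res_zero, coe_rep] at h1 h2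
    have h3 : |∑ s ∈ Jn (d + 1) m, (qs k f s fun i => rep (y i)) -
        ∑ s ∈ Jn (d + 1) m, qs k f s fun i => rep (gp (cx W y) i)| ≤ q ^ n := by
      rw [← sum_sub_distrib]
      refine (abs_sum_le_sum_abs _ _).trans ((sum_le_card_nsmul _ _ _ fun s hs => ?_).trans
        ((nsmul_eq_mul _ _).trans_le hj))
      have h1 : ∀ i, s i ≤ W := fun i => (hJ s hs i).trans (by omega)
      rw [funext (cx_spec W y), funext (rep_gp _), hblock s hs _ _ (fun _ => Int.fract_nonneg _)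
        fun _ => Int.fract_lt_one _, hblock s hs _ _ (fun _ => le_rfl) fun _ => one_pos,
        ← sum_sub_distrib]
      refine (abs_sum_le_sum_abs _ _).trans ((sum_le_card_nsmul _ _ (Λ ^ (d + 1) * (C₂ * C₃) *
        ((d + 1) * (Λ * (1 / 2) ^ j))) fun a _ => ?_).trans (by simp))
      have h4 : ∀ (i) (t : ℝ), 0 ≤ t → t < 1 →
          tl (W - s i) (cx W y i) + t / 2 ^ (W - s i) ∈ Set.Icc (0 : ℝ) 1 := fun i t h0 h2 => by
        rw [← (floor_loc (h1 i) _ h0 h2).2]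
        exact ⟨Int.fract_nonneg _, (Int.fract_lt_one _).le⟩
      have h5 := fun i => h4 i _ (Int.fract_nonneg (rep (y i) / hh W)) (Int.fract_lt_one _)
      have h6 := fun i => h4 i _ le_rfl one_pos
      rw [← mul_sub, abs_mul, abs_mul, abs_of_nonneg (a := Λ ^ (d + 1)) (by positivity)]
      refine mul_le_mul (mul_le_mul_of_nonneg_left ((hsup s _ _ (floor_nd h1 a _)).trans
        (mul_le_of_le_one_right (by positivity) (pow_le_one₀ hρ0.le hq.le))) (by positivity))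
        ((abs_prod_sub _ (fun i => (hχ (a i)).bd _ (h5 i)) fun i => (hχ (a i)).bd _ (h6 i)).trans
          ((sum_le_card_nsmul _ _ (Λ * (1 / 2) ^ j) fun i _ => ((hχ (a i)).lip _ (h5 i) _
            (h6 i)).trans (mul_le_mul_of_nonneg_left ?_ (by linarith))).trans (by simp)))
        (abs_nonneg _) (by positivity)
      have h7 := Int.fract_nonneg (rep (y i) / hh W)
      have h8 := hJ s hs i
      rw [zero_div, add_zero, add_sub_cancel_left, abs_of_nonneg (by positivity), div_pow, one_pow]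
      exact div_le_div₀ zero_le_one (Int.fract_lt_one _).le (by positivity)
        (pow_le_pow_right₀ one_le_two (by omega))
    have h4 := le_mul_of_one_le_left hε0 h1n
    rw [abs_le] at *
    constructor <;> linarith
  refine (eLp_cx hp (h := (fun x => |g x|) + fun _ => 3 * q ^ n) fun y => ?_).trans
    (ENNReal.ofReal_le_ofReal ?_)
  · have h1 := congrFun (hw (cx W y)) f
    simp only [Finset.sum_apply, Pi.smul_apply, smul_eq_mul, Pi.add_apply] at h1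
    have h2 : f y - ∑ ξ ∈ Ξ₀, w (cx W y) ξ * f ξ = g (cx W y) + (f y - f (gp (cx W y))) := by
      rw [h1, hg, Pi.sub_apply, Res_zero]
      simp only [coe_rep, Tn, Dj, qs, Matrix.mulVec, dotProduct]
      ring
    rw [h2]
    exact (abs_add_le _ _).trans ((add_le_add le_rfl (hdisc y)).trans (le_abs_self _))
  have h1 : nm p ((fun x => |g x|) + fun _ => 3 * q ^ n) ≤ nm p g + 3 * q ^ n * V :=
    (nm_add hp.le _ _).trans (add_le_add (nm_mono (by linarith) fun x => by simp)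
      (nm_smul_le (by linarith) (by positivity) fun x => by simp [abs_of_pos hq0]))
  have h2 : ((2 * hh W) ^ (d + 1)) ^ (1 / p) * V = ((4 * π) ^ (d + 1)) ^ (1 / p) := by
    have := hh_pos W
    rw [hV', ← Real.mul_rpow (by positivity) (by positivity), mul_comm (d + 1), pow_mul, ← mul_pow]
    congr 2
    unfold hh; field_simp; norm_num
  have h3 : 1 ≤ (((n : ℝ) + 1) ^ d) ^ (γ / τ) := Real.one_le_rpow h1n (by positivity)
  have h3' := hT n
  have := hh_pos W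
  generalize (((n : ℝ) + 1) ^ d) ^ (γ / τ) = X at *
  generalize T₀ n = T at *
  have h4 : q ^ n * V ≤ q ^ n * (X * T) * V := by
    gcongr; exact le_mul_of_one_le_right (by positivity) (one_le_mul_of_one_le_of_one_le h3 h3')
  have h5 : CJ ^ d * (2 ^ n * (n + 1) ^ d) * ε * V ≤ CJ ^ d * (q ^ n * (X * T) * V) := by
    rw [mul_assoc (CJ ^ d), mul_assoc (CJ ^ d)]
    exact mul_le_mul_of_nonneg_left ((mul_le_mul_of_nonneg_right hm2 hV0).trans h4) (by positivity)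
  calc _ ≤ ((2 * hh W) ^ (d + 1)) ^ (1 / p) * (C₁ * (D * T * (A * V * q ^ n * C₃ * X) +
        CJ ^ d * (q ^ n * (X * T) * V)) + 3 * (q ^ n * (X * T) * V)) := by
        gcongr
        exact h1.trans (add_le_add (main.trans (mul_le_mul_of_nonneg_left (add_le_add
          (mul_le_mul_of_nonneg_right hB (by positivity)) h5) hC₁.le)) (by linarith))
    _ = ((2 * hh W) ^ (d + 1)) ^ (1 / p) * V * (C₁ * (D * (A * C₃) + CJ ^ d) + 3) *
        (q ^ n * (X * T)) := by ring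
    _ ≤ _ := by
        rw [h2]
        gcongr
        exact le_add_of_nonneg_left (by positivity)

lemma one_le_log (n : ℕ) : 1 ≤ Real.log (n + 3) := by
  rw [Real.le_log_iff_exp_le (by positivity)]
  linarith [Real.exp_one_lt_d9, Nat.cast_nonneg (α := ℝ) n]

lemma scale_le_log {c n L : ℕ} (h : 2 ^ L ≤ c * (n + 1)) :
    (L : ℝ) + 1 ≤ (2 * c + 3) * Real.log (n + 3) := by
  have h1 : (2 : ℝ) ^ L ≤ (c + 1) * (n + 3) := by
    have : (2 : ℝ) ^ L ≤ c * (n + 1) := by exact_mod_cast h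
    nlinarith [Nat.cast_nonneg (α := ℝ) n, Nat.cast_nonneg (α := ℝ) c]
  have h2 := Real.log_le_log (by positivity) h1
  rw [Real.log_pow, Real.log_mul (by positivity) (by positivity)] at h2
  have h3 := Real.log_le_sub_one_of_pos (show (0 : ℝ) < c + 1 by positivity)
  have h4 := one_le_log n
  nlinarith [Real.log_two_gt_d9, Nat.cast_nonneg (α := ℝ) L,
    mul_le_mul_of_nonneg_left h4 (Nat.cast_nonneg (α := ℝ) c)]

theorem level_det {d k : ℕ} (hk : 0 < k) {P : ℝ≥0∞} [Fact (1 ≤ P)] {τ r K γ : ℝ}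
    (hp1 : 1 < P.toReal) (hp : 2 ≤ P.toReal ∨ 1 ≤ P.toReal ∧ d = 0) (h1 : 1 ≤ τ) (h2 : τ ≤ 2)
    (hr : 1 / P.toReal < r) (hK : 0 ≤ K) (hγ0 : 0 ≤ γ) (hγ1 : γ ≤ 1) : ∃ C : ℝ, 0 < C ∧ ∀ n : ℕ,
      ∃ (Ξ : Finset (Torus (d + 1))) (ψ : Torus (d + 1) → Torus (d + 1) → ℝ),
      (#Ξ : ℝ) ≤ C * (2 ^ n * (n + 1) ^ d) ∧ (∀ ξ, MemLp (ψ ξ) P volume) ∧
      ∀ (f : C(Torus (d + 1), ℝ)) (β : (Fin (d + 1) → ℕ) → ℝ),
        (∀ l, Mod P k f l (β l)) → (∀ S : Finset (Fin (d + 1) → ℕ),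
          ∑ l ∈ S, (((2 : ℝ) ^ (-r))⁻¹ ^ (∑ i, l i) * β l) ^ τ ≤ K * (#S : ℝ) ^ γ) →
        eLpNorm (fun y => f y - ∑ ξ ∈ Ξ, ψ ξ y * f ξ) P volume ≤
          ENNReal.ofReal (C * (((2 : ℝ) ^ (-r)) ^ n *
            (((n : ℝ) + 1) ^ d) ^ (γ / τ + max (1 - 1 / τ - r) 0) *
              Real.log (n + 3) ^ (d * if r = 1 - 1 / τ then 1 + r else 0))) := by
  have hp0 : 0 < P.toReal := by linarith
  have hp' : 1 / P.toReal < 1 := (div_lt_one hp0).2 hp1
  have hτ' : 1 / 2 ≤ 1 / τ := one_div_le_one_div_of_le (by linarith) h2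
  have hr0 : 0 < r := (one_div_pos.2 hp0).trans hr
  obtain ⟨r₀, b1, b2⟩ := exists_between (max_lt hp' (show (1 : ℝ) / 2 < 1 by norm_num))
  obtain ⟨b3, b4⟩ := max_lt_iff.1 b1
  obtain ⟨r', hr'⟩ : ∃ r', r' = min r r₀ := ⟨_, rfl⟩
  have a1 : r' ≤ r := hr' ▸ min_le_left _ _
  have a2 : r' ≤ r₀ := hr' ▸ min_le_right _ _
  have a3 : 1 / P.toReal < r' := hr' ▸ lt_min hr b3
  have a4 : (if r' = 1 - 1 / τ then 1 + r' else 0) = (if r = 1 - 1 / τ then 1 + r else 0) ∧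
      max (1 - 1 / τ - r') 0 = max (1 - 1 / τ - r) 0 := by
    rcases le_total r r₀ with h | h
    · rw [hr', min_eq_left h]; exact ⟨rfl, rfl⟩
    · rw [hr', min_eq_right h, max_eq_right (by linarith), max_eq_right (by linarith),
        if_neg (ne_of_gt (by linarith)), if_neg (ne_of_gt (by linarith))]
      exact ⟨rfl, rfl⟩
  obtain ⟨CJ, hCJ, HJ⟩ := choose_J2 (β := 1 - 1 / τ) ((one_div_pos.2 hp0).trans a3)
  rw [a4.1, a4.2] at HJ
  have a5 : (2 : ℝ) ^ (1 / P.toReal) * 2 ^ (-r') < 1 := by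
    rw [← Real.rpow_add two_pos]
    exact Real.rpow_lt_one_of_one_lt_of_neg one_lt_two (by linarith)
  have a6 : (1 : ℝ) / 2 < 2 ^ (-r') := by
    rw [one_div, ← Real.rpow_neg_one]
    exact Real.rpow_lt_rpow_of_exponent_lt one_lt_two (by linarith)
  have a7 : 0 ≤ if r = 1 - 1 / τ then 1 + r else 0 := by split_ifs <;> positivity
  have a8 := le_max_right (1 - 1 / τ - r) 0
  generalize (if r = 1 - 1 / τ then 1 + r else 0) = a at *
  generalize max (1 - 1 / τ - r) 0 = e at *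
  have a9 : ∀ n : ℕ, ((2 : ℝ) ^ (-r)) ^ n * (((n : ℝ) + 1) ^ d) ^ (γ / τ + e) *
      Real.log (n + 3) ^ (d * a) = ((2 : ℝ) ^ (-r)) ^ n * ((((n : ℝ) + 1) ^ d) ^ (γ / τ) *
        ((((n : ℝ) + 1) ^ d) ^ e * Real.log (n + 3) ^ (d * a))) := fun n => by
    rw [Real.rpow_add (by positivity)]; ring
  simp only [a9]
  exact level_aux hk hp1 hp h1 h2 (by positivity)
    (Real.rpow_le_rpow_of_exponent_le one_le_two (neg_le_neg a1)) a6
    (ν := √(2 ^ (1 / P.toReal) * 2 ^ (-r'))) (Real.sqrt_pos.2 (by positivity))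
    ((Real.sqrt_lt' one_pos).2 (by simpa using a5)) (Real.sq_sqrt (by positivity)).ge hK hγ0 hγ1
    hCJ (fun n => one_le_mul_of_one_le_of_one_le (Real.one_le_rpow (one_le_pow₀ (by simp)) a8)
      (Real.one_le_rpow (one_le_log n) (by positivity)))
    (fun c => ⟨CJ ^ d * (((c : ℝ) ^ d) ^ e * (2 * c + 3) ^ (d * a)), by positivity,
      fun n L h => by
      have h1 : (2 : ℝ) ^ L ≤ c * (n + 1) := by exact_mod_cast h
      have h3 := scale_le_log h
      have h4 := one_le_log n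
      rw [mul_assoc, mul_mul_mul_comm, ← Real.mul_rpow (by positivity) (by positivity),
        ← Real.mul_rpow (by positivity) (by positivity), ← mul_pow, mul_pow CJ, mul_pow,
        Real.rpow_pow_comm (by positivity), Real.rpow_pow_comm (by positivity),
        Real.rpow_natCast_mul (by positivity)]
      gcongr⟩) HJ

end Pool.Agent.Lib.MP_919f0c_an.Det
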