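import Pool.Agent.Lib.MP_919f0c_an.LpLower2

/-! The lower bound by boxes free of sample points. -/

set_option autoImplicit false

open Finset MeasureTheory Filter Pool.Agent.MixedBesov
open scoped Real ENNReal

namespace Pool.Agent.Lib.MP_919f0c_an.Det

open Pool.Agent.Lib.MP_919f0c_an.Lp

theorem free_level (d k : ℕ) {r : ℝ} (hr : 0 < r) (hk : r < k) {P : ℝ≥0∞} (hp : 1 < P.toReal) :
    ∃ c : ℝ, 0 < c ∧ ∀ (𝕜 : Type*) [RCLike 𝕜] (θ : ℝ≥0∞), 1 ≤ θ →
      ∀ (n : ℕ) (𝒮 : Finset (Fin d → ℕ)), (∀ s ∈ 𝒮, ∑ i, s i = n) → 0 < #𝒮 →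
      ∀ m : ℕ, 2 * m ≤ 2 ^ n →
      ENNReal.ofReal (c * (((2 : ℝ) ^ n) ^ (-r) * (#𝒮 : ℝ) ^ (1 - (1 / θ).toReal))) ≤
        samplingNumber (besovBall 𝕜 d k r P θ) P m := by
  classical
  have hπ := Real.pi_pos
  have hP : 1 ≤ P := by
    rw [← ENNReal.ofReal_one]; exact ENNReal.ofReal_le_of_le_toReal hp.le
  obtain ⟨C₁, hC₁, hdiff⟩ := diff_p d k hp
  obtain ⟨C₂, hC₂, hbes⟩ := exists_besov_bound d k hr hk
  set V : ℝ := (2 * π) ^ d with hV
  have hV0 : 0 < V := by positivity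
  refine ⟨π ^ d / 2 / (C₁ * V ^ (1 / P.toReal) * C₂) / V ^ (1 - 1 / P.toReal), by positivity,
    fun 𝕜 _ θ hθ n 𝒮 h𝒮 hS m hm => le_iInf fun x => le_iInf fun ψ => le_iInf fun _ => ?_⟩
  have hS' : (0 : ℝ) < #𝒮 := by exact_mod_cast hS
  set D := C₁ * V ^ (1 / P.toReal) * (C₂ * (2 ^ n) ^ r * (#𝒮 : ℝ) ^ (1 / θ).toReal) with hD
  have hD0 : 0 < D := by positivity
  let a : Idx 𝒮 → ℝ := fun α =>
    if α.2 ∈ univ.image (fun j => cellT α.1.1 (x j)) then 0 else D⁻¹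
  have ha0 : ∀ α, 0 ≤ a α := fun α => by simp only [a]; split_ifs <;> positivity
  have ha1 : ∀ α, |a α| ≤ D⁻¹ := fun α => by
    rw [abs_of_nonneg (ha0 α)]; simp only [a]; split_ifs
    · positivity
    · exact le_rfl
  have hcard : ∀ s : 𝒮, Fintype.card (Pos s.1) = 2 ^ n := fun s => by rw [card_Pos, h𝒮 s.1 s.2]
  have hmem : testFn 𝕜 a ∈ besovBall 𝕜 d k r P θ := by
    refine (hbes 𝕜 P θ hθ n 𝒮 h𝒮 (D⁻¹ * (C₁ * V ^ (1 / P.toReal))) (by positivity) _
      fun e h => (hdiff 𝕜 n 𝒮 𝒮 h𝒮 a (D⁻¹ * (2 ^ n) ^ (1 / P.toReal)) (by positivity)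
        (fun α hα => absurd α.1.2 hα) (fun s => ?_) e h).trans_eq ?_).trans ?_
    · refine (sum_le_sum fun κ _ => Real.rpow_le_rpow (abs_nonneg _) (ha1 _) (by linarith)).trans
        (le_of_eq ?_)
      rw [sum_const, card_univ, hcard, nsmul_eq_mul, Real.mul_rpow (by positivity) (by positivity),
        one_div, Real.rpow_inv_rpow (by positivity) (by linarith)]
      push_cast
      ring
    · rw [Real.div_rpow hV0.le (by positivity)]
      congr 2
      field_simp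
    · rw [ENNReal.ofReal_le_one, mul_assoc, inv_mul_le_one₀ hD0]
  have hz : ∀ j, testFn 𝕜 a (x j) = 0 := fun j => by
    simp only [testFn, ContinuousMap.coe_mk, RCLike.ofReal_eq_zero]
    refine sum_eq_zero fun α _ => ?_
    by_cases h : cellT α.1.1 (x j) = α.2
    · simp only [a]
      rw [if_pos (mem_image.2 ⟨j, mem_univ _, h⟩), zero_mul]
    · rw [psiT_eq_zero _ _ _ h, mul_zero]
  refine le_trans ?_ (le_iSup₂_of_le (f := fun (f : C(Torus d, 𝕜))
    (_ : f ∈ besovBall 𝕜 d k r P θ) => eLpNorm (fun y => f y - ∑ j, f (x j) * ψ j y) P volume)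
    _ hmem le_rfl)
  simp only [hz, zero_mul, sum_const_zero, sub_zero]
  have hi : ∀ α : Idx 𝒮, Integrable fun y => a α * psiT α.1.1 α.2 y := fun α =>
    ((continuous_psiT _ _).integrable_of_hasCompactSupport
      (HasCompactSupport.of_compactSpace _)).const_mul _
  have hI : #𝒮 * (D⁻¹ * (π ^ d / 2)) ≤ ∫ y, ∑ α : Idx 𝒮, a α * psiT α.1.1 α.2 y := by
    rw [integral_finsetSum _ fun α _ => hi α, Fintype.sum_sigma, ← nsmul_eq_mul, ← sum_const,
      ← sum_coe_sort 𝒮]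
    refine sum_le_sum fun s _ => le_trans ?_ (sum_le_sum (f := fun κ : Pos s.1 =>
      a ⟨s, κ⟩ * (π ^ d / 2 ^ n)) fun κ _ => ?_)
    · have h1 : #(univ.image fun j => cellT s.1 (x j)) ≤ m := card_image_le.trans (by simp)
      have h2 : 2 ^ n ≤ 2 * #((univ.image fun j => cellT s.1 (x j))ᶜ) := by
        rw [card_compl, hcard]; omega
      have h3 : (2 : ℝ) ^ n ≤ 2 * #((univ.image fun j => cellT s.1 (x j))ᶜ) := by
        exact_mod_cast h2
      have e1 : ∑ κ ∈ univ.image fun j => cellT s.1 (x j), a ⟨s, κ⟩ = 0 :=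
        sum_eq_zero fun κ hκ => if_pos hκ
      have e2 : ∑ κ ∈ (univ.image fun j => cellT s.1 (x j))ᶜ, a ⟨s, κ⟩ =
          ∑ _κ ∈ (univ.image fun j => cellT s.1 (x j))ᶜ, D⁻¹ :=
        sum_congr rfl fun κ hκ => if_neg (mem_compl.1 hκ)
      rw [← sum_mul, ← sum_add_sum_compl (univ.image fun j => cellT s.1 (x j)), e1, zero_add, e2,
        sum_const, nsmul_eq_mul]
      generalize ((#((univ.image fun j => cellT s.1 (x j))ᶜ) : ℕ) : ℝ) = F at h3
      have h4 : π ^ d / 2 ≤ F * π ^ d / 2 ^ n := by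
        rw [div_le_div_iff₀ two_pos (pow_pos two_pos n)]
        nlinarith [pow_pos hπ d]
      exact (mul_le_mul_of_nonneg_left h4 (inv_pos.2 hD0).le).trans_eq (by ring)
    · rw [integral_const_mul, ← h𝒮 s.1 s.2]
      exact mul_le_mul_of_nonneg_left (integral_psiT_ge _ _) (ha0 _)
  have hμ : (volume : Measure (Torus d)) Set.univ = ENNReal.ofReal V := by
    rw [← ofReal_measureReal, ← Set.pi_univ Set.univ, real_pi]
    simp [Measure.real, ENNReal.toReal_ofReal hπ.le, hV]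
  have h1 := eLpNorm_le_eLpNorm_mul_rpow_measure_univ (μ := volume) hP
    (testFn 𝕜 a).continuous.aestronglyMeasurable
  rw [hμ, ENNReal.toReal_one, div_one, ENNReal.ofReal_rpow_of_pos hV0,
    eLpNorm_one_eq_lintegral_enorm] at h1
  have h2 : ENNReal.ofReal (#𝒮 * (D⁻¹ * (π ^ d / 2))) ≤ ∫⁻ y, ‖testFn 𝕜 a y‖ₑ := by
    refine (ENNReal.ofReal_le_ofReal hI).trans ?_
    rw [ofReal_integral_eq_lintegral_ofReal (integrable_finsetSum _ fun α _ => hi α)
      (Eventually.of_forall fun y => sum_nonneg fun α _ => mul_nonneg (ha0 α) (psiT_nonneg _ _ _))]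
    refine lintegral_mono fun y => ?_
    rw [← ofReal_norm]
    simp only [testFn, ContinuousMap.coe_mk, RCLike.norm_ofReal]
    exact ENNReal.ofReal_le_ofReal (le_abs_self _)
  have hW : 0 < V ^ (1 - 1 / P.toReal) := by positivity
  refine le_trans (le_of_eq ?_) (ENNReal.div_le_of_le_mul (h2.trans h1))
  rw [← ENNReal.ofReal_div_of_pos hW, Real.rpow_sub hS', Real.rpow_one,
    Real.rpow_neg (by positivity), hD]
  congr 1
  field_simp

theorem lower_free (𝕜 : Type*) [RCLike 𝕜] {d k : ℕ} (hd : 1 ≤ d) {r : ℝ} (hr : 0 < r) (hk : r < k)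
    {P θ : ℝ≥0∞} (hp : 1 < P.toReal) (hθ : 1 ≤ θ) :
    ∃ c : ℝ, 0 < c ∧ ∃ m₀ : ℕ, ∀ m : ℕ, m₀ ≤ m →
      ENNReal.ofReal (c * ((m : ℝ) ^ (-r) *
        Real.log m ^ (((d : ℝ) - 1) * (1 - (1 / θ).toReal)))) ≤
        samplingNumber (besovBall 𝕜 d k r P θ) P m := by
  obtain ⟨d, rfl⟩ := Nat.exists_eq_add_of_le' hd
  obtain ⟨c, hc, hlev⟩ := free_level (d + 1) k hr hk hp
  have hγ : 0 ≤ 1 - (1 / θ).toReal := sub_nonneg.2 (by
    rw [← ENNReal.toReal_one]
    exact ENNReal.toReal_mono ENNReal.one_ne_top (by simpa using hθ))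
  generalize hg : 1 - (1 / θ).toReal = γ at hγ
  refine ⟨c * (4 ^ (-r) * (((d : ℝ) + 1) ^ (d * γ))⁻¹), by positivity, 2, fun m hm => ?_⟩
  have hm0 : (0 : ℝ) < m := by exact_mod_cast (show 0 < m by omega)
  obtain ⟨n, h1, h2⟩ : ∃ n : ℕ, 2 * m ≤ 2 ^ n ∧ 2 ^ n ≤ 4 * m := by
    have a1 := Nat.pow_log_le_self 2 (show m ≠ 0 by omega)
    have a2 := Nat.lt_pow_succ_log_self one_lt_two m
    refine ⟨Nat.log 2 m + 2, ?_, ?_⟩ <;> simp only [pow_succ] at a2 ⊢ <;> omega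
  have h1' : 2 * (m : ℝ) ≤ 2 ^ n := by exact_mod_cast h1
  have h2' : (2 : ℝ) ^ n ≤ 4 * m := by exact_mod_cast h2
  have hL0 : 0 < Real.log m := Real.log_pos (by exact_mod_cast (show 1 < m by omega))
  have hL : Real.log m ≤ n := by
    refine (Real.log_le_log hm0 (show (m : ℝ) ≤ 2 ^ n by linarith)).trans ?_
    rw [Real.log_pow]
    exact mul_le_of_le_one_right (Nat.cast_nonneg n) (by linarith [Real.log_two_lt_d9])
  have hS : (Real.log m / (d + 1)) ^ d ≤ (#(shapes (d + 1) n) : ℝ) :=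
    le_trans (by gcongr) (card_shapes_ge_real d n)
  have := hlev 𝕜 θ hθ n (shapes (d + 1) n) sum_of_mem_shapes
    (by exact_mod_cast (show (0 : ℝ) < _ from lt_of_lt_of_le (by positivity) hS)) m h1
  rw [hg] at this
  refine le_trans (ENNReal.ofReal_le_ofReal ?_) this
  rw [mul_assoc c]
  refine mul_le_mul_of_nonneg_left ?_ hc.le
  rw [mul_mul_mul_comm, ← Real.mul_rpow (by norm_num) hm0.le, Nat.cast_succ, add_sub_cancel_right,
    ← div_eq_inv_mul, ← Real.div_rpow hL0.le (by positivity), Real.rpow_mul (by positivity),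
    Real.rpow_natCast]
  exact mul_le_mul (Real.rpow_le_rpow_of_nonpos (by positivity) h2' (by linarith))
    (Real.rpow_le_rpow (by positivity) hS hγ) (by positivity) (by positivity)

end Pool.Agent.Lib.MP_919f0c_an.Det
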