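import Pool.Agent.Lib.MP_919f0c_an.LpLower2

/-! The lower bound by random signs, `2 ≤ p < ∞`. -/

set_option autoImplicit false

open Finset MeasureTheory Filter Pool.Agent.MixedBesov
open scoped Real ENNReal

namespace Pool.Agent.Lib.MP_919f0c_an.Det

open Pool.Agent.Lib.MP_919f0c_an.Lp

lemma rpow_le_quad {y S q : ℝ} (hS : 0 < S) (hq : 0 < q) (hq2 : q ≤ 2) :
    |y| ^ q ≤ S ^ (q / 2) * (1 + S⁻¹ * (y * y)) := by
  have hu : 0 ≤ S⁻¹ * (y * y) := mul_nonneg (inv_pos.2 hS).le (mul_self_nonneg y)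
  have h1 : |y| ^ q = S ^ (q / 2) * (S⁻¹ * (y * y)) ^ (q / 2) := by
    rw [← Real.mul_rpow hS.le hu, mul_inv_cancel_left₀ hS.ne', ← sq, ← sq_abs, ← Real.rpow_two,
      ← Real.rpow_mul (abs_nonneg _)]
    congr 1; ring
  rw [h1]
  refine mul_le_mul_of_nonneg_left ?_ (by positivity)
  generalize S⁻¹ * (y * y) = u at hu
  rcases le_total u 1 with h | h
  · exact (Real.rpow_le_one hu h (by positivity)).trans (le_add_of_nonneg_right hu)
  · exact (Real.rpow_le_rpow_of_exponent_le h (show q / 2 ≤ 1 by linarith)).trans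
      (by rw [Real.rpow_one]; linarith)

theorem level_sign (d k : ℕ) {r : ℝ} (hr : 0 < r) (hk : r < k) {P θ : ℝ≥0∞}
    (hp : 2 ≤ P.toReal) (hθ : 1 ≤ θ) (𝕜 : Type*) [RCLike 𝕜] :
    ∃ δ c : ℝ, 0 < δ ∧ δ ≤ 1 ∧ 0 < c ∧
    ∀ (n : ℕ) (𝒮 : Finset (Fin d → ℕ)), (∀ s ∈ 𝒮, ∑ i, s i = n) → 0 < #𝒮 →
      ∀ m : ℕ, (m : ℝ) ≤ δ * (#𝒮 * 2 ^ n) →
      ENNReal.ofReal (c * (((2 : ℝ) ^ n) ^ (-r) * (#𝒮 : ℝ) ^ (1 / 2 - (1 / θ).toReal))) ≤
        samplingNumber (besovBall 𝕜 d k r P θ) P m := by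
  classical
  have hpq := Real.HolderConjugate.conjExponent (show 1 < P.toReal by linarith)
  obtain ⟨δ, c, hδ0, hδ1, hc, H⟩ := lower_core d k hr hk hpq
  set p := P.toReal
  set q := Real.conjExponent p
  have hq := hpq.symm.pos
  have he := hpq.inv_add_inv_eq_one
  have h3 : q ≤ 2 := (inv_le_inv₀ two_pos hq).1 (by linarith [inv_anti₀ two_pos hp])
  refine ⟨δ, c / 2 ^ q⁻¹, hδ0, hδ1, by positivity, fun n 𝒮 h𝒮 h0 m hm => ?_⟩
  have h0' : (0 : ℝ) < #𝒮 := by exact_mod_cast h0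
  refine le_trans (ENNReal.ofReal_le_ofReal (le_of_eq ?_)) (H 𝕜 θ hθ n 𝒮 h𝒮 h0 m hm
    (Ω := Unit × (Idx 𝒮 → Bool)) (fun _ => (Fintype.card Unit : ℝ)⁻¹ * ∏ _β : Idx 𝒮, 2⁻¹)
    (fun ω β => if (fun _ => ()) β = ω.1 then sg (ω.2 β) else 0) (Fintype.card Unit : ℝ)⁻¹
    ((#𝒮 : ℝ) ^ (q / 2) * 2) ((2 ^ n) ^ p⁻¹) #𝒮
    (by simp) (by positivity) (by positivity) h0' (fun _ => by positivity) part_one
    (part_scheme fun _ => ()) (fun x hx hx2 => ?_) fun ω => ⟨𝒮, subset_rfl, le_rfl,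
      fun α hα => absurd α.1.2 hα, fun s => ?_⟩)
  · rw [Real.rpow_neg (by positivity), Real.inv_rpow (by positivity),
      Real.mul_rpow (by positivity) (by positivity), ← Real.rpow_mul h0'.le,
      show q / 2 * q⁻¹ = 1 - 1 / 2 by field_simp; norm_num, Real.rpow_sub h0', Real.rpow_sub h0',
      Real.rpow_one, Fintype.card_unit]
    field_simp
    simp
  · have hps := part_scheme (fun _ : Idx 𝒮 => ()) x x
    refine le_trans (sum_le_sum fun ω _ => mul_le_mul_of_nonneg_left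
      (rpow_le_quad h0' hq h3) (by positivity)) ?_
    simp only [mul_left_comm _ ((#𝒮 : ℝ) ^ (q / 2))]
    rw [← mul_sum]
    refine mul_le_mul_of_nonneg_left ?_ (by positivity)
    simp only [mul_add, mul_one, sum_add_distrib, mul_left_comm _ ((#𝒮 : ℝ)⁻¹)]
    simp only [] at hps
    rw [← mul_sum univ _ ((#𝒮 : ℝ)⁻¹), ← hps]
    refine le_of_le_of_eq (add_le_add part_one ?_) one_add_one_eq_two
    rw [inv_mul_le_one₀ h0']
    simpa only [sq, Fintype.card_unit, Nat.cast_one, inv_one, one_mul] using hx2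
  · rw [Real.rpow_inv_rpow (by positivity) hpq.pos.ne']
    refine (sum_le_card_nsmul _ _ 1 fun κ _ => ?_).trans
      (by rw [card_univ, card_Pos, h𝒮 s.1 s.2]; simp)
    simp [abs_sg]

theorem lower_sign (𝕜 : Type*) [RCLike 𝕜] {d k : ℕ} (hd : 1 ≤ d) {r : ℝ} (hr : 0 < r) (hk : r < k)
    {P θ : ℝ≥0∞} (hp : 2 ≤ P.toReal) (hθ : 2 ≤ θ) :
    ∃ c : ℝ, 0 < c ∧ ∃ m₀ : ℕ, ∀ m : ℕ, m₀ ≤ m →
      ENNReal.ofReal (c * ((m : ℝ) ^ (-r) *
        Real.log m ^ (((d : ℝ) - 1) * (r + (1 / 2 - (1 / θ).toReal))))) ≤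
        samplingNumber (besovBall 𝕜 d k r P θ) P m := by
  have hθ1 : 1 ≤ θ := one_le_two.trans hθ
  have hγ0 : 0 ≤ 1 / 2 - (1 / θ).toReal := by
    have : (1 / θ).toReal ≤ (1 / 2 : ℝ≥0∞).toReal :=
      ENNReal.toReal_mono (by simp) (ENNReal.div_le_div_left hθ _)
    rw [sub_nonneg]
    simpa using this
  obtain ⟨d, rfl⟩ := Nat.exists_eq_add_of_le' hd
  obtain ⟨δ, c, hδ0, hδ1, hc0, hlev⟩ := level_sign (d + 1) k hr hk hp hθ1 𝕜
  generalize 1 / 2 - (1 / θ).toReal = γ at hγ0 hlev ⊢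
  obtain ⟨n₀, hn₀, hcard⟩ := eventually_card_pow_le (d + 1)
  set D : ℝ := 2 * (d + 1) ^ 2 with hD
  have hD0 : 0 < D := by positivity
  refine ⟨c * (2 ^ (-r) * δ ^ r * (D ^ (d * (r + γ)))⁻¹), by positivity,
    max 2 ⌈Real.exp ((d + 1) * n₀)⌉₊, fun m hm => ?_⟩
  have hm2 : 2 ≤ m := (le_max_left _ _).trans hm
  have hm0 : (0 : ℝ) < m := by exact_mod_cast (show 0 < m by omega)
  obtain ⟨n, h1, h2, h3⟩ := exists_level d hδ0 hδ1 m hm2
  have hlog : (d + 1) * n₀ ≤ Real.log m := by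
    rw [Real.le_log_iff_exp_le hm0]
    exact (Nat.le_ceil _).trans (by exact_mod_cast (le_max_right _ _).trans hm)
  have hn : n₀ ≤ n + 1 := by exact_mod_cast le_of_mul_le_mul_left (hlog.trans h3) (by positivity)
  have hn1 : (1 : ℝ) ≤ n := by exact_mod_cast (show 1 ≤ n by omega)
  have hS := card_shapes_ge_real d (n + 1)
  refine le_trans (ENNReal.ofReal_le_ofReal ?_) (hlev (n + 1) (shapes (d + 1) (n + 1))
    sum_of_mem_shapes (by exact_mod_cast (show (0 : ℝ) < _ from lt_of_lt_of_le (by positivity) hS)) m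
    (h1.trans (by rw [mul_assoc]; gcongr)))
  rw [mul_assoc c]
  refine mul_le_mul_of_nonneg_left ?_ hc0.le
  set L := Real.log m with hL
  have hL0 : 0 ≤ L := Real.log_nonneg (by exact_mod_cast (show 1 ≤ m by omega))
  set X : ℝ := (n : ℝ) / (d + 1) with hX
  have hX0 : 0 < X := by positivity
  have hLX : L / D ≤ X := by
    rw [hX, hD, div_le_div_iff₀ (by positivity) (by positivity)]
    have : (0 : ℝ) < d + 1 := by positivity
    nlinarith [mul_le_mul_of_nonneg_right h3 this.le, mul_pos this this]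
  have hA : (m : ℝ) ^ (-r) * (δ ^ r * (X ^ d) ^ r) ≤ ((2 : ℝ) ^ n) ^ (-r) := by
    have h4 : (2 : ℝ) ^ n ≤ m / (δ * X ^ d) := by
      rw [le_div_iff₀ (by positivity)]; linarith
    refine le_trans (le_of_eq ?_) (Real.rpow_le_rpow_of_nonpos (by positivity) h4 (by linarith))
    rw [Real.div_rpow hm0.le (by positivity), Real.rpow_neg (show 0 ≤ δ * X ^ d by positivity),
      Real.mul_rpow hδ0.le (by positivity), div_inv_eq_mul]
  have hB : (X ^ d) ^ γ ≤ ((shapes (d + 1) (n + 1)).card : ℝ) ^ γ := by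
    refine Real.rpow_le_rpow (by positivity) (le_trans ?_ hS) hγ0
    rw [hX]; push_cast; gcongr; linarith
  have hC : L ^ (d * (r + γ)) * (D ^ (d * (r + γ)))⁻¹ ≤ (X ^ d) ^ r * (X ^ d) ^ γ := by
    rw [← div_eq_mul_inv, ← Real.div_rpow hL0 hD0.le, ← Real.rpow_add (by positivity),
      ← Real.rpow_natCast X d, ← Real.rpow_mul hX0.le]
    exact Real.rpow_le_rpow (by positivity) hLX (by positivity)
  rw [Nat.cast_succ, add_sub_cancel_right, pow_succ (2 : ℝ) n,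
    Real.mul_rpow (x := (2 : ℝ) ^ n) (by positivity) (by norm_num)]
  calc 2 ^ (-r) * δ ^ r * (D ^ (d * (r + γ)))⁻¹ * ((m : ℝ) ^ (-r) * L ^ (d * (r + γ)))
      = 2 ^ (-r) * (δ ^ r * (m : ℝ) ^ (-r)) * (L ^ (d * (r + γ)) * (D ^ (d * (r + γ)))⁻¹) := by
        ring
    _ ≤ 2 ^ (-r) * (δ ^ r * (m : ℝ) ^ (-r)) * ((X ^ d) ^ r * (X ^ d) ^ γ) := by gcongr
    _ = 2 ^ (-r) * ((m : ℝ) ^ (-r) * (δ ^ r * (X ^ d) ^ r)) * (X ^ d) ^ γ := by ring
    _ ≤ 2 ^ (-r) * ((2 : ℝ) ^ n) ^ (-r) * ((shapes (d + 1) (n + 1)).card : ℝ) ^ γ := by gcongr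
    _ = _ := by ring

end Pool.Agent.Lib.MP_919f0c_an.Det
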