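import Pool.Agent.Lib.MP_919f0c_an.Det.Level

/-! The upper bound, `2 ≤ p < ∞`. -/

set_option autoImplicit false

open Finset MeasureTheory Filter Topology Pool.Agent.MixedBesov Pool.Agent.Lib.MP_919f0c_an.Up
open scoped Real ENNReal Matrix

namespace Pool.Agent.Lib.MP_919f0c_an.Det

open Pool.Agent.Lib.MP_919f0c_an.Lp

lemma level_to_m2 (d : ℕ) {c : ℕ} (hc0 : 0 < c) {C r γ a : ℝ} (hC : 0 ≤ C) (hr0 : 0 < r)
    (hγ0 : 0 ≤ γ) (ha : 0 ≤ a) {φ : ℕ → ℝ≥0∞} (h : ∀ n m : ℕ, c * (2 ^ n * (n + 1) ^ d) ≤ m →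
      φ m ≤ ENNReal.ofReal (C * (((2:ℝ) ^ (-r)) ^ n * (((n : ℝ) + 1) ^ d) ^ γ *
        Real.log (n + 3) ^ a))) :
    ∃ C : ℝ, 0 < C ∧ ∃ m₀ : ℕ, ∀ m : ℕ, m₀ ≤ m →
      φ m ≤ ENNReal.ofReal (C * ((m : ℝ) ^ (-r) * Real.log m ^ (d * (r + γ)) *
        Real.log (Real.log m) ^ a)) := by
  have key : ∀ m : ℕ, 27 ≤ m → 3 ≤ Real.log m ∧ 1 ≤ Real.log (Real.log m) := fun m hm => by
    have h1 : (27 : ℝ) ≤ m := by exact_mod_cast hm
    have h2 : 1 ≤ Real.log 3 := by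
      rw [Real.le_log_iff_exp_le (by positivity)]; linarith [Real.exp_one_lt_d9]
    have h3 := Real.log_le_log (by norm_num) h1
    rw [show (27 : ℝ) = 3 ^ 3 by norm_num, Real.log_pow] at h3
    push_cast at h3
    exact ⟨by linarith, h2.trans (Real.log_le_log (by norm_num) (by linarith))⟩
  obtain ⟨C', hC', m₀, H⟩ := level_to_m d hc0 (C := C * 2 ^ a) (by positivity) hr0 hγ0
    (φ := fun m => if 27 ≤ m then φ m / ENNReal.ofReal (Real.log (Real.log m) ^ a) else 0)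
    fun n m hm => by
      split_ifs with h27
      swap
      · exact zero_le
      obtain ⟨h1, h2⟩ := key m h27
      refine ENNReal.div_le_of_le_mul ((h n m hm).trans ?_)
      rw [← ENNReal.ofReal_mul (by positivity)]
      refine ENNReal.ofReal_le_ofReal ?_
      have h2n : (2 : ℝ) ^ n ≤ m := by
        exact_mod_cast le_trans ((Nat.le_mul_of_pos_right _ (by positivity)).trans
          (Nat.le_mul_of_pos_left _ hc0)) hm
      have h3 := Real.log_le_log (by positivity) h2n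
      rw [Real.log_pow] at h3
      have h4 : (n : ℝ) + 3 ≤ Real.log m ^ 2 := by
        nlinarith [Real.log_two_gt_d9, Nat.cast_nonneg (α := ℝ) n]
      have h5 := Real.log_le_log (by positivity) h4
      rw [Real.log_pow] at h5
      have h6 := Real.rpow_le_rpow (by linarith [one_le_log n]) h5 ha
      rw [Nat.cast_ofNat, Real.mul_rpow zero_le_two (by linarith)] at h6
      calc _ ≤ C * (((2:ℝ) ^ (-r)) ^ n * (((n : ℝ) + 1) ^ d) ^ γ *
            (2 ^ a * Real.log (Real.log m) ^ a)) := by gcongr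
        _ = _ := by ring
  refine ⟨C', hC', max m₀ 27, fun m hm => ?_⟩
  have h1 := H m (le_of_max_le_left hm)
  obtain ⟨h2, h3⟩ := key m (le_of_max_le_right hm)
  have h4 : 0 < Real.log (Real.log m) ^ a := Real.rpow_pos_of_pos (by linarith) _
  rw [if_pos (le_of_max_le_right hm), ENNReal.div_le_iff (by simpa using h4)
    ENNReal.ofReal_ne_top, ← ENNReal.ofReal_mul (by positivity)] at h1
  rwa [← mul_assoc C']

theorem upper_det (𝕜 : Type*) [RCLike 𝕜] {d k : ℕ} (hd : 1 ≤ d) {r τ : ℝ} {p θ : ℝ≥0∞}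
    (hp1 : 1 < p.toReal) (hp : 2 ≤ p.toReal ∨ d = 1) (h1 : 1 ≤ τ) (h2 : τ ≤ 2) (hθ : 1 ≤ θ)
    (hr : (1 / p).toReal < r) (hk : r < k) :
    ∃ C : ℝ, 0 < C ∧ ∃ m₀ : ℕ, ∀ m : ℕ, m₀ ≤ m →
      samplingNumber (besovBall 𝕜 d k r p θ) p m ≤ ENNReal.ofReal (C * ((m : ℝ) ^ (-r) *
        Real.log m ^ (((d : ℝ) - 1) *
          (r + (max (1 / τ - (1 / θ).toReal) 0 + max (1 - 1 / τ - r) 0))) *
        Real.log (Real.log m) ^ (((d : ℝ) - 1) * if r = 1 - 1 / τ then 1 + r else 0))) := by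
  obtain ⟨d, rfl⟩ : ∃ d', d = d' + 1 := ⟨d - 1, by omega⟩
  have hP : 1 ≤ p := by
    rw [← ENNReal.ofReal_one]; exact ENNReal.ofReal_le_of_le_toReal (by linarith)
  have := Fact.mk hP
  have hr0 : 0 < r := ENNReal.toReal_nonneg.trans_lt hr
  have hτ0 : 0 < τ := by linarith
  have hκ := kap_pos r
  obtain ⟨C, hC, H⟩ := level_det (d := d) (k := k) (by exact_mod_cast hr0.trans hk) hp1
    (hp.imp id fun h => ⟨hp1.le, by omega⟩) h1 h2
    (r := r) (K := 2 ^ (d + 1) / (kap r ^ (d + 1)) ^ τ)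
    (γ := max (1 - τ * (1 / θ).toReal) 0) (by rwa [one_div, ENNReal.toReal_inv, ← one_div] at hr)
    (by positivity) (le_max_right _ _)
    (max_le (sub_le_self _ (by positivity)) zero_le_one)
  rw [show max (1 - τ * (1 / θ).toReal) 0 / τ = max (1 / τ - (1 / θ).toReal) 0 by
    rw [← max_div_div_right hτ0.le, zero_div, sub_div, mul_div_cancel_left₀ _ hτ0.ne']] at H
  rw [Nat.cast_succ, add_sub_cancel_right]
  refine level_to_m2 d (c := ⌈C⌉₊) (C := C + C) (Nat.ceil_pos.2 hC) (by positivity) hr0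
    (add_nonneg (le_max_right _ _) (le_max_right _ _)) (by split_ifs <;> positivity)
    fun n m hm => ?_
  obtain ⟨Ξ, ψ, g1, g2, g3⟩ := H n
  have := one_le_log n
  rw [add_mul, ENNReal.ofReal_add (by positivity) (by positivity)]
  refine sampling_le' _ hP Ξ g2 (le_trans ?_ hm) fun f hf L hL => g3
    ((⟨L, L.continuous⟩ : C(𝕜, ℝ)).comp f) _ (fun l => mod_of_βe k p L hL f l
      (βe_ne_top k hr0.le p hθ f hf l)) (sum_β_pow k hr0.le hτ0 p hθ f hf)
  exact_mod_cast g1.trans (mul_le_mul_of_nonneg_right (Nat.le_ceil C) (by positivity))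

end Pool.Agent.Lib.MP_919f0c_an.Det
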