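import Pool.Agent.Lib.MP_919f0c_an.Uni.Interior
import Pool.Agent.Lib.MP_919f0c_an.Det.Upper
import Pool.Agent.Lib.MP_919f0c_an.Det.LowSign
import Pool.Agent.Lib.MP_919f0c_an.Det.LowFree

/-! Two-sided bounds for `1 ≤ p < ∞`. -/

set_option autoImplicit false

open scoped ENNReal
open Pool.Agent.MixedBesov Pool.Agent.Lib.MP_919f0c_an.Lp

namespace Pool.Agent.Lib.MP_919f0c_an.Det

lemma exists_tau {θ : ℝ≥0∞} (hθ : 1 ≤ θ) : ∃ τ : ℝ, 1 ≤ τ ∧ τ ≤ 2 ∧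
    1 / τ = max (1 / 2) (1 / θ).toReal := by
  have h2 : (1 / θ).toReal ≤ 1 := by
    simpa using ENNReal.toReal_mono ENNReal.one_ne_top (show 1 / θ ≤ 1 by simpa using hθ)
  have h0 : 0 < max (1 / 2 : ℝ) (1 / θ).toReal := lt_max_of_lt_left (by norm_num)
  refine ⟨(max (1 / 2) (1 / θ).toReal)⁻¹, (one_le_inv₀ h0).2 (max_le (by norm_num) h2), ?_,
    by rw [one_div, inv_inv]⟩
  rw [inv_le_comm₀ h0 two_pos]
  exact le_max_of_le_left (by norm_num)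

theorem lower_large (𝕜 : Type*) [RCLike 𝕜] {d k : ℕ} (hd : 1 ≤ d) {r : ℝ} (hr : 0 < r)
    (hk : r < k) {p θ : ℝ≥0∞} (hp : 2 ≤ p.toReal) (hθ : 1 ≤ θ) :
    ∃ c : ℝ, 0 < c ∧ ∃ m₀ : ℕ, ∀ m : ℕ, m₀ ≤ m →
      ENNReal.ofReal (c * ((m : ℝ) ^ (-r) * Real.log m ^ (((d : ℝ) - 1) *
        max (r + max (1 / 2 - (1 / θ).toReal) 0) (1 - (1 / θ).toReal)))) ≤
        samplingNumber (besovBall 𝕜 d k r p θ) p m := by
  rcases le_total (r + max (1 / 2 - (1 / θ).toReal) 0) (1 - (1 / θ).toReal) with h | h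
  · rw [max_eq_right h]
    exact lower_free 𝕜 hd hr hk (by linarith) hθ
  rw [max_eq_left h]
  rcases le_total 2 θ with h2 | h2
  · have h3 : (1 / θ).toReal ≤ 1 / 2 := by
      simpa using ENNReal.toReal_mono (by simp) (ENNReal.inv_le_inv.2 h2)
    rw [max_eq_left (by linarith)]
    exact lower_sign 𝕜 hd hr hk hp h2
  · have h3 : 1 / 2 ≤ (1 / θ).toReal := by
      simpa using ENNReal.toReal_mono (by simpa using (zero_lt_one.trans_le hθ).ne')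
        (ENNReal.inv_le_inv.2 h2)
    rw [max_eq_right (by linarith)]
    exact lower_Lp 𝕜 hd hr hk (by linarith) hθ le_rfl (Or.inl rfl)

theorem upper_large (𝕜 : Type*) [RCLike 𝕜] {d k : ℕ} (hd : 1 ≤ d) {r : ℝ} (hk : r < k)
    {p θ : ℝ≥0∞} (hp : 2 ≤ p.toReal) (hθ : 1 ≤ θ) (hr : (1 / p).toReal < r) :
    ∃ C : ℝ, 0 < C ∧ ∃ m₀ : ℕ, ∀ m : ℕ, m₀ ≤ m →
      samplingNumber (besovBall 𝕜 d k r p θ) p m ≤
      ENNReal.ofReal (C * ((m : ℝ) ^ (-r) * Real.log m ^ (((d : ℝ) - 1) *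
        max (r + max (1 / 2 - (1 / θ).toReal) 0) (1 - (1 / θ).toReal)) *
        Real.log (Real.log m) ^ (((d : ℝ) - 1) *
          if r = min (1 / 2) (1 - (1 / θ).toReal) then 1 + r else 0))) := by
  obtain ⟨τ, h1, h2, h3⟩ := exists_tau hθ
  have H := upper_det 𝕜 hd (by linarith) (Or.inl hp) h1 h2 hθ hr hk
  rw [h3] at H
  generalize (1 / θ).toReal = t at *
  have e : r + (max (max (1 / 2) t - t) 0 + max (1 - max (1 / 2) t - r) 0) =
      max (r + max (1 / 2 - t) 0) (1 - t) := by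
    simp only [max_def]; split_ifs <;> linarith
  have e' : 1 - max (1 / 2) t = min (1 / 2) (1 - t) := by
    simp only [max_def, min_def]; split_ifs <;> linarith
  rwa [e, e'] at H

theorem small (𝕜 : Type*) [RCLike 𝕜] {d k : ℕ} (hd : 1 ≤ d) {r : ℝ} (hk : r < k)
    {p θ : ℝ≥0∞} (hp : 1 ≤ p) (h2 : p < 2) (hθ : 1 ≤ θ) (hr : (1 / p).toReal < r) :
    ∃ c C : ℝ, 0 < c ∧ 0 < C ∧ ∃ m₀ : ℕ, ∀ m : ℕ, m₀ ≤ m →
      ENNReal.ofReal (c * ((m : ℝ) ^ (-r) *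
        Real.log m ^ (((d : ℝ) - 1) * (r + max ((1 / p).toReal - (1 / θ).toReal) 0)))) ≤
        samplingNumber (besovBall 𝕜 d k r p θ) p m ∧
      samplingNumber (besovBall 𝕜 d k r p θ) p m ≤
        ENNReal.ofReal (C * ((m : ℝ) ^ (-r) *
          Real.log m ^ (((d : ℝ) - 1) * (r + max ((1 / p).toReal - (1 / θ).toReal) 0)))) := by
  have hr0 : 0 < r := ENNReal.toReal_nonneg.trans_lt hr
  have hp' : p < ∞ := h2.trans (by simp)
  rcases hp.eq_or_lt with rfl | hp1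
  · have h2 : (1 / θ).toReal ≤ 1 := by
      simpa using ENNReal.toReal_mono ENNReal.one_ne_top
        (show 1 / θ ≤ 1 by simpa using hθ)
    have e : r + max ((1 / (1 : ℝ≥0∞)).toReal - (1 / θ).toReal) 0 = r + 1 - (1 / θ).toReal := by
      rw [div_one, ENNReal.toReal_one, max_eq_left (by linarith)]
      ring
    rw [e]
    obtain ⟨c, hc, m₁, h₁⟩ := lower_bound 𝕜 d k hd r 1 θ (Or.inl rfl) hθ hr0 hk
    obtain ⟨C, hC, m₂, h₂⟩ := Pool.Agent.Lib.MP_919f0c_an.Up.upper_bound 𝕜 d k hd r 1 θ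
      (Or.inl rfl) hθ hr hk
    exact ⟨c, C, hc, hC, max m₁ m₂, fun m hm =>
      ⟨h₁ m (le_of_max_le_left hm), h₂ m (le_of_max_le_right hm)⟩⟩
  rcases hd.eq_or_lt with rfl | hd2
  · have h3 : 1 < p.toReal := by
      rw [← ENNReal.toReal_one]; exact ENNReal.toReal_strict_mono hp'.ne hp1
    obtain ⟨c, hc, m₁, h₁⟩ := lower_Lp 𝕜 (d := 1) le_rfl hr0 hk h3 hθ le_rfl (Or.inl rfl)
    obtain ⟨C, hC, m₂, h₂⟩ := upper_det 𝕜 (d := 1) le_rfl h3 (Or.inr rfl) le_rfl one_le_two hθ hr hk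
    simp only [Nat.cast_one, sub_self, zero_mul, Real.rpow_zero, mul_one] at h₁ h₂ ⊢
    exact ⟨c, C, hc, hC, max m₁ m₂, fun m hm =>
      ⟨h₁ m (le_of_max_le_left hm), h₂ m (le_of_max_le_right hm)⟩⟩
  · exact Pool.Agent.Lib.MP_919f0c_an.Uni.interior 𝕜 d k hd2 r p θ hp1 hp' hθ (Or.inl h2) hr hk

end Pool.Agent.Lib.MP_919f0c_an.Det
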