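import Pool.Agent.Lib.MP_919f0c_an.Det.Defs

/-! Two summation lemmas. -/

set_option autoImplicit false

open Finset Matrix

namespace Pool.Agent.Lib.MP_919f0c_an.Det

open Pool.Agent.Lib.MP_919f0c_an.Lp

variable {d : ℕ}

theorem fiber_sum {ν : ℝ} (h0 : 0 ≤ ν) (h1 : ν < 1) (i : Fin d) (e b : Fin d → ℕ) (N : ℕ)
    (S : Finset (Fin d → ℕ)) :
    ∑ s ∈ S, (if Function.update (lb e s) i 0 = b ∧ N < ∑ j, s j then ν ^ (∑ j, s j - N) else 0) ≤
      2 ^ (∑ j ∈ univ.erase i, e j) * (1 - ν)⁻¹ := by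
  rw [← sum_filter]
  set S' := S.filter fun s => Function.update (lb e s) i 0 = b ∧ N < ∑ j, s j with hS'
  set A : Fin d → Finset ℕ := fun j =>
    if j = i then {0} else Ico (b j * 2 ^ e j - 1) (b j * 2 ^ e j - 1 + 2 ^ e j) with hA
  have hmap : ∀ s ∈ S', Function.update s i 0 ∈ Fintype.piFinset A := fun s hs => by
    refine Fintype.mem_piFinset.2 fun j => ?_
    by_cases hj : j = i
    · subst hj
      simp [hA]
    · have h2 := congrFun (mem_filter.1 hs).2.1 j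
      rw [Function.update_of_ne hj] at h2 ⊢
      have h3 := Nat.div_mul_le_self (s j + 1) (2 ^ e j)
      have h4 := Nat.lt_div_mul_add (a := s j + 1) (Nat.two_pow_pos (e j))
      simp only [lb] at h2
      rw [h2] at h3 h4
      simp only [hA, if_neg hj, mem_Ico]
      omega
  have hcard : (#(Fintype.piFinset A) : ℝ) = 2 ^ (∑ j ∈ univ.erase i, e j) := by
    have : #(Fintype.piFinset A) = 2 ^ (∑ j ∈ univ.erase i, e j) := by
      rw [Fintype.card_piFinset, ← mul_prod_erase univ _ (mem_univ i), ← prod_pow_eq_pow_sum]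
      simp only [hA, if_true, card_singleton, one_mul]
      refine prod_congr rfl fun j hj => ?_
      rw [if_neg (ne_of_mem_erase hj), Nat.card_Ico, Nat.add_sub_cancel_left]
    exact_mod_cast this
  rw [← sum_fiberwise_of_maps_to hmap, ← hcard, ← nsmul_eq_mul]
  refine sum_le_card_nsmul _ _ _ fun c _ => geo_inj h0 h1 _ _ fun s hs t ht hst => ?_
  obtain ⟨hs1, hs2⟩ := mem_filter.1 (mem_coe.1 hs)
  obtain ⟨ht1, ht2⟩ := mem_filter.1 (mem_coe.1 ht)
  have a1 := (mem_filter.1 hs1).2.2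
  have a2 := (mem_filter.1 ht1).2.2
  have hne : ∀ j, j ≠ i → s j = t j := fun j hj => by
    have := congrFun (hs2.trans ht2.symm) j
    rwa [Function.update_of_ne hj, Function.update_of_ne hj] at this
  have e1 := add_sum_erase univ s (mem_univ i)
  have e2 := add_sum_erase univ t (mem_univ i)
  have e3 : ∑ j ∈ univ.erase i, s j = ∑ j ∈ univ.erase i, t j :=
    sum_congr rfl fun j hj => hne j (ne_of_mem_erase hj)
  funext j
  by_cases hj : j = i
  · subst hj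
    omega
  · exact hne j hj

lemma sum_sub_add {s u : Fin d → ℕ} (h : u ≤ s) : ∑ i, (s - u) i + ∑ i, u i = ∑ i, s i := by
  rw [← sum_add_distrib]
  exact sum_congr rfl fun i _ => Nat.sub_add_cancel (h i)

theorem conv (d : ℕ) {τ σ ν g : ℝ} (hτ : 1 ≤ τ) (hσ0 : 0 ≤ σ) (hσ1 : σ < 1) (hν0 : 0 ≤ ν)
    (hν1 : ν ≤ 1) (hg : 0 ≤ g) : ∃ C : ℝ, 0 < C ∧ ∀ (S : Finset (Fin (d + 1) → ℕ))
      (y : (Fin (d + 1) → ℕ) → ℝ) (Y : ℝ), (∀ s, 0 ≤ y s) → 0 ≤ Y → (∀ s ∈ S, 0 < ∑ i, s i) →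
      (∀ (N : ℕ), ∀ U ⊆ S, (∀ s ∈ U, N < ∑ i, s i) →
        (∑ s ∈ U, (ν ^ (∑ i, s i - N) * y s) ^ τ) ^ (1 / τ) ≤ Y * (((N : ℝ) + 1) ^ d) ^ g) →
      ∀ (N : ℕ) (T : Finset (Fin (d + 1) → ℕ)), (∀ s ∈ T, N < ∑ i, s i) →
        (∑ s ∈ T, (ν ^ (∑ i, s i - N) * ∑ t ∈ S with t ≤ s, σ ^ (∑ i, (s i - t i)) * y t) ^ τ) ^
          (1 / τ) ≤ C * (Y * (((N : ℝ) + 1) ^ d) ^ g) := by
  have h0 : 0 < τ := by linarith
  have hσ := sub_pos.2 hσ1
  set B : ℝ := ((1 - σ)⁻¹) ^ (d + 1) with hB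
  have hB0 : 0 < B := by positivity
  refine ⟨B, hB0, fun S y Y hy hY hS H N T hT => ?_⟩
  set Z : ℝ := Y * (((N : ℝ) + 1) ^ d) ^ g with hZ
  have hZ0 : 0 ≤ Z := by positivity
  set U : Finset (Fin (d + 1) → ℕ) := (T ×ˢ S).image fun p => p.1 - p.2 with hU
  set z : (Fin (d + 1) → ℕ) → (Fin (d + 1) → ℕ) → ℝ := fun u s =>
    if u ≤ s ∧ s - u ∈ S then ν ^ (∑ i, s i - N) * y (s - u) else 0 with hz
  have hz0 : ∀ u s, 0 ≤ z u s := fun u s => by
    simp only [hz]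
    split_ifs
    · exact mul_nonneg (by positivity) (hy _)
    · exact le_rfl
  have hUB : ∑ u ∈ U, σ ^ (∑ i, u i) ≤ B := Up.sum_geom_pi hσ0 hσ1 U
  have h1 : ∀ s ∈ T, ν ^ (∑ i, s i - N) * ∑ t ∈ S with t ≤ s, σ ^ (∑ i, (s i - t i)) * y t =
      ∑ u ∈ U, σ ^ (∑ i, u i) * z u s := fun s hs => by
    simp only [hz, mul_ite, mul_zero]
    rw [← sum_filter, mul_sum]
    refine sum_nbij' (fun t => s - t) (fun u => s - u) (fun t ht => ?_) (fun u hu => ?_)
      (fun t ht => tsub_tsub_cancel_of_le (mem_filter.1 ht).2)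
      (fun u hu => tsub_tsub_cancel_of_le (mem_filter.1 hu).2.1) fun t ht => ?_
    · obtain ⟨t1, t2⟩ := mem_filter.1 ht
      refine mem_filter.2 ⟨mem_image.2 ⟨(s, t), mem_product.2 ⟨hs, t1⟩, rfl⟩, tsub_le_self, ?_⟩
      rwa [tsub_tsub_cancel_of_le t2]
    · exact mem_filter.2 ⟨(mem_filter.1 hu).2.2, tsub_le_self⟩
    · rw [tsub_tsub_cancel_of_le (mem_filter.1 ht).2]
      simp only [Pi.sub_apply]
      ring
  have h2 : ∀ u, ∑ s ∈ T, z u s ^ τ ≤ Z ^ τ := fun u => by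
    set T' := T.filter fun s => u ≤ s ∧ s - u ∈ S with hT'
    have hinj : Set.InjOn (fun s => s - u) T' := fun s hs t ht hst =>
      tsub_left_inj (mem_filter.1 (mem_coe.1 hs)).2.1 (mem_filter.1 (mem_coe.1 ht)).2.1 |>.1 hst
    have hH := H (N - ∑ i, u i) (T'.image fun s => s - u) (fun t ht => by
      obtain ⟨s, hs, rfl⟩ := mem_image.1 ht
      exact (mem_filter.1 hs).2.2) (fun t ht => by
      obtain ⟨s, hs, rfl⟩ := mem_image.1 ht
      obtain ⟨s1, s2, s3⟩ := mem_filter.1 hs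
      have a1 := hT s s1
      have a2 := hS _ s3
      have a3 := sum_sub_add s2
      omega)
    rw [sum_image hinj] at hH
    have hZ' : Y * ((((N - ∑ i, u i : ℕ) : ℝ) + 1) ^ d) ^ g ≤ Z := by
      have : ((N - ∑ i, u i : ℕ) : ℝ) ≤ N := by exact_mod_cast Nat.sub_le _ _
      rw [hZ]
      gcongr
    have hnn : 0 ≤ ∑ s ∈ T', (ν ^ (∑ i, (s - u) i - (N - ∑ i, u i)) * y (s - u)) ^ τ :=
      sum_nonneg fun s _ => Real.rpow_nonneg (mul_nonneg (by positivity) (hy _)) _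
    have h3 := Real.rpow_le_rpow (Real.rpow_nonneg hnn _) (hH.trans hZ') h0.le
    rw [← Real.rpow_mul hnn, one_div_mul_cancel h0.ne', Real.rpow_one] at h3
    refine le_trans ?_ h3
    rw [hT', sum_filter]
    refine sum_le_sum fun s _ => ?_
    simp only [hz]
    split_ifs with hs
    · refine Real.rpow_le_rpow (mul_nonneg (by positivity) (hy _))
        (mul_le_mul_of_nonneg_right (pow_le_pow_of_le_one hν0 hν1 ?_) (hy _)) h0.le
      have a3 := sum_sub_add hs.1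
      omega
    · rw [Real.zero_rpow h0.ne']
  have h4 : ∑ s ∈ T, (ν ^ (∑ i, s i - N) *
      ∑ t ∈ S with t ≤ s, σ ^ (∑ i, (s i - t i)) * y t) ^ τ ≤ (B * Z) ^ τ := by
    refine (sum_le_sum (g := fun s => B ^ (τ - 1) * ∑ u ∈ U, σ ^ (∑ i, u i) * z u s ^ τ)
      fun s hs => ?_).trans ?_
    · rw [h1 s hs]
      exact wpow U hτ (fun u => by positivity) (fun u => hz0 u s) hUB
    · rw [← mul_sum, sum_comm, Real.mul_rpow hB0.le hZ0]
      have h5 : ∑ u ∈ U, ∑ s ∈ T, σ ^ (∑ i, u i) * z u s ^ τ ≤ B * Z ^ τ := by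
        refine (sum_le_sum (g := fun u => σ ^ (∑ i, u i) * Z ^ τ) fun u _ => ?_).trans ?_
        · rw [← mul_sum]
          exact mul_le_mul_of_nonneg_left (h2 u) (by positivity)
        · rw [← sum_mul]
          exact mul_le_mul_of_nonneg_right hUB (Real.rpow_nonneg hZ0 _)
      refine (mul_le_mul_of_nonneg_left h5 (Real.rpow_nonneg hB0.le _)).trans (le_of_eq ?_)
      rw [← mul_assoc, ← Real.rpow_add_one hB0.ne', sub_add_cancel]
  have hnn : 0 ≤ ∑ s ∈ T, (ν ^ (∑ i, s i - N) *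
      ∑ t ∈ S with t ≤ s, σ ^ (∑ i, (s i - t i)) * y t) ^ τ :=
    sum_nonneg fun s _ => Real.rpow_nonneg (mul_nonneg (by positivity)
      (sum_nonneg fun t _ => mul_nonneg (by positivity) (hy t))) _
  refine (Real.rpow_le_rpow hnn h4 (by positivity)).trans (le_of_eq ?_)
  rw [← Real.rpow_mul (mul_nonneg hB0.le hZ0), mul_one_div_cancel h0.ne', Real.rpow_one]

end Pool.Agent.Lib.MP_919f0c_an.Det
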