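import Pool.Agent.Lib.MP_919f0c_an.Det.Defs

/-! The Smolyak blocks vanish on the coarser grids. -/

set_option autoImplicit false

open Finset MeasureTheory Filter Topology Pool.Agent.MixedBesov Pool.Agent.Lib.MP_919f0c_an.Up
open scoped Real ENNReal Matrix

namespace Pool.Agent.Lib.MP_919f0c_an.Det

open Pool.Agent.Lib.MP_919f0c_an.Lp

lemma Lg_zero {k a : ℕ} (hk : 0 < k) : Lg k a 0 = if a = 0 then 1 else 0 := by
  have hi : Set.InjOn (fun a : ℕ => (a : ℝ)) (range k) := Nat.cast_injective.injOn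
  split_ifs with h
  · subst h
    simpa [Lg] using Lagrange.eval_basis_self hi (mem_range.2 hk)
  · simpa [Lg] using Lagrange.eval_basis_of_ne (v := fun a : ℕ => (a : ℝ)) h (mem_range.2 hk)

lemma Q_grid {d k : ℕ} (hk : 0 < k) (i : Fin d) (j c : ℕ) :
    Q k i j (c * hh j) = E i (c * hh j) := by
  rw [Q, mul_div_cancel_right₀ _ (hh_pos j).ne', Int.fract_natCast, Int.floor_natCast,
    sum_eq_single_of_mem 0 (mem_range.2 hk) fun b _ hb => by simp [Lg_zero hk, hb]]
  simp [Lg_zero hk]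

lemma hh_mul (a b : ℕ) : (2 : ℝ) ^ a * hh (a + b) = hh b := by
  unfold hh
  rw [pow_add]
  field_simp

theorem qs_van {d k W : ℕ} (hk : 0 < k) (f : C(Torus d, ℝ)) {s : Fin d → ℕ} (x : GW d W)
    {i : Fin d} (hs : s i ≤ W) (h0 : s i ≠ 0) (h : 2 ^ (W + 1 - s i) ∣ (x i).1) :
    qs k f s (fun j => rep (gp x j)) = 0 := by
  obtain ⟨c, hc⟩ := h
  obtain ⟨t, ht⟩ := Nat.exists_eq_succ_of_ne_zero h0
  obtain ⟨u, hu⟩ := Nat.exists_eq_add_of_le hs
  have e0 : W + 1 - s i = u + 1 := by omega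
  have e1 : rep (gp x i) = c * hh t := by
    rw [rep_gp, hc, e0, ← hh_mul (u + 1) t, show u + 1 + t = W by omega]
    push_cast; ring
  have e2 : rep (gp x i) = (2 * c : ℕ) * hh (s i) := by
    rw [e1, ← hh_mul 1 t, show 1 + t = s i by omega]
    push_cast; ring
  have e3 : R k i (s i) (rep (gp x i)) = 0 := by
    rw [R, if_neg h0, sub_eq_zero, show s i - 1 = t by omega]
    calc Q k i (s i) (rep (gp x i)) = E i (rep (gp x i)) := by rw [e2, Q_grid hk]
      _ = _ := by rw [e1, Q_grid hk]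
  rw [qs, prod_eq_zero (mem_univ i) e3]
  rfl

end Pool.Agent.Lib.MP_919f0c_an.Det
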